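import Pool.Agent.Helper18.UY.MLong

/-! Block UY-RB: line coordinates on the torus preserve the measure.

* `rb_mem`: `rep_mem`, `Int.fract_nonneg`, `Int.fract_lt_one`.
* `toT_ln_rb`: `ln b (rb b z).2 (rb b z).1 = ((rep z).1, (rep z).2 - m)`, `m = ⌊(rep z).2 - b (rep z).1⌋`; `toT_sh`, `toT_rep`.
* `rb_toT`: for `s, t ∈ [0, 1)`: `rep (toT (s, t + b s)) = (s, t + b s + w)` for an integer `w` (`rep_toT`, `rep_mem`, first coordinates in
  `[0,1)` differ by an integer so the shift is `0`), and `fract (t + w) = t`.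
* `rb_mp`: `rb b` maps the volume of the torus to the restriction of the Lebesgue measure to `[0,1)²`. For a measurable `A`:
  `rb b ⁻¹' A = rep ⁻¹' (φ ⁻¹' A)`, `φ (x, y) = (x, fract (y - b x))`, by `vol_rep` its measure is
  `volume (φ ⁻¹' A ∩ [0,1)²) = ∫_{x ∈ [0,1)} volume {y ∈ [0,1) | fract (y - b x) ∈ A_x}` (`Measure.prod_apply`), and for every real `c` and
  measurable `D`: `volume {y ∈ [0,1) | fract (y - c) ∈ D} = volume (D ∩ [0,1))` (translation invariance on the circle; e.g. via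
  `AddCircle.measurePreserving_mk`/`volume_preserving_mk`, or split `[0,1)` in two intervals on which `fract (y - c) = y - c - k`).
* `vol_strip`, `vol_strip_diff`: from `rb_mp` (`MeasurePreserving.measure_preimage`), `Measure.prod_prod`, `Measure.prod_apply_symm`;
  `Q \ E = rb b ⁻¹' {p | p.1 ∈ I ∧ p.2 ∈ T ∧ toT (ln b p.2 p.1) ∉ E}` by `toT_ln_rb`. -/

set_option autoImplicit false
open MeasureTheory Real Set

namespace Pool.Agent.Helper18.UY

open Pool.Agent.Helper18.UC

theorem rb_mem (b : ℝ) (z : T2) : rb b z ∈ Ico (0 : ℝ) 1 ×ˢ Ico (0 : ℝ) 1 :=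
  ⟨(rep_mem z).1, Int.fract_nonneg _, Int.fract_lt_one _⟩

theorem toT_ln_rb (b : ℝ) (z : T2) : toT (ln b (rb b z).2 (rb b z).1) = z := by
  have h1 : ln b (rb b z).2 (rb b z).1 = sh (rep z) 0 (-⌊(rep z).2 - b * (rep z).1⌋) := by
    unfold ln rb sh
    refine Prod.ext ?_ ?_
    · simp
    · simp only [Int.fract]
      push_cast
      ring
  rw [h1, toT_sh, toT_rep]

theorem rb_toT {b s t : ℝ} (hs : s ∈ Ico (0 : ℝ) 1) (ht : t ∈ Ico (0 : ℝ) 1) :
    rb b (toT (ln b t s)) = (s, t) := by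
  obtain ⟨u, w, h⟩ := rep_toT (ln b t s)
  have h1 := rep_mem (toT (ln b t s))
  have e1 : (rep (toT (ln b t s))).1 = s + u := by rw [h]; rfl
  have e2 : (rep (toT (ln b t s))).2 = t + b * s + w := by rw [h]; rfl
  have hu : u = 0 := by
    have h2 := h1.1.1
    have h3 := h1.1.2
    rw [e1] at h2 h3
    have h4 : (-1 : ℝ) < u := by linarith [hs.2]
    have h5 : (u : ℝ) < 1 := by linarith [hs.1]
    have h6 : (-1 : ℤ) < u := by exact_mod_cast h4
    have h7 : u < 1 := by exact_mod_cast h5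
    omega
  unfold rb
  refine Prod.ext ?_ ?_
  · show (rep (toT (ln b t s))).1 = s
    rw [e1, hu]
    simp
  · show Int.fract ((rep (toT (ln b t s))).2 - b * (rep (toT (ln b t s))).1) = t
    rw [e1, e2, hu]
    have h2 : t + b * s + w - b * (s + ((0 : ℤ) : ℝ)) = t + w := by
      push_cast
      ring
    rw [h2, Int.fract_add_intCast, Int.fract_eq_self]
    exact ht

private theorem mp_rep : MeasurePreserving rep (volume : Measure T2)
    ((volume : Measure (ℝ × ℝ)).restrict (Ico (0 : ℝ) 1 ×ˢ Ico (0 : ℝ) 1)) := by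
  refine ⟨measurable_rep, ?_⟩
  ext A hA
  rw [Measure.map_apply measurable_rep hA, vol_rep hA, Measure.restrict_apply hA]

private theorem rep2_coe (x : UnitAddCircle) (y : ℝ) : (rep (x, (y : UnitAddCircle))).2 = Int.fract y := by
  have h := AddCircle.coe_equivIco_mk_apply (1:ℝ) y
  rw [div_one, mul_one] at h
  exact h

theorem rb_mp (b : ℝ) : MeasurePreserving (rb b) (volume : Measure T2)
    ((volume : Measure (ℝ × ℝ)).restrict (Ico (0 : ℝ) 1 ×ˢ Ico (0 : ℝ) 1)) := by
  have hr1 : Measurable fun x : UnitAddCircle => (rep (x, 0)).1 :=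
    (measurable_rep.comp (measurable_id.prodMk measurable_const)).fst
  have hψ : MeasurePreserving (fun p : UnitAddCircle × UnitAddCircle =>
      (p.1, p.2 - ((b * (rep (p.1, 0)).1 : ℝ) : UnitAddCircle)))
      ((volume : Measure UnitAddCircle).prod volume) ((volume : Measure UnitAddCircle).prod volume) := by
    refine MeasurePreserving.skew_product (g := fun x y => y - ((b * (rep (x, 0)).1 : ℝ) : UnitAddCircle))
      (MeasurePreserving.id _) ?_ ?_
    · have h1 : Measurable fun x : UnitAddCircle => ((b * (rep (x, 0)).1 : ℝ) : UnitAddCircle) :=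
        AddCircle.measurable_mk'.comp (hr1.const_mul b)
      exact measurable_snd.sub (h1.comp measurable_fst)
    · refine Filter.Eventually.of_forall fun x => ?_
      exact (measurePreserving_sub_right (volume : Measure UnitAddCircle) _).map_eq
  have h2 := mp_rep.comp hψ
  have h3 : rb b = rep ∘ fun p : UnitAddCircle × UnitAddCircle =>
      (p.1, p.2 - ((b * (rep (p.1, 0)).1 : ℝ) : UnitAddCircle)) := by
    funext z
    have h4 : z.2 - ((b * (rep (z.1, 0)).1 : ℝ) : UnitAddCircle) =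
        (((rep z).2 - b * (rep z).1 : ℝ) : UnitAddCircle) := by
      have h5 : (((rep z).2 : ℝ) : UnitAddCircle) = z.2 := congrArg Prod.snd (toT_rep z)
      rw [AddCircle.coe_sub, h5]
      rfl
    show rb b z = rep (z.1, z.2 - ((b * (rep (z.1, 0)).1 : ℝ) : UnitAddCircle))
    rw [h4]
    refine Prod.ext rfl ?_
    rw [rep2_coe]
    rfl
  rw [h3]
  exact h2

theorem vol_rb (b : ℝ) {A : Set (ℝ × ℝ)} (hA : MeasurableSet A) (hA1 : A ⊆ Ico (0 : ℝ) 1 ×ˢ Ico (0 : ℝ) 1) :
    volume (rb b ⁻¹' A) = volume A := by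
  rw [(rb_mp b).measure_preimage hA.nullMeasurableSet, Measure.restrict_apply hA, inter_eq_left.2 hA1]

private theorem strip_eq (b : ℝ) (I T : Set ℝ) : strip b I T = rb b ⁻¹' (I ×ˢ T) := rfl

theorem measurableSet_strip (b : ℝ) {I T : Set ℝ} (hI : MeasurableSet I) (hT : MeasurableSet T) :
    MeasurableSet (strip b I T) :=
  measurable_rb b (hI.prod hT)

theorem vol_strip (b : ℝ) {I T : Set ℝ} (hI : MeasurableSet I) (hT : MeasurableSet T)
    (hI1 : I ⊆ Ico 0 1) (hT1 : T ⊆ Ico 0 1) : volume (strip b I T) = volume I * volume T := by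
  rw [strip_eq, vol_rb b (hI.prod hT) (prod_mono hI1 hT1), Measure.volume_eq_prod, Measure.prod_prod]

theorem vol_strip_diff (b : ℝ) {I T : Set ℝ} (hI : MeasurableSet I) (hT : MeasurableSet T)
    (hI1 : I ⊆ Ico 0 1) (hT1 : T ⊆ Ico 0 1) {E : Set T2} (hE : MeasurableSet E) :
    volume (strip b I T \ E) = ∫⁻ t in T, volume {s | s ∈ I ∧ toT (ln b t s) ∉ E} := by
  have hln : Measurable fun p : ℝ × ℝ => toT (ln b p.2 p.1) := by
    refine measurable_toT.comp ?_
    unfold ln
    exact measurable_fst.prodMk (measurable_snd.add (measurable_fst.const_mul b))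
  set A : Set (ℝ × ℝ) := (I ×ˢ T) ∩ (fun p : ℝ × ℝ => toT (ln b p.2 p.1)) ⁻¹' Eᶜ with hA
  have hAm : MeasurableSet A := (hI.prod hT).inter (hln hE.compl)
  have hA1 : A ⊆ Ico (0 : ℝ) 1 ×ˢ Ico (0 : ℝ) 1 := inter_subset_left.trans (prod_mono hI1 hT1)
  have h1 : strip b I T \ E = rb b ⁻¹' A := by
    ext z
    constructor
    · rintro ⟨h2, h3⟩
      refine ⟨h2, ?_⟩
      show toT (ln b (rb b z).2 (rb b z).1) ∉ E
      rw [toT_ln_rb]
      exact h3
    · rintro ⟨h2, h3⟩
      refine ⟨h2, ?_⟩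
      have h4 : toT (ln b (rb b z).2 (rb b z).1) ∉ E := h3
      rwa [toT_ln_rb] at h4
  rw [h1, vol_rb b hAm hA1, Measure.volume_eq_prod, Measure.prod_apply_symm hAm, ← lintegral_indicator hT]
  refine lintegral_congr fun t => ?_
  by_cases ht : t ∈ T
  · rw [indicator_of_mem ht]
    congr 1
    ext s
    constructor
    · rintro ⟨h2, h3⟩
      exact ⟨h2.1, h3⟩
    · rintro ⟨h2, h3⟩
      exact ⟨⟨h2, ht⟩, h3⟩
  · rw [indicator_of_notMem ht]
    have h2 : (fun x : ℝ => (x, t)) ⁻¹' A = ∅ := by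
      ext s
      constructor
      · rintro ⟨h2, _⟩
        exact absurd h2.2 ht
      · intro h2
        exact absurd h2 (notMem_empty _)
    rw [h2, measure_empty]

end Pool.Agent.Helper18.UY
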