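import Pool.Agent.Helper18.UY.Bad
import Pool.Agent.Helper18.UY.RB

/-! Block UY-BADT: on the torus, points with a large velocity have many long times, except for a set of small measure.

`badT`: the set `{z | exp (c N) ≤ V N (rep z)} \ FQ θ N` is contained in `rb b ⁻¹' A`, with `A` the set of `(s, t) ∈ [0,1)²` such that
`exp (c N) ≤ V N (ln b t s)` (`V_rb`) and `∑_{l ≤ N} 1_{Long l t s} ≤ θ N`; `A` is Borel (`isClosed_long`, continuity). By `vol_rb` and
Tonelli (`Measure.prod_apply_symm`) and `bad_line` its measure is at most `ofReal (16 B x^N)`,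
`x = C (1 + log LL)^5 LL^θ exp (-c) ≤ exp (-1) < 1` by the hypothesis on `c` (with `C' = 1 + log C`), and `16 B x^N → 0`. -/

set_option autoImplicit false
open MeasureTheory Real Set Filter

namespace Pool.Agent.Helper18.UY

open Pool.Agent.Helper18.UC

/-- the bad set in line coordinates -/
private def bset38 (a b B c θ : ℝ) (N : ℕ) : Set (ℝ × ℝ) :=
  {p | p ∈ Ico (0 : ℝ) 1 ×ˢ Ico (0 : ℝ) 1 ∧ Real.exp (c * N) ≤ V a b N (ln b p.2 p.1) ∧
    ∑ l ∈ Finset.Icc 1 N, ({p : ℝ × ℝ | Long a b B l p.2 p.1}).indicator (fun _ => (1 : ℝ)) p ≤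
      θ * N}

private theorem meas38 (a b : ℝ) {B : ℝ} (hB : 0 < B) (c θ : ℝ) (N : ℕ) :
    MeasurableSet (bset38 a b B c θ N) := by
  have h1 : Continuous fun p : ℝ × ℝ => V a b N (ln b p.2 p.1) := by
    refine (V_cont a b N).comp ?_
    unfold ln
    fun_prop
  have h2 : Measurable fun p : ℝ × ℝ => ∑ l ∈ Finset.Icc 1 N,
      ({p : ℝ × ℝ | Long a b B l p.2 p.1}).indicator (fun _ => (1 : ℝ)) p :=
    Finset.measurable_sum _ fun l _ =>
      measurable_const.indicator (isClosed_long a b hB l).measurableSet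
  have h3 : MeasurableSet {p : ℝ × ℝ | Real.exp (c * N) ≤ V a b N (ln b p.2 p.1)} :=
    (isClosed_le continuous_const h1).measurableSet
  have h4 := measurableSet_le h2 (measurable_const (a := θ * (N : ℝ)))
  exact (measurableSet_Ico.prod measurableSet_Ico).inter (h3.inter h4)

private theorem sub38 (a b B c θ : ℝ) (N : ℕ) :
    PV a b c N \ FQ a b B θ N ⊆ rb b ⁻¹' bset38 a b B c θ N := by
  rintro z ⟨h1, h2⟩
  refine ⟨rb_mem b z, ?_, ?_⟩
  · rw [V_rb]
    exact h1
  · have h3 : ¬ θ * N ≤ ∑ n ∈ Finset.Icc 1 N, (LG a b B n).indicator (fun _ => (1 : ℝ)) z := h2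
    rw [not_le] at h3
    exact h3.le

private theorem vol38 {B C : ℝ} (hB : 0 < B) (hC : ∀ (a b t : ℝ), 0 ≤ b → b ≤ 1 →
    ∀ (n : ℕ) (c θ : ℝ), 0 ≤ θ →
    volume {s : ℝ | s ∈ Icc (0 : ℝ) 1 ∧ Real.exp (c * n) ≤ V a b n (ln b t s) ∧
      ∑ l ∈ Finset.Icc 1 n, ({s : ℝ | Long a b B l t s}).indicator (fun _ => (1 : ℝ)) s ≤ θ * n} ≤
    ENNReal.ofReal (16 * B * (C * (1 + Real.log (LL a)) ^ 5 * LL a ^ θ * Real.exp (-c)) ^ n))
    {a b c θ : ℝ} (hb : 0 ≤ b) (hb1 : b ≤ 1) (hθ : 0 ≤ θ) (N : ℕ) :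
    volume (bset38 a b B c θ N) ≤
      ENNReal.ofReal (16 * B * (C * (1 + Real.log (LL a)) ^ 5 * LL a ^ θ * Real.exp (-c)) ^ N) := by
  rw [Measure.volume_eq_prod, Measure.prod_apply_symm (meas38 a b hB c θ N)]
  set K := ENNReal.ofReal
    (16 * B * (C * (1 + Real.log (LL a)) ^ 5 * LL a ^ θ * Real.exp (-c)) ^ N) with hK
  have h1 : ∀ t : ℝ, volume ((fun s : ℝ => (s, t)) ⁻¹' bset38 a b B c θ N) ≤
      (Ico (0 : ℝ) 1).indicator (fun _ => K) t := by
    intro t
    by_cases ht : t ∈ Ico (0 : ℝ) 1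
    · rw [indicator_of_mem ht]
      refine (measure_mono ?_).trans (hC a b t hb hb1 N c θ hθ)
      rintro s ⟨h2, h3, h4⟩
      exact ⟨Ico_subset_Icc_self h2.1, h3, h4⟩
    · rw [indicator_of_notMem ht]
      have h2 : (fun s : ℝ => (s, t)) ⁻¹' bset38 a b B c θ N = ∅ := by
        ext s
        simp only [mem_preimage, mem_empty_iff_false, iff_false]
        rintro ⟨h2, -, -⟩
        exact ht h2.2
      rw [h2, measure_empty]
  calc ∫⁻ t, volume ((fun s : ℝ => (s, t)) ⁻¹' bset38 a b B c θ N)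
      ≤ ∫⁻ t, (Ico (0 : ℝ) 1).indicator (fun _ => K) t := lintegral_mono h1
    _ = K := by
      rw [lintegral_indicator measurableSet_Ico, setLIntegral_const, Real.volume_Ico, sub_zero,
        ENNReal.ofReal_one, mul_one]

theorem badT {B : ℝ} (hB : 100 ≤ B) : ∃ C : ℝ, 0 ≤ C ∧ ∀ (a b c θ : ℝ), 0 ≤ b → b ≤ 1 → 0 ≤ θ →
    θ * Real.log (LL a) + 5 * Real.log (1 + Real.log (LL a)) + C ≤ c →
    Tendsto (fun N : ℕ => volume (PV a b c N \ FQ a b B θ N)) atTop (nhds 0) := by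
  have hB0 : 0 < B := by linarith
  obtain ⟨C, hC1, hC⟩ := bad_line hB
  have hC0 : 0 < C := by linarith
  have hlC : 0 ≤ Real.log C := Real.log_nonneg hC1
  refine ⟨1 + Real.log C, by linarith, fun a b c θ hb hb1 hθ hc => ?_⟩
  have hLL : 4 ≤ LL a := by
    unfold LL
    have : 0 ≤ 2 * π * |a| := by positivity
    linarith
  have hLL0 : 0 < LL a := by linarith
  have hlog : 0 ≤ Real.log (LL a) := Real.log_nonneg (by linarith)
  have hl1 : 0 < 1 + Real.log (LL a) := by linarith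
  set x := C * (1 + Real.log (LL a)) ^ 5 * LL a ^ θ * Real.exp (-c) with hx
  have hx0 : 0 < x := by positivity
  have hx1 : x < 1 := by
    rw [← Real.log_neg_iff hx0, hx, Real.log_mul (by positivity) (by positivity),
      Real.log_mul (by positivity) (by positivity), Real.log_mul (by positivity) (by positivity),
      Real.log_pow, Real.log_rpow hLL0, Real.log_exp]
    push_cast
    linarith
  have hlim : Tendsto (fun N : ℕ => ENNReal.ofReal (16 * B * x ^ N)) atTop (nhds 0) := by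
    have h1 : Tendsto (fun N : ℕ => 16 * B * x ^ N) atTop (nhds (16 * B * 0)) :=
      (tendsto_pow_atTop_nhds_zero_of_lt_one hx0.le hx1).const_mul _
    rw [mul_zero] at h1
    have h2 := ENNReal.tendsto_ofReal h1
    rwa [ENNReal.ofReal_zero] at h2
  refine tendsto_of_tendsto_of_tendsto_of_le_of_le tendsto_const_nhds hlim (fun _ => bot_le)
    fun N => ?_
  calc volume (PV a b c N \ FQ a b B θ N) ≤ volume (rb b ⁻¹' bset38 a b B c θ N) :=
        measure_mono (sub38 a b B c θ N)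
    _ = volume (bset38 a b B c θ N) := vol_rb b (meas38 a b hB0 c θ N) fun p hp => hp.1
    _ ≤ _ := vol38 hB0 hC hb hb1 hθ N

end Pool.Agent.Helper18.UY
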