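import Pool.Agent.Helper18.UY.Vel

/-! Block UY-DIRB: a slope for which almost every point has a large velocity.

(1) `dir_mat`: for a matrix `X` with `nn X > 0` and `k ≥ 1` the set of `b ∈ [0, 1]` with
`max |X00 + b X01| |X10 + b X11| * k < nn X` has measure at most `16/k`. If `|X_{i1}| ≥ nn X/8` for some `i`, it is contained in
`{b | |X_{i0} + b X_{i1}| < nn X/k}`, an interval of length `2 nn X/(k |X_{i1}|) ≤ 16/k`. Otherwise `|X00| + |X10| > (3/4) nn X`, some
`|X_{i0}| > (3/8) nn X` and `|X_{i0} + b X_{i1}| > nn X/4`, so the set is empty if `k ≥ 4`; if `k < 4` then `16/k > 1`.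
(2) `exists_dir`: let `f N b = volume {z : T2 | V a b N (rep z) (N+1)² < nn (M a N (rep z))}`. The set of `(b, z)` is measurable (entries of `M` are
continuous, `M_entry_cont`, `measurable_rep`), so by Tonelli `∫_{b ∈ [0,1]} f N b = ∫_z volume {b ∈ [0,1] | …} ≤ 16/(N+1)²`
(`lintegral_prod`/`lintegral_lintegral_swap`, `volume univ = 1` on the torus). Hence `∫_{[0,1]} ∑_N f N b < ∞` (`lintegral_tsum`), so
for almost every `b ∈ [0,1]` the sum is finite, choose one; the terms of a convergent series in `ENNReal` tend to `0`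
(`ENNReal.tendsto_atTop_zero_of_tsum_ne_top`). -/

set_option autoImplicit false
open MeasureTheory Real Set Filter

namespace Pool.Agent.Helper18.UY

open Pool.Agent.Helper18.UC

private theorem aux45 (u v S : ℝ) (hS : 0 < S) (hv : S / 8 ≤ |v|) {k : ℝ} (hk : 1 ≤ k) :
    volume {b : ℝ | |u + b * v| * k < S} ≤ ENNReal.ofReal (16 / k) := by
  have hk0 : 0 < k := by linarith
  have hv0 : 0 < |v| := by linarith
  have hvne : v ≠ 0 := abs_pos.1 hv0
  have h1 : {b : ℝ | |u + b * v| * k < S} ⊆ Metric.ball (-u / v) (8 / k) := by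
    intro b hb
    have hb' : |u + b * v| * k < S := hb
    rw [Metric.mem_ball, Real.dist_eq]
    have h2 : b - -u / v = (u + b * v) / v := by field_simp; ring
    rw [h2, abs_div, div_lt_div_iff₀ hv0 hk0]
    linarith
  refine (measure_mono h1).trans ?_
  rw [Real.volume_ball]
  apply le_of_eq
  congr 1
  ring

private theorem aux45b (u v S : ℝ) (hS : 0 < S) (hv : |v| < S / 8) (hu : 3 / 8 * S < |u|) {k : ℝ}
    (hk : 4 ≤ k) {b : ℝ} (hb0 : 0 ≤ b) (hb1 : b ≤ 1) : ¬ (|u + b * v| * k < S) := by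
  intro h
  have h1 : |b * v| ≤ |v| := by
    rw [abs_mul, abs_of_nonneg hb0]
    exact mul_le_of_le_one_left (abs_nonneg _) hb1
  have h2 : |u| ≤ |u + b * v| + |b * v| := by
    have := abs_sub (u + b * v) (b * v)
    rwa [add_sub_cancel_right] at this
  have h3 : S / 4 < |u + b * v| := by linarith
  nlinarith

theorem dir_mat (X : Matrix (Fin 2) (Fin 2) ℝ) (hX : 0 < nn X) {k : ℝ} (hk : 1 ≤ k) :
    volume {b : ℝ | b ∈ Icc (0 : ℝ) 1 ∧ max |X 0 0 + b * X 0 1| |X 1 0 + b * X 1 1| * k < nn X} ≤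
      ENNReal.ofReal (16 / k) := by
  have hk0 : 0 < k := by linarith
  by_cases h1 : nn X / 8 ≤ |X 0 1|
  · refine (measure_mono ?_).trans (aux45 (X 0 0) (X 0 1) (nn X) hX h1 hk)
    rintro b ⟨-, hb⟩
    exact lt_of_le_of_lt (mul_le_mul_of_nonneg_right (le_max_left _ _) hk0.le) hb
  by_cases h2 : nn X / 8 ≤ |X 1 1|
  · refine (measure_mono ?_).trans (aux45 (X 1 0) (X 1 1) (nn X) hX h2 hk)
    rintro b ⟨-, hb⟩
    exact lt_of_le_of_lt (mul_le_mul_of_nonneg_right (le_max_right _ _) hk0.le) hb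
  push Not at h1 h2
  by_cases h4 : 4 ≤ k
  · have h5 : {b : ℝ | b ∈ Icc (0 : ℝ) 1 ∧
        max |X 0 0 + b * X 0 1| |X 1 0 + b * X 1 1| * k < nn X} = ∅ := by
      rw [eq_empty_iff_forall_notMem]
      rintro b ⟨⟨hb0, hb1⟩, hb⟩
      have h6 : nn X = |X 0 0| + |X 0 1| + |X 1 0| + |X 1 1| := rfl
      rcases lt_or_ge (3 / 8 * nn X) |X 0 0| with h7 | h7
      · exact aux45b _ _ _ hX h1 h7 h4 hb0 hb1
          (lt_of_le_of_lt (mul_le_mul_of_nonneg_right (le_max_left _ _) hk0.le) hb)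
      · exact aux45b _ _ _ hX h2 (by linarith) h4 hb0 hb1
          (lt_of_le_of_lt (mul_le_mul_of_nonneg_right (le_max_right _ _) hk0.le) hb)
    rw [h5, measure_empty]
    exact zero_le
  · push Not at h4
    have h5 : volume (Icc (0 : ℝ) 1) ≤ ENNReal.ofReal (16 / k) := by
      rw [Real.volume_Icc]
      apply ENNReal.ofReal_le_ofReal
      rw [le_div_iff₀ hk0]
      linarith
    refine (measure_mono ?_).trans h5
    rintro b ⟨hb, -⟩
    exact hb

private theorem prob45 : volume (univ : Set T2) = 1 := by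
  have h1 : IsProbabilityMeasure (volume : Measure UnitAddCircle) := ⟨by
    rw [AddCircle.measure_univ]; exact ENNReal.ofReal_one⟩
  have h2 : IsProbabilityMeasure ((volume : Measure UnitAddCircle).prod
    (volume : Measure UnitAddCircle)) := inferInstance
  exact h2.measure_univ

private theorem meas45 (a : ℝ) (N : ℕ) : MeasurableSet {p : ℝ × T2 |
    V a p.1 N (rep p.2) * (N + 1) ^ 2 < nn (M a N (rep p.2))} := by
  have h1 : ∀ i j : Fin 2, Measurable fun p : ℝ × T2 => M a N (rep p.2) i j := fun i j =>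
    (M_entry_cont a N i j).measurable.comp (measurable_rep.comp measurable_snd)
  have h2 : Measurable fun p : ℝ × T2 => nn (M a N (rep p.2)) := by
    unfold nn
    exact ((((h1 0 0).norm.add (h1 0 1).norm).add (h1 1 0).norm).add (h1 1 1).norm)
  have h3 : Measurable fun p : ℝ × T2 => V a p.1 N (rep p.2) := by
    unfold V wx wy
    exact ((h1 0 0).add (measurable_fst.mul (h1 0 1))).norm.max
      ((h1 1 0).add (measurable_fst.mul (h1 1 1))).norm
  exact measurableSet_lt (h3.mul_const _) h2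

theorem exists_dir (a : ℝ) : ∃ b : ℝ, 0 ≤ b ∧ b ≤ 1 ∧
    Tendsto (fun N : ℕ => volume {z : T2 | V a b N (rep z) * (N + 1) ^ 2 < nn (M a N (rep z))})
      atTop (nhds 0) := by
  obtain ⟨μ, hμ⟩ : ∃ μ : Measure ℝ, μ = volume.restrict (Icc (0 : ℝ) 1) := ⟨_, rfl⟩
  have hμu : μ univ = 1 := by
    rw [hμ, Measure.restrict_apply_univ, Real.volume_Icc, sub_zero, ENNReal.ofReal_one]
  have hfin : IsFiniteMeasure μ := ⟨by rw [hμu]; exact ENNReal.one_lt_top⟩
  have hne : (ae μ).NeBot := by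
    rw [ae_neBot]
    rintro rfl
    simp at hμu
  obtain ⟨f, hf⟩ : ∃ f : ℕ → ℝ → ENNReal, ∀ N b, f N b = volume {z : T2 |
      V a b N (rep z) * (N + 1) ^ 2 < nn (M a N (rep z))} := ⟨_, fun _ _ => rfl⟩
  have hfm : ∀ N, Measurable (f N) := by
    intro N
    have h1 := measurable_measure_prodMk_left (ν := (volume : Measure T2)) (meas45 a N)
    have h2 : f N = fun b => volume (Prod.mk b ⁻¹' {p : ℝ × T2 |
      V a p.1 N (rep p.2) * (N + 1) ^ 2 < nn (M a N (rep p.2))}) := by
      funext b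
      rw [hf]
      rfl
    rw [h2]
    exact h1
  have hint : ∀ N, ∫⁻ b, f N b ∂μ ≤ ENNReal.ofReal (16 * (1 / ((N : ℝ) + 1) ^ 2)) := by
    intro N
    have h1 : ∫⁻ b, f N b ∂μ = (μ.prod (volume : Measure T2)) {p : ℝ × T2 |
        V a p.1 N (rep p.2) * (N + 1) ^ 2 < nn (M a N (rep p.2))} := by
      rw [Measure.prod_apply (meas45 a N)]
      apply lintegral_congr
      intro b
      rw [hf]
      rfl
    rw [h1, Measure.prod_apply_symm (meas45 a N)]
    have h2 : ∀ z : T2, μ ((fun b : ℝ => (b, z)) ⁻¹' {p : ℝ × T2 |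
        V a p.1 N (rep p.2) * (N + 1) ^ 2 < nn (M a N (rep p.2))}) ≤
        ENNReal.ofReal (16 * (1 / ((N : ℝ) + 1) ^ 2)) := by
      intro z
      have h3 : (1 : ℝ) ≤ ((N : ℝ) + 1) ^ 2 := by
        have : (0 : ℝ) ≤ N := Nat.cast_nonneg N
        nlinarith
      have h4 : 0 < nn (M a N (rep z)) := by
        have := two_le_nn a N (rep z)
        linarith
      have h5 := dir_mat (M a N (rep z)) h4 h3
      rw [hμ, Measure.restrict_apply (measurable_prodMk_right (meas45 a N)), mul_one_div]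
      refine (measure_mono ?_).trans h5
      rintro b ⟨h6, h7⟩
      exact ⟨h7, h6⟩
    refine (lintegral_mono h2).trans ?_
    rw [lintegral_const, prob45, mul_one]
  have hsum : ∫⁻ b, ∑' N, f N b ∂μ ≠ ⊤ := by
    rw [lintegral_tsum (fun N => (hfm N).aemeasurable)]
    have h1 : Summable fun N : ℕ => 16 * (1 / ((N : ℝ) + 1) ^ 2) := by
      apply Summable.mul_left
      have h2 := (summable_nat_add_iff 1).2 (Real.summable_one_div_nat_pow.2 (one_lt_two))
      simpa using h2
    exact ne_top_of_le_ne_top h1.tsum_ofReal_ne_top (ENNReal.tsum_le_tsum hint)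
  have hae := ae_lt_top (Measurable.tsum hfm) hsum
  have hmem : ∀ᵐ b ∂μ, b ∈ Icc (0 : ℝ) 1 := by
    rw [hμ]
    exact ae_restrict_mem measurableSet_Icc
  obtain ⟨b, hb1, hb2⟩ := (hae.and hmem).exists
  refine ⟨b, hb2.1, hb2.2, ?_⟩
  have h3 := ENNReal.tendsto_atTop_zero_of_tsum_ne_top hb1.ne
  refine h3.congr fun N => ?_
  exact hf N b

end Pool.Agent.Helper18.UY
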