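import Pool.Agent.Helper18.UY.Pos
import Pool.Agent.Helper18.UY.BadT
import Pool.Agent.Helper18.UY.DirB
import Pool.Agent.Helper18.UC.Eig
import Pool.Agent.Helper18.UC.Expo

/-! Assembly of project UY. -/

set_option autoImplicit false
open MeasureTheory Real Set Filter Topology

namespace Pool.Agent.Helper18.UY

open Pool.Agent.Helper18.UC

private lemma LL_le {a : ℝ} (ha : 1000 ≤ |a|) : LL a ≤ 7 * |a| := by
  unfold LL
  have := Real.pi_lt_d4
  nlinarith

private lemma le_LL {a : ℝ} : |a| ≤ LL a := by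
  unfold LL
  have := Real.pi_gt_three
  nlinarith [abs_nonneg a]

private lemma prob_T2 : IsProbabilityMeasure (volume : Measure T2) := by
  have h1 : IsProbabilityMeasure (volume : Measure UnitAddCircle) := by
    constructor
    rw [UnitAddCircle.measure_univ]
  show IsProbabilityMeasure ((volume : Measure UnitAddCircle).prod volume)
  infer_instance

/-- the numbers in the second part -/
private lemma num {θ t e B μ δ : ℝ} (ht : 1 / 2 ≤ t) (ht1 : t ≤ 1) (he : 0 ≤ e) (he2 : e ≤ 1 / 8)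
    (hθ : t - e ≤ θ) (hθ1 : θ ≤ 1) (hB : 0 < B) (hBδ : 100 / B ≤ δ / 2) (heδ : 16 * e ≤ δ / 2)
    (hμ0 : 0 ≤ μ) (hμ1 : μ ≤ 1) (h : 2 * θ - 1 ≤ (1 + 100 / B) * θ ^ 2 * μ) :
    1 - ((1 - t) / t) ^ 2 - δ ≤ μ := by
  have hθ0 : 3 / 8 ≤ θ := by linarith
  have ht0 : 0 < t := by linarith
  have h1 : 1 - ((1 - θ) / θ) ^ 2 ≤ (1 + 100 / B) * μ := by
    have : 1 - ((1 - θ) / θ) ^ 2 = (2 * θ - 1) / θ ^ 2 := by field_simp; ring
    rw [this, div_le_iff₀ (by positivity)]
    linarith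
  have h2 : (1 + 100 / B) * μ ≤ μ + δ / 2 := by
    have h0 : 0 ≤ 100 / B := by positivity
    nlinarith
  have h3 : (1 - θ) / θ ≤ (1 - t) / t + 16 / 3 * e := by
    rw [div_add' _ _ _ ht0.ne', div_le_div_iff₀ (by linarith) ht0]
    have hb : (1 - θ) * t - (1 - t) * θ ≤ e := by nlinarith
    have hc : 16 / 3 * e * t * θ ≥ e := by
      have : t * θ ≥ 3 / 16 := by nlinarith
      nlinarith
    nlinarith
  have h4 : 0 ≤ (1 - θ) / θ := div_nonneg (by linarith) (by linarith)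
  have h5 : 0 ≤ (1 - t) / t := div_nonneg (by linarith) ht0.le
  have h6 : (1 - t) / t ≤ 1 := by rw [div_le_one ht0]; linarith
  have h7 : ((1 - θ) / θ) ^ 2 ≤ ((1 - t) / t) ^ 2 + 16 * e := by
    have h8 : ((1 - θ) / θ) ^ 2 ≤ ((1 - t) / t + 16 / 3 * e) ^ 2 :=
      pow_le_pow_left₀ h4 h3 2
    nlinarith
  linarith

/-- the logarithms of `LL` -/
private lemma logs {a l : ℝ} (hl : l = Real.log |a|) (ha : 1000 ≤ |a|) (hl3 : 10 ≤ l) :
    l ≤ Real.log (LL a) ∧ Real.log (LL a) ≤ l + 2 ∧ 1 ≤ Real.log (LL a) ∧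
      5 * Real.log (1 + Real.log (LL a)) ≤ 5 + 5 * Real.log l := by
  have ha0 : 0 < |a| := by linarith
  have h1 : l ≤ Real.log (LL a) := by
    rw [hl]; exact Real.log_le_log ha0 le_LL
  have h2 : Real.log (LL a) ≤ l + 2 := by
    have h3 : Real.log (LL a) ≤ Real.log (7 * |a|) := Real.log_le_log (LL_pos a) (LL_le ha)
    rw [Real.log_mul (by norm_num) ha0.ne'] at h3
    have h4 : Real.log 7 ≤ 2 := by
      rw [Real.log_le_iff_le_exp (by norm_num)]
      have h := Real.exp_one_gt_d9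
      have h5 : Real.exp 2 = Real.exp 1 ^ 2 := by rw [← Real.exp_nat_mul]; norm_num
      rw [h5]; nlinarith
    rw [hl]; linarith
  refine ⟨h1, h2, by linarith, ?_⟩
  have h3 : Real.log (1 + Real.log (LL a)) ≤ Real.log (Real.exp 1 * l) := by
    apply Real.log_le_log (by linarith)
    have h := Real.exp_one_gt_d9
    nlinarith
  rw [Real.log_mul (Real.exp_pos _).ne' (by linarith), Real.log_exp] at h3
  linarith

theorem main : ∀ δ : ℝ, 0 < δ → ∃ A : ℝ, ∀ a : ℝ, A ≤ |a| →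
    ∀ S : UnitAddCircle × UnitAddCircle → UnitAddCircle × UnitAddCircle,
    (∀ x y : ℝ, S ((x : UnitAddCircle), (y : UnitAddCircle)) =
      (((2 * x - y + a * Real.sin (2 * π * x) : ℝ) : UnitAddCircle), (x : UnitAddCircle))) →
    ∃ lam : UnitAddCircle × UnitAddCircle → ℝ, Measurable lam ∧
      (∀ᵐ p : ℝ × ℝ, Tendsto (fun n : ℕ => Real.log
          ‖fderiv ℝ ((fun q : ℝ × ℝ => (2 * q.1 - q.2 + a * Real.sin (2 * π * q.1), q.1))^[n]) p‖
            / n) atTop (𝓝 (lam ((p.1 : UnitAddCircle), (p.2 : UnitAddCircle))))) ∧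
      (∃ L0 : ℝ, ∀ᵐ z, 6 * Real.log (Real.log |a|) < lam z → lam z = L0) ∧
      (∀ (ξ : ℂ) (h : UnitAddCircle × UnitAddCircle → ℂ), Measurable h →
        (∀ᵐ z, 6 * Real.log (Real.log |a|) < lam z → h (S z) = ξ * h z) →
        ∃ w : ℂ, ∀ᵐ z, 6 * Real.log (Real.log |a|) < lam z → h z = w) ∧
      (∀ σ : ℝ, 0 ≤ σ → σ ≤ 1 / 2 → volume {z | (1 - σ) * Real.log |a| ≤ lam z} ≠ 0 →
        1 - (σ / (1 - σ)) ^ 2 - δ ≤
          volume.real {z | 6 * Real.log (Real.log |a|) < lam z}) := by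
  intro δ hδ
  obtain ⟨B, hB, hBδ⟩ : ∃ B : ℝ, 100 ≤ B ∧ 100 / B ≤ δ / 2 := by
    refine ⟨max 100 (200 / δ), le_max_left _ _, ?_⟩
    have h100 : (0:ℝ) < max 100 (200 / δ) := lt_of_lt_of_le (by norm_num) (le_max_left _ _)
    rw [div_le_div_iff₀ h100 (by norm_num)]
    have : 200 / δ ≤ max 100 (200 / δ) := le_max_right _ _
    rw [div_le_iff₀ hδ] at this
    linarith
  have hB0 : 0 < B := by linarith
  obtain ⟨C, hC0, hC⟩ := badT hB
  set e : ℝ := min (1 / 8) (δ / 32) with he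
  have he0 : 0 < e := lt_min (by norm_num) (by linarith)
  have he1 : e ≤ 1 / 8 := min_le_left _ _
  have he2 : 16 * e ≤ δ / 2 := by have := min_le_right (1 / 8) (δ / 32); linarith
  obtain ⟨l0, hl0⟩ : ∃ l0 : ℝ, ∀ l ≥ l0, 5 * Real.log l + C + 20 ≤ e * l ∧
      6 * Real.log l + 1 ≤ l / 2 ∧ C + 20 ≤ Real.log l := by
    have h1 := Real.isLittleO_log_id_atTop.bound (show 0 < e / 20 by linarith)
    have h2 := tendsto_id (α := ℝ) (x := atTop)
    have h3 : ∀ᶠ l : ℝ in atTop, (C + 20) * 20 / e ≤ l := eventually_ge_atTop _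
    have h4 : ∀ᶠ l : ℝ in atTop, C + 20 ≤ Real.log l :=
      Real.tendsto_log_atTop.eventually_ge_atTop _
    have h5 : ∀ᶠ l : ℝ in atTop, 5 * Real.log l + C + 20 ≤ e * l ∧
      6 * Real.log l + 1 ≤ l / 2 ∧ C + 20 ≤ Real.log l := by
      filter_upwards [h1, h3, h4, eventually_ge_atTop 100] with l h1 h3 h4 h5
      rw [Real.norm_eq_abs, Real.norm_eq_abs, id, abs_of_nonneg (by linarith : 0 ≤ Real.log l),
        abs_of_nonneg (by linarith : 0 ≤ l)] at h1
      rw [div_le_iff₀ he0] at h3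
      refine ⟨by nlinarith, by nlinarith, h4⟩
    exact eventually_atTop.1 h5
  refine ⟨max 1000 (Real.exp (max 10 l0)), ?_⟩
  intro a ha S hS
  have ha1 : 1000 ≤ |a| := (le_max_left _ _).trans ha
  have ha0 : 0 < |a| := by linarith
  obtain ⟨l, hl⟩ : ∃ l, l = Real.log |a| := ⟨_, rfl⟩
  have hlm : max 10 l0 ≤ l := by
    rw [hl, Real.le_log_iff_exp_le ha0]; exact (le_max_right _ _).trans ha
  have hl10 : 10 ≤ l := (le_max_left _ _).trans hlm
  obtain ⟨k1, k2, k3⟩ := hl0 l ((le_max_right _ _).trans hlm)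
  obtain ⟨g1, g2, g3, g4⟩ := logs hl ha1 hl10
  have hS' : IsS a S := hS
  obtain ⟨lam, hlm, -, hlinv, hlim, hom⟩ := exists_lam hS'
  obtain ⟨b, hb0, hb1, hdir⟩ := exists_dir a
  have ha10 : 10 ≤ |a| := by linarith
  rw [← hl]
  -- uniqueness and weak mixing
  have hmix : ∀ (ξ : ℂ) (h : UnitAddCircle × UnitAddCircle → ℂ), Measurable h →
        (∀ᵐ z, 6 * Real.log l < lam z → h (S z) = ξ * h z) →
        ∃ w : ℂ, ∀ᵐ z, 6 * Real.log l < lam z → h z = w := by
    intro ξ h hh heq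
    set c : ℝ := 6 * Real.log l with hc
    set θ : ℝ := 1 / Real.log (LL a) with hθ
    have hθ0 : 0 < θ := by positivity
    have hθ1 : θ ≤ 1 := by rw [hθ, div_le_one (by linarith)]; exact g3
    have hD : Data a b B c (c - 1) θ := by
      refine ⟨hB, by linarith, by linarith, hθ0.le, hθ1, hdir, ?_⟩
      refine hC a b (c - 1) θ hb0 hb1 hθ0.le ?_
      have : θ * Real.log (LL a) = 1 := by rw [hθ]; field_simp
      rw [this]
      linarith
    have hmeas := measurableSet_om a c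
    have hinv := om_inv hS' c
    have hP := om_PN (a := a) c
    have heq' : ∀ᵐ z, z ∈ om a c → h (S z) = ξ * h z := by
      filter_upwards [heq, hom c] with z h1 h2 hz
      exact h1 (h2.1 hz)
    obtain ⟨w, hw⟩ := eig_const (S_mp hS') hmeas hinv (fun E E' hE hE' hEΩ hEΩ' hm hm' =>
      pos hS' hD hθ0 ha10 hmeas hinv hP hE hEΩ hE' hEΩ' hm hm') hh heq'
    refine ⟨w, ?_⟩
    filter_upwards [hw, hom c] with z h1 h2 hz
    exact h1 (h2.2 hz)
  refine ⟨lam, hlm, hlim, ?_, hmix, ?_⟩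
  · obtain ⟨w, hw⟩ := hmix 1 (fun z => (lam z : ℂ)) (Complex.measurable_ofReal.comp hlm) (by
      filter_upwards [hlinv] with z hz _
      rw [hz, one_mul])
    refine ⟨w.re, ?_⟩
    filter_upwards [hw] with z hz h1
    rw [← hz h1, Complex.ofReal_re]
  · -- the measure
    have := prob_T2
    intro σ hσ0 hσ1 hvol
    obtain ⟨c, hc⟩ : ∃ c : ℝ, c = (1 - σ) * l - 1 := ⟨_, rfl⟩
    have hhalf : l / 2 ≤ (1 - σ) * l := by nlinarith
    set θ : ℝ := 1 - σ - e with hθ
    have hθ0 : 0 < θ := by rw [hθ]; linarith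
    have hθ1 : θ ≤ 1 := by rw [hθ]; linarith
    have hD : Data a b B c (c - 1) θ := by
      refine ⟨hB, by linarith, by linarith, hθ0.le, hθ1, hdir, ?_⟩
      refine hC a b (c - 1) θ hb0 hb1 hθ0.le ?_
      have h1 : θ * Real.log (LL a) ≤ θ * (l + 2) := mul_le_mul_of_nonneg_left g2 hθ0.le
      have h2 : θ * (l + 2) ≤ (1 - σ) * l - e * l + 2 := by rw [hθ]; nlinarith
      linarith
    have hmeas := measurableSet_om a c
    have hinv := om_inv hS' c
    have hP := om_PN (a := a) c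
    have hne : volume (om a c) ≠ 0 := by
      intro h0
      apply hvol
      have h1 : ∀ᵐ z, z ∉ om a c := by
        rw [ae_iff]; simpa using h0
      have h2 : ∀ᵐ z, ¬ ((1 - σ) * l ≤ lam z) := by
        filter_upwards [h1, hom c] with z h3 h4 h5
        exact h3 (h4.2 (by rw [hc]; linarith))
      rw [ae_iff] at h2
      simpa using h2
    have hbig := big hS' hD hθ0 hmeas hinv hP hne
    have hsub : volume.real (om a c) ≤ volume.real {z | 6 * Real.log l < lam z} := by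
      apply ENNReal.toReal_mono (measure_ne_top _ _)
      apply measure_mono_ae
      filter_upwards [hom c] with z h1 h2
      have h3 := h1.1 h2
      show 6 * Real.log l < lam z
      linarith
    refine le_trans ?_ hsub
    have hfin := num (t := 1 - σ) (e := e) (by linarith) (by linarith) he0.le he1
      (le_refl θ) hθ1 hB0 hBδ he2 measureReal_nonneg
      (measureReal_le_one (μ := (volume : Measure T2))) hbig
    have he : (1 - (1 - σ)) / (1 - σ) = σ / (1 - σ) := by ring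
    rw [he] at hfin
    exact hfin

end Pool.Agent.Helper18.UY
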