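import Pool.Agent.Helper18.UY.Defs

/-! Block UY-VEL: velocities and the complexified orbit.

* `wx_succ`, `wy_succ`: `M_succ` and matrix multiplication (`wy` at time `n+1` is `wx` at time `n`).
* `V_zero`: `M 0 = 1`, `wx = 1`, `wy = b`. `V_succ_le`: `|vv| ≤ 2π|a| + 2` (`vv_abs`), `LL = 2π|a| + 4`. `V_le_succ`: `|wy_n| = |vv wx_n - wx_(n+1)|`.
* `V_pos`: from `V_zero`-like lower bound: `V 0 > 0` and `V_le_succ` (`b` arbitrary: `V 0 = max 1 |b| > 0`).
* `V_le_nn`: `|b| ≤ 1`.
* continuity: `M_entry_cont`.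
* `V_rb`: `ln b (rb z).2 (rb z).1 = sh (rep z) 0 l` with `l = -⌊(rep z).2 - b (rep z).1⌋`, `M_sh`.
* `xc_diff`: induction (two steps at a time). `xc_real`: `(xc (n+1) s, xc n s)` is `F^[n] (ln b t s)`, induction with
  `Function.iterate_succ_apply'`. `deriv_xc_rec`: derivative of the recursion. `deriv_xc_real`: induction: `deriv (xc 1) = 1`,
  `deriv (xc 0) = b`, `wx_succ`, `wy_succ`, `deriv_xc_rec`, `xc_real` (`vv a x = 2 + 2 π a cos (2 π x)`, `Complex.ofReal_cos`). -/

set_option autoImplicit false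
open MeasureTheory Real Set

namespace Pool.Agent.Helper18.UY

open Pool.Agent.Helper18.UC

theorem wx_succ (a b : ℝ) (n : ℕ) (q : ℝ × ℝ) :
    wx a b (n + 1) q = vv a ((F a)^[n] q).1 * wx a b n q - wy a b n q := by
  unfold wx wy
  rw [M_succ]
  simp only [Matrix.mul_apply, Fin.sum_univ_two, A, Matrix.of_apply, Matrix.cons_val_zero,
    Matrix.cons_val_one, Matrix.cons_val']
  ring

theorem wy_succ (a b : ℝ) (n : ℕ) (q : ℝ × ℝ) : wy a b (n + 1) q = wx a b n q := by
  unfold wx wy
  rw [M_succ]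
  simp only [Matrix.mul_apply, Fin.sum_univ_two, A, Matrix.of_apply, Matrix.cons_val_zero,
    Matrix.cons_val_one, Matrix.cons_val']
  ring

private theorem wx_zero (a b : ℝ) (q : ℝ × ℝ) : wx a b 0 q = 1 := by
  unfold wx
  rw [M_zero]
  simp

private theorem wy_zero (a b : ℝ) (q : ℝ × ℝ) : wy a b 0 q = b := by
  unfold wy
  rw [M_zero]
  simp

theorem V_zero {a b : ℝ} (hb : 0 ≤ b) (hb1 : b ≤ 1) (q : ℝ × ℝ) : V a b 0 q = 1 := by
  rw [V, wx_zero, wy_zero, abs_one, abs_of_nonneg hb, max_eq_left hb1]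

theorem V_succ_le (a b : ℝ) (n : ℕ) (q : ℝ × ℝ) : V a b (n + 1) q ≤ LL a * V a b n q := by
  have h1 := vv_abs a ((F a)^[n] q).1
  have hx := wx_le a b n q
  have hy := wy_le a b n q
  have hV := V_nonneg a b n q
  have ha : 0 ≤ 2 * π * |a| := by positivity
  rw [V, wx_succ, wy_succ, LL]
  apply max_le
  · calc |vv a ((F a)^[n] q).1 * wx a b n q - wy a b n q|
        ≤ |vv a ((F a)^[n] q).1 * wx a b n q| + |wy a b n q| := abs_sub _ _
      _ ≤ (2 * π * |a| + 2) * V a b n q + V a b n q := by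
          rw [abs_mul]
          exact add_le_add (mul_le_mul h1 hx (abs_nonneg _) (by positivity)) hy
      _ ≤ (2 * π * |a| + 4) * V a b n q := by nlinarith
  · nlinarith

theorem V_le_succ (a b : ℝ) (n : ℕ) (q : ℝ × ℝ) : V a b n q ≤ LL a * V a b (n + 1) q := by
  have h1 := vv_abs a ((F a)^[n] q).1
  have hx := wx_le a b (n + 1) q
  have hy := wy_le a b (n + 1) q
  have hV := V_nonneg a b (n + 1) q
  have ha : 0 ≤ 2 * π * |a| := by positivity
  have e1 : wx a b n q = wy a b (n + 1) q := (wy_succ a b n q).symm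
  have e2 : wy a b n q = vv a ((F a)^[n] q).1 * wy a b (n + 1) q - wx a b (n + 1) q := by
    rw [wx_succ, wy_succ]
    ring
  rw [V, e1, e2, LL]
  apply max_le
  · nlinarith
  · calc |vv a ((F a)^[n] q).1 * wy a b (n + 1) q - wx a b (n + 1) q|
        ≤ |vv a ((F a)^[n] q).1 * wy a b (n + 1) q| + |wx a b (n + 1) q| := abs_sub _ _
      _ ≤ (2 * π * |a| + 2) * V a b (n + 1) q + V a b (n + 1) q := by
          rw [abs_mul]
          exact add_le_add (mul_le_mul h1 hy (abs_nonneg _) (by positivity)) hx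
      _ ≤ (2 * π * |a| + 4) * V a b (n + 1) q := by nlinarith

theorem V_pos (a b : ℝ) (n : ℕ) (q : ℝ × ℝ) : 0 < V a b n q := by
  induction n with
  | zero =>
    rw [V, wx_zero, abs_one]
    exact lt_of_lt_of_le zero_lt_one (le_max_left _ _)
  | succ n ih =>
    have h1 := V_le_succ a b n q
    have h2 := LL_pos a
    by_contra hcon
    push Not at hcon
    nlinarith

theorem V_le_nn {a b : ℝ} (hb : 0 ≤ b) (hb1 : b ≤ 1) (n : ℕ) (q : ℝ × ℝ) :
    V a b n q ≤ nn (M a n q) := by
  have key : ∀ x y : ℝ, |x + b * y| ≤ |x| + |y| := by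
    intro x y
    calc |x + b * y| ≤ |x| + |b * y| := abs_add_le _ _
      _ ≤ |x| + |y| := by
        rw [abs_mul, abs_of_nonneg hb]
        have := abs_nonneg y
        nlinarith
  unfold V wx wy nn
  have e : ∀ x : ℝ, 0 ≤ |x| := abs_nonneg
  apply max_le
  · have := key (M a n q 0 0) (M a n q 0 1)
    linarith [e (M a n q 1 0), e (M a n q 1 1)]
  · have := key (M a n q 1 0) (M a n q 1 1)
    linarith [e (M a n q 0 0), e (M a n q 0 1)]

theorem wx_cont (a b : ℝ) (n : ℕ) : Continuous (wx a b n) :=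
  (M_entry_cont a n 0 0).add ((M_entry_cont a n 0 1).const_mul b)

theorem wy_cont (a b : ℝ) (n : ℕ) : Continuous (wy a b n) :=
  (M_entry_cont a n 1 0).add ((M_entry_cont a n 1 1).const_mul b)

theorem V_cont (a b : ℝ) (n : ℕ) : Continuous (V a b n) :=
  (wx_cont a b n).abs.max (wy_cont a b n).abs

theorem V_rb (a b : ℝ) (n : ℕ) (z : T2) :
    V a b n (ln b (rb b z).2 (rb b z).1) = V a b n (rep z) := by
  have h1 : ln b (rb b z).2 (rb b z).1 =
      sh (rep z) 0 (-⌊(rep z).2 - b * (rep z).1⌋) := by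
    unfold ln rb sh
    apply Prod.ext
    · simp
    · simp only [Int.fract]
      push_cast
      ring
  unfold V wx wy
  rw [h1, M_sh]

theorem xc_diff (a b t : ℝ) (n : ℕ) : Differentiable ℂ (xc a b t n) := by
  have key : Differentiable ℂ (xc a b t n) ∧ Differentiable ℂ (xc a b t (n + 1)) := by
    induction n with
    | zero =>
      refine ⟨?_, ?_⟩
      · have : xc a b t 0 = fun z => (t : ℂ) + b * z := by rw [xc]
        rw [this]
        fun_prop
      · have : xc a b t (0 + 1) = fun z => z := by rw [zero_add, xc]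
        rw [this]
        fun_prop
    | succ n ih =>
      refine ⟨ih.2, ?_⟩
      have : xc a b t (n + 1 + 1) = fun z => 2 * xc a b t (n + 1) z +
          a * Complex.sin (2 * π * xc a b t (n + 1) z) - xc a b t n z := by rw [xc]
      rw [this]
      have h1 := ih.1
      have h2 := ih.2
      fun_prop
  exact key.1

theorem xc_real (a b t : ℝ) (n : ℕ) (s : ℝ) :
    xc a b t (n + 1) (s : ℂ) = (((F a)^[n] (ln b t s)).1 : ℂ) ∧
      xc a b t n (s : ℂ) = (((F a)^[n] (ln b t s)).2 : ℂ) := by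
  induction n with
  | zero =>
    refine ⟨?_, ?_⟩
    · rw [zero_add, xc]
      rfl
    · rw [xc, Function.iterate_zero, id, ln]
      push_cast
      rfl
  | succ n ih =>
    rw [Function.iterate_succ_apply']
    refine ⟨?_, ?_⟩
    · rw [show n + 1 + 1 = n + 2 from rfl, xc, F]
      simp only
      rw [ih.1, ih.2]
      push_cast
      ring
    · rw [ih.1, F]

theorem deriv_xc_rec (a b t : ℝ) (n : ℕ) (z : ℂ) :
    deriv (xc a b t (n + 2)) z =
      (2 + 2 * π * a * Complex.cos (2 * π * xc a b t (n + 1) z)) * deriv (xc a b t (n + 1)) z -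
        deriv (xc a b t n) z := by
  have h1 := ((xc_diff a b t (n + 1)) z).hasDerivAt
  have h2 := ((xc_diff a b t n) z).hasDerivAt
  have h3 : HasDerivAt (xc a b t (n + 2)) (2 * deriv (xc a b t (n + 1)) z +
      a * (Complex.cos (2 * π * xc a b t (n + 1) z) * (2 * π * deriv (xc a b t (n + 1)) z)) -
        deriv (xc a b t n) z) z := by
    have : xc a b t (n + 2) = fun z => 2 * xc a b t (n + 1) z +
        a * Complex.sin (2 * π * xc a b t (n + 1) z) - xc a b t n z := by rw [xc]
    rw [this]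
    exact ((h1.const_mul 2).add (((h1.const_mul (2 * π : ℂ)).csin).const_mul (a : ℂ))).sub h2
  rw [h3.deriv]
  ring

theorem deriv_xc_real (a b t : ℝ) (n : ℕ) (s : ℝ) :
    deriv (xc a b t (n + 1)) (s : ℂ) = (wx a b n (ln b t s) : ℂ) ∧
      deriv (xc a b t n) (s : ℂ) = (wy a b n (ln b t s) : ℂ) := by
  induction n with
  | zero =>
    refine ⟨?_, ?_⟩
    · have : xc a b t (0 + 1) = fun z => z := by rw [zero_add, xc]
      rw [this, wx_zero]
      simp
    · have : xc a b t 0 = fun z => (t : ℂ) + b * z := by rw [xc]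
      rw [this, wy_zero]
      have h1 : HasDerivAt (fun z : ℂ => (t : ℂ) + b * z) ((b : ℂ) * 1) (s : ℂ) :=
        ((hasDerivAt_id (s : ℂ)).const_mul (b : ℂ)).const_add (t : ℂ)
      rw [h1.deriv, mul_one]
  | succ n ih =>
    refine ⟨?_, ?_⟩
    · rw [show n + 1 + 1 = n + 2 from rfl, deriv_xc_rec, ih.1, ih.2, (xc_real a b t n s).1, wx_succ,
        vv]
      push_cast
      ring
    · rw [ih.1, wy_succ]

end Pool.Agent.Helper18.UY
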