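import Pool.Agent.Helper18.UY.Strips
import Pool.Agent.Helper18.UC.Strips

/-! UY: the two families (forward and backward). -/

set_option autoImplicit false
open MeasureTheory Real Set Filter

namespace Pool.Agent.Helper18.UY

open Pool.Agent.Helper18.UC

variable {a : ℝ} {S : T2 → T2}

theorem tendsto_PV {b c c' : ℝ} (hcc : c' < c) {E : Set T2}
    (hT : Tendsto (fun N => volume (E \ PN a c N)) atTop (nhds 0))
    (hb : Tendsto (fun N : ℕ => volume {z : T2 | V a b N (rep z) * (N + 1) ^ 2 < nn (M a N (rep z))})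
      atTop (nhds 0)) :
    Tendsto (fun N => volume (E \ PV a b c' N)) atTop (nhds 0) := by
  have hev : ∀ᶠ N : ℕ in atTop, ((N : ℝ) + 1) ^ 2 ≤ Real.exp ((c - c') * N) := by
    have h1 := tendsto_pow_const_div_const_pow_of_one_lt 2
      (show 1 < Real.exp (c - c') from Real.one_lt_exp_iff.2 (by linarith))
    filter_upwards [h1.eventually_lt_const (by norm_num : (0:ℝ) < 1 / 4), eventually_ge_atTop 1]
      with N hN hN1
    have h2 : (1:ℝ) ≤ N := by exact_mod_cast hN1
    rw [div_lt_iff₀ (by positivity)] at hN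
    have h3 : Real.exp ((c - c') * N) = Real.exp (c - c') ^ N := by
      rw [← Real.exp_nat_mul]; ring_nf
    rw [h3]
    nlinarith
  have hsum := hT.add hb
  rw [add_zero] at hsum
  refine tendsto_of_tendsto_of_tendsto_of_le_of_le' tendsto_const_nhds hsum
    (Eventually.of_forall fun N => zero_le) ?_
  filter_upwards [hev] with N hN
  refine (measure_mono ?_).trans (measure_union_le _ _)
  intro z hz
  by_cases h1 : z ∈ PN a c N
  · refine Or.inr ?_
    have h2 : ¬ (Real.exp (c' * N) ≤ V a b N (rep z)) := hz.2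
    rw [not_le] at h2
    have h3 : Real.exp (c * N) ≤ nn (M a N (rep z)) := h1
    show V a b N (rep z) * (N + 1) ^ 2 < nn (M a N (rep z))
    calc V a b N (rep z) * (N + 1) ^ 2 < Real.exp (c' * N) * (N + 1) ^ 2 :=
          mul_lt_mul_of_pos_right h2 (by positivity)
      _ ≤ Real.exp (c' * N) * Real.exp ((c - c') * N) :=
          mul_le_mul_of_nonneg_left hN (Real.exp_pos _).le
      _ = Real.exp (c * N) := by rw [← Real.exp_add]; ring_nf
      _ ≤ _ := h3
  · exact Or.inl ⟨hz.1, h1⟩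

theorem tendsto_FQ {b B c θ : ℝ} {E : Set T2}
    (hT : Tendsto (fun N => volume (E \ PV a b c N)) atTop (nhds 0))
    (hb : Tendsto (fun N : ℕ => volume (PV a b c N \ FQ a b B θ N)) atTop (nhds 0)) :
    Tendsto (fun N => volume (E \ FQ a b B θ N)) atTop (nhds 0) := by
  have hsum := hT.add hb
  rw [add_zero] at hsum
  refine tendsto_of_tendsto_of_tendsto_of_le_of_le tendsto_const_nhds hsum
    (fun N => zero_le) (fun N => ?_)
  refine (measure_mono ?_).trans (measure_union_le _ _)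
  intro z hz
  by_cases h1 : z ∈ PV a b c N
  · exact Or.inr ⟨h1, hz.2⟩
  · exact Or.inl ⟨hz.1, h1⟩

/-- the data needed for the families -/
structure Data (a b B c c' θ : ℝ) : Prop where
  hB : 100 ≤ B
  hc : 0 < c'
  hcc : c' < c
  hθ : 0 ≤ θ
  hθ1 : θ ≤ 1
  dir : Tendsto (fun N : ℕ => volume {z : T2 | V a b N (rep z) * (N + 1) ^ 2 < nn (M a N (rep z))})
      atTop (nhds 0)
  bad : Tendsto (fun N : ℕ => volume (PV a b c' N \ FQ a b B θ N)) atTop (nhds 0)

theorem famY_fwd {b B c c' θ : ℝ} (hd : Data a b B c c' θ) {Ω : Set T2} (hΩ : MeasurableSet Ω)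
    (hP : ∀ z ∈ Ω, ∀ᶠ N : ℕ in atTop, z ∈ PN a c N) {E : Set T2} (hE : MeasurableSet E)
    (hEΩ : E ⊆ Ω) {η ε : ℝ} (hη : 0 < η) (hε : 0 < ε) (n1 : ℕ) :
    ∃ (n : ℕ) (𝒬 : Set (Set T2)), n1 ≤ n ∧ FamL a b B n E η 𝒬 ∧
      θ * volume.real E - ε ≤ volume.real (⋃₀ 𝒬) := by
  have h1 : Tendsto (fun N => volume (E \ PN a c N)) atTop (nhds 0) := by
    refine tendsto_of_tendsto_of_tendsto_of_le_of_le tendsto_const_nhds (tendsto_diff_PN hΩ hP)
      (fun N => zero_le) (fun N => ?_)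
    exact measure_mono (Set.sdiff_subset_sdiff_left hEΩ)
  have h2 := tendsto_PV hd.hcc h1 hd.dir
  exact coreY hd.hB hd.hc hd.hθ hd.hθ1 hE h2 (tendsto_FQ h2 hd.bad) hη hε n1

theorem famY_bwd (hS : IsS a S) {b B c c' θ : ℝ} (hd : Data a b B c c' θ) {Ω : Set T2}
    (hΩ : MeasurableSet Ω) (hinv : S ⁻¹' Ω = Ω) (hP : ∀ z ∈ Ω, ∀ᶠ N : ℕ in atTop, z ∈ PN a c N)
    {E : Set T2} (hE : MeasurableSet E) (hEΩ : E ⊆ Ω) {η ε : ℝ} (hη : 0 < η) (hε : 0 < ε) (n1 : ℕ) :
    ∃ (n : ℕ) (𝒬 : Set (Set T2)), n1 ≤ n ∧ FamL a b B n (Prod.swap ⁻¹' E) η 𝒬 ∧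
      θ * volume.real E - ε ≤ volume.real (⋃₀ 𝒬) := by
  have hsw : MeasurePreserving (Prod.swap : T2 → T2) volume volume :=
    Measure.measurePreserving_swap
  have hEm : MeasurableSet (Prod.swap ⁻¹' E) := measurable_swap hE
  have hvol : volume.real (Prod.swap ⁻¹' E) = volume.real E := by
    rw [measureReal_def, measureReal_def, hsw.measure_preimage hE.nullMeasurableSet]
  have hit : ∀ N : ℕ, S^[N] ⁻¹' Ω = Ω := by
    intro N
    induction N with
    | zero => rfl
    | succ N ih => rw [Function.iterate_succ', Set.preimage_comp, hinv, ih]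
  have key : Tendsto (fun N => volume ((Prod.swap ⁻¹' E) \ PN a c N)) atTop (nhds 0) := by
    refine tendsto_of_tendsto_of_tendsto_of_le_of_le tendsto_const_nhds (tendsto_diff_PN hΩ hP)
      (fun N => zero_le) (fun N => ?_)
    have hΘ : MeasurePreserving (fun z : T2 => Prod.swap (S^[N] z)) volume volume :=
      hsw.comp ((S_mp hS).iterate N)
    have h1 : volume ((fun z : T2 => Prod.swap (S^[N] z)) ⁻¹' (Ω \ PN a c N)) =
        volume (Ω \ PN a c N) :=
      hΘ.measure_preimage (hΩ.diff (measurableSet_PN a c N)).nullMeasurableSet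
    rw [← h1]
    refine measure_mono ?_
    intro z hz
    refine ⟨?_, ?_⟩
    · show Prod.swap (S^[N] z) ∈ Ω
      rw [← hit N]
      show S^[N] (Prod.swap (S^[N] z)) ∈ Ω
      rw [S_rev hS]
      exact hEΩ hz.1
    · intro h2
      apply hz.2
      have h3 : Real.exp (c * N) ≤ nn (M a N (rep (Prod.swap (S^[N] z)))) := h2
      rw [nn_rep_rev hS] at h3
      exact h3
  have h2 := tendsto_PV hd.hcc key hd.dir
  have := coreY hd.hB hd.hc hd.hθ hd.hθ1 hEm h2 (tendsto_FQ h2 hd.bad) hη hε n1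
  rwa [hvol] at this

end Pool.Agent.Helper18.UY
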