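import Pool.Agent.Helper18.UY.Entry

/-! Block UY-UP: upper bound for the measure of the hits (`j = 0`). (Adapt `Helper18/UC/MeasUp.lean`; differences below.)

`N = n + n'`. Fix `t ∈ T`, `m = wx a b n (ln b t α)`, `A v = {σ ∈ I | lc b (sh (swap (F^[N] (ln b t σ))) v.1 v.2) ∈ I' ×ˢ T'}`, `g v σ` the
second component, `m' t' = wx a b n' (ln b t' α')` (continuous in `t'`, `wx_cont`), `κ = (1 - 3/B)² - (3/B)²`.
(1) Derivative: `entryL` (`m = n`), `ln_lc`, `GoodL`: `|g v' σ| ≥ |m| |m' (g v σ)| κ` on `A v`.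
(2) Pairs: if `σ1 ∈ A v1`, `σ2 ∈ A v2` have the same label `t' = g v1 σ1 = g v2 σ2`, `q''_i = ln b t' σ'_i`: by `relL`
`F^[n'] q''_i = sh (swap (F^[n] (ln b t σ_i))) ..`; with `goodl_curve` on both lines: `dX' = dY + integer`, `dY' = dX + integer`,
`|dX - m dσ| ≤ (3/B)|m||dσ|`, `|dY| ≤ (3/B)|m||dσ|` and the same for the primed ones. `v1 = v2` gives `dσ = 0` (injectivity of `g v`
on `A v`). In general the integer vectors `v_i + n' (v_i.1 - v_i.2) (1,1)` (an injective function of `v_i`) differ by at most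
`(1 + 3/B) |m'| h' + 6` and `(1 + 3/B) |m| h + 6` in the two coordinates (`(3/B) |m| h ≤ 6`), so for every finite set of `v`
at most `c(t') = ((1 + 3/B) |m' t'| h' + 7) ((1 + 3/B) |m| h + 7)` of the sets `g v '' A v` contain `t'` (`card_box` there).
(3) Weights: with `ω(t') = ofReal (1/|m' t'|)` (measurable, `|m' t'| > 0` on `T'`): by (1) and
`lintegral_image_eq_lintegral_abs_deriv_mul` (with `g := ω`): `ofReal (|m| κ) vol (A v) ≤ ∫_{A v} |g v'| ω(g v σ) = ∫_{g v '' A v} ω`. Sum over a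
finite set of `v`: `ofReal (|m| κ) ∑ vol (A v) ≤ ∫_{T'} c(t') ω(t') dt' ≤ ((1 + 3/B)|m| h + 7) h' (1 + 24/B) vol T'`, because
`|m'| h' ≥ B/3`, so `7 ≤ (21/B) |m'| h'`. Also `7 ≤ (21/B)|m| h`. So `vol (A) ≤ h h' (1 + 24/B)²/κ vol T' ≤ (1 + 100/B) h h' vol T'`
(`x = 1/B ≤ 1/100`: `(1 + 24x)² ≤ (1 - 6x)(1 + 100x)`), for every `t ∈ T`. (4) Fubini in `t`. -/

set_option autoImplicit false
open MeasureTheory Real Set

namespace Pool.Agent.Helper18.UY

open Pool.Agent.Helper18.UC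

private theorem card_diamL (S : Finset ℤ) {L : ℝ} (hL : 0 ≤ L)
    (h : ∀ p ∈ S, ∀ q ∈ S, |((p : ℝ) - q)| ≤ L) : (S.card : ℝ) ≤ L + 1 := by
  rcases S.eq_empty_or_nonempty with rfl | hS
  · simp; linarith
  have hsub : S ⊆ Finset.Icc (S.min' hS) (S.max' hS) :=
    fun x hx => Finset.mem_Icc.2 ⟨S.min'_le x hx, S.le_max' x hx⟩
  have h1 := Finset.card_le_card hsub
  rw [Int.card_Icc] at h1
  have h2 := h _ (S.max'_mem hS) _ (S.min'_mem hS)
  have h3 : S.min' hS ≤ S.max' hS := S.min'_le _ (S.max'_mem hS)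
  have h4 : (((S.max' hS + 1 - S.min' hS).toNat : ℤ)) = S.max' hS + 1 - S.min' hS :=
    Int.toNat_of_nonneg (by omega)
  have h5 : (((S.max' hS + 1 - S.min' hS).toNat : ℕ) : ℝ) =
      (S.max' hS : ℝ) + 1 - (S.min' hS : ℝ) := by
    have := congrArg (fun z : ℤ => (z : ℝ)) h4
    push_cast at this
    exact this
  have h6 : (S.card : ℝ) ≤ (((S.max' hS + 1 - S.min' hS).toNat : ℕ) : ℝ) := by exact_mod_cast h1
  rw [h5] at h6
  have h7 := (abs_le.1 h2).2
  linarith

/-- integer vectors in a small box -/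
private theorem card_boxL (T : Finset (ℤ × ℤ)) {L1 L2 : ℝ} (hL1 : 0 ≤ L1) (hL2 : 0 ≤ L2)
    (h : ∀ p ∈ T, ∀ q ∈ T, |((p.1 : ℝ) - q.1)| ≤ L1 ∧ |((p.2 : ℝ) - q.2)| ≤ L2) :
    (T.card : ℝ) ≤ (L1 + 1) * (L2 + 1) := by
  classical
  have h1 : ((T.image Prod.fst).card : ℝ) ≤ L1 + 1 := by
    apply card_diamL _ hL1
    intro p hp q hq
    obtain ⟨p', hp', rfl⟩ := Finset.mem_image.1 hp
    obtain ⟨q', hq', rfl⟩ := Finset.mem_image.1 hq
    exact (h p' hp' q' hq').1
  have h2 : ((T.image Prod.snd).card : ℝ) ≤ L2 + 1 := by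
    apply card_diamL _ hL2
    intro p hp q hq
    obtain ⟨p', hp', rfl⟩ := Finset.mem_image.1 hp
    obtain ⟨q', hq', rfl⟩ := Finset.mem_image.1 hq
    exact (h p' hp' q' hq').2
  have h3 : T ⊆ (T.image Prod.fst) ×ˢ (T.image Prod.snd) := by
    intro p hp
    exact Finset.mem_product.2 ⟨Finset.mem_image_of_mem _ hp, Finset.mem_image_of_mem _ hp⟩
  have h4 := Finset.card_le_card h3
  rw [Finset.card_product] at h4
  calc (T.card : ℝ) ≤ ((T.image Prod.fst).card : ℝ) * ((T.image Prod.snd).card : ℝ) := by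
        exact_mod_cast h4
    _ ≤ (L1 + 1) * (L2 + 1) := mul_le_mul h1 h2 (by positivity) (by linarith)

private theorem ln_contL (b t : ℝ) : Continuous (fun s : ℝ => ln b t s) := by
  unfold ln
  fun_prop

private theorem ret_contL (a b : ℝ) (N : ℕ) (t : ℝ) (v : ℤ × ℤ) :
    Continuous (fun σ : ℝ => lc b (sh (Prod.swap ((F a)^[N] (ln b t σ))) v.1 v.2)) := by
  have h : Continuous (F a)^[N] := (F_cont a).iterate N
  have h1 : Continuous (fun σ : ℝ => (F a)^[N] (ln b t σ)) := h.comp (ln_contL b t)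
  unfold lc sh
  simp only [Prod.fst_swap, Prod.snd_swap]
  exact (h1.snd.add continuous_const).prodMk
    ((h1.fst.add continuous_const).sub (continuous_const.mul (h1.snd.add continuous_const)))

/-- the set `A v` of the file header -/
private def setA (a b : ℝ) (N : ℕ) (t : ℝ) (I I' T' : Set ℝ) (v : ℤ × ℤ) : Set ℝ :=
  {σ | σ ∈ I ∧ lc b (sh (Prod.swap ((F a)^[N] (ln b t σ))) v.1 v.2) ∈ I' ×ˢ T'}

/-- the label function `g` of the file header -/
private noncomputable def labG (a b : ℝ) (N : ℕ) (t : ℝ) (v : ℤ × ℤ) (σ : ℝ) : ℝ :=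
  (lc b (sh (Prod.swap ((F a)^[N] (ln b t σ))) v.1 v.2)).2

private theorem meas_setA (a b : ℝ) (N : ℕ) (t : ℝ) {I I' T' : Set ℝ} (hI : MeasurableSet I)
    (hI' : MeasurableSet I') (hT' : MeasurableSet T') (v : ℤ × ℤ) :
    MeasurableSet (setA a b N t I I' T' v) :=
  hI.inter ((ret_contL a b N t v).measurable (hI'.prod hT'))

/-- comparison of two returns with the same label -/
private theorem pairL {a b B : ℝ} (hB : 100 ≤ B) {n n' : ℕ} {t α h α' h' : ℝ} {T' : Set ℝ}
    (hG : GoodL a b B n t α h) (hG' : ∀ t ∈ T', GoodL a b B n' t α' h')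
    {σ1 σ2 : ℝ} {v1 v2 : ℤ × ℤ}
    (h1 : σ1 ∈ setA a b (n + n') t (Ico α (α + h)) (Ico α' (α' + h')) T' v1)
    (h2 : σ2 ∈ setA a b (n + n') t (Ico α (α + h)) (Ico α' (α' + h')) T' v2)
    (hg : labG a b (n + n') t v1 σ1 = labG a b (n + n') t v2 σ2) :
    ∃ dX dY dX' dY' dσ' : ℝ,
      |dX - wx a b n (ln b t α) * (σ1 - σ2)| ≤ (3 / B) * |wx a b n (ln b t α)| * |σ1 - σ2| ∧
      |dY| ≤ (3 / B) * |wx a b n (ln b t α)| * |σ1 - σ2| ∧
      |dX' - wx a b n' (ln b (labG a b (n + n') t v1 σ1) α') * dσ'| ≤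
        (3 / B) * |wx a b n' (ln b (labG a b (n + n') t v1 σ1) α')| * |dσ'| ∧
      |dY'| ≤ (3 / B) * |wx a b n' (ln b (labG a b (n + n') t v1 σ1) α')| * |dσ'| ∧
      |dσ'| ≤ h' ∧
      dX' = dY + (((v1.1 + n' * (v1.1 - v1.2) : ℤ) : ℝ) - ((v2.1 + n' * (v2.1 - v2.2) : ℤ) : ℝ)) ∧
      dY' = dX + (((v1.2 + n' * (v1.1 - v1.2) : ℤ) : ℝ) - ((v2.2 + n' * (v2.1 - v2.2) : ℤ) : ℝ)) := by
  obtain ⟨h1a, h1b⟩ := h1
  obtain ⟨h2a, h2b⟩ := h2
  have hc := goodl_curve hB hG (Ico_subset_Icc_self h1a) (Ico_subset_Icc_self h2a)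
  set q1 := sh (Prod.swap ((F a)^[n + n'] (ln b t σ1))) v1.1 v1.2 with hq1
  set q2 := sh (Prod.swap ((F a)^[n + n'] (ln b t σ2))) v2.1 v2.2 with hq2
  have hlab : (lc b q1).2 = (lc b q2).2 := hg
  have e1 : ln b (lc b q1).2 (lc b q1).1 = q1 := ln_lc b q1
  have e2 : ln b (lc b q1).2 (lc b q2).1 = q2 := by rw [hlab]; exact ln_lc b q2
  have hc' := goodl_curve hB (hG' _ h1b.2) (Ico_subset_Icc_self h1b.1)
    (Ico_subset_Icc_self h2b.1)
  rw [e1, e2] at hc'
  have r1 := relL a n n' (ln b t σ1) v1.1 v1.2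
  have r2 := relL a n n' (ln b t σ2) v2.1 v2.2
  rw [← hq1] at r1
  rw [← hq2] at r2
  refine ⟨_, _, _, _, (lc b q1).1 - (lc b q2).1, hc.1, hc.2, hc'.1, hc'.2, ?_, ?_, ?_⟩
  · have i1 := h1b.1
    have i2 := h2b.1
    rw [abs_le]
    constructor <;> linarith [i1.1, i1.2, i2.1, i2.2]
  · rw [r1, r2]
    simp only [sh, Prod.fst_swap]
    push_cast
    ring
  · rw [r1, r2]
    simp only [sh, Prod.snd_swap]
    push_cast
    ring

private theorem numL {B : ℝ} (hB : 100 ≤ B) :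
    (1 + 24 / B) ^ 2 ≤ ((1 - 3 / B) ^ 2 - (3 / B) ^ 2) * (1 + 100 / B) := by
  have hBp : 0 < B := by linarith
  set x : ℝ := 1 / B with hx
  have hx0 : 0 < x := by positivity
  have hx1 : x ≤ 1 / 100 := one_div_le_one_div_of_le (by norm_num) hB
  have e1 : 24 / B = 24 * x := by rw [hx]; ring
  have e2 : 3 / B = 3 * x := by rw [hx]; ring
  have e3 : 100 / B = 100 * x := by rw [hx]; ring
  rw [e1, e2, e3]
  nlinarith

private theorem line_boundL {a b B : ℝ} (hB : 100 ≤ B) {n n' : ℕ} {t α h α' h' : ℝ} {T' : Set ℝ}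
    (hh : 0 < h) (hh' : 0 < h') (hT' : MeasurableSet T')
    (hG : GoodL a b B n t α h) (hG' : ∀ t ∈ T', GoodL a b B n' t α' h') :
    volume (⋃ v : ℤ × ℤ, setA a b (n + n') t (Ico α (α + h)) (Ico α' (α' + h')) T' v) ≤
      ENNReal.ofReal ((1 + 100 / B) * (h * h')) * volume T' := by
  classical
  have hBp : 0 < B := by linarith
  set m : ℝ := wx a b n (ln b t α) with hm
  set m' : ℝ → ℝ := fun t' => wx a b n' (ln b t' α') with hm'
  obtain ⟨_, hm1, hm2, hm3⟩ := id hG
  rw [← hm] at hm1 hm2 hm3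
  have hG'' : ∀ t' ∈ T', B / 3 ≤ |m' t'| * h' ∧ |m' t'| * h' ≤ 2 * B ∧
      ∀ u ∈ Icc α' (α' + h'),
        |wx a b n' (ln b t' u) - m' t'| ≤ 3 / B * |m' t'| ∧
        |wy a b n' (ln b t' u)| ≤ 3 / B * |m' t'| := fun t' ht' => (hG' t' ht').2
  have hm0 : 0 < |m| := by
    have : 0 < |m| * h := lt_of_lt_of_le (by positivity) hm1
    exact (pos_iff_pos_of_mul_pos this).2 hh
  have hm0' : ∀ t' ∈ T', 0 < |m' t'| := by
    intro t' ht'
    have : 0 < |m' t'| * h' := lt_of_lt_of_le (by positivity) (hG'' t' ht').1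
    exact (pos_iff_pos_of_mul_pos this).2 hh'
  have h3B : 3 / B ≤ 3 / 100 := div_le_div_of_nonneg_left (by norm_num) (by norm_num) hB
  have h3B0 : 0 < 3 / B := by positivity
  set κ : ℝ := (1 - 3 / B) ^ 2 - (3 / B) ^ 2 with hκ
  have hκ0 : 0 < κ := by
    have h1 : (97 / 100 : ℝ) ≤ 1 - 3 / B := by linarith
    nlinarith
  set A : ℤ × ℤ → Set ℝ := setA a b (n + n') t (Ico α (α + h)) (Ico α' (α' + h')) T' with hA
  set G : ℤ × ℤ → ℝ → ℝ := labG a b (n + n') t with hGdef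
  have hAm : ∀ v, MeasurableSet (A v) := meas_setA a b (n + n') t measurableSet_Ico
    measurableSet_Ico hT'
  have hGT : ∀ v, ∀ σ ∈ A v, G v σ ∈ T' := fun v σ hσ => hσ.2.2
  have hlow : ∀ (x dx y : ℝ), |x - y * dx| ≤ (3 / B) * |y| * |dx| →
      (1 - 3 / B) * (|y| * |dx|) ≤ |x| ∧ |x| ≤ (1 + 3 / B) * (|y| * |dx|) := by
    intro x dx y h
    have h2 : |y * dx| = |y| * |dx| := abs_mul _ _
    have h3 := abs_sub_abs_le_abs_sub (y * dx) x
    have h4 := abs_sub_abs_le_abs_sub x (y * dx)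
    rw [abs_sub_comm] at h3
    rw [h2] at h3 h4
    constructor <;> linarith
  have hinj : ∀ v, InjOn (G v) (A v) := by
    intro v σ1 h1 σ2 h2 hg
    obtain ⟨dX, dY, dX', dY', dσ', i1, i2, i3, i4, i5, i6, i7⟩ := pairL hB hG hG' h1 h2 hg
    rw [sub_self, add_zero] at i6 i7
    rw [← hm] at i1 i2
    have j1 := (hlow _ _ _ i1).1
    have j3 := (hlow _ _ _ i3).1
    rw [i6] at j3
    rw [← i7] at j1
    set M' := |wx a b n' (ln b (labG a b (n + n') t v σ1) α')|
    have k1 : 0 ≤ |m| * |σ1 - σ2| := by positivity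
    have k2 : 0 ≤ M' * |dσ'| := by positivity
    by_contra hne
    have hpos : 0 < |m| * |σ1 - σ2| := mul_pos hm0 (abs_pos.2 (sub_ne_zero.2 hne))
    have l1 : (97 / 100) * (|m| * |σ1 - σ2|) ≤ (3 / 100) * (M' * |dσ'|) := by
      calc (97 / 100) * (|m| * |σ1 - σ2|) ≤ (1 - 3 / B) * (|m| * |σ1 - σ2|) :=
            mul_le_mul_of_nonneg_right (by linarith) k1
        _ ≤ |dY'| := j1
        _ ≤ 3 / B * (M' * |dσ'|) := by rw [← mul_assoc]; exact i4
        _ ≤ _ := mul_le_mul_of_nonneg_right h3B k2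
    have l2 : (97 / 100) * (M' * |dσ'|) ≤ (3 / 100) * (|m| * |σ1 - σ2|) := by
      calc (97 / 100) * (M' * |dσ'|) ≤ (1 - 3 / B) * (M' * |dσ'|) :=
            mul_le_mul_of_nonneg_right (by linarith) k2
        _ ≤ |dY| := j3
        _ ≤ 3 / B * (|m| * |σ1 - σ2|) := by rw [← mul_assoc]; exact i2
        _ ≤ _ := mul_le_mul_of_nonneg_right h3B k1
    linarith
  -- the derivative
  set D : ℝ → ℝ := fun σ => wx a b (n + n') (ln b t σ) - b * wy a b (n + n') (ln b t σ) with hD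
  have hderiv : ∀ v σ, HasDerivAt (G v) (D σ) σ := fun v σ =>
    deriv_label a b (n + n') t σ v.1 v.2
  have hder : ∀ v, ∀ σ ∈ A v, κ * |m| * |m' (G v σ)| ≤ |D σ| := by
    intro v σ hσ
    obtain ⟨h1, h2⟩ := id hσ
    rw [hD]
    simp only
    rw [entryL a b n n' (ln b t σ) v.1 v.2]
    set q'' := sh (Prod.swap ((F a)^[n + n'] (ln b t σ))) v.1 v.2 with hq''
    have e1 : ln b (lc b q'').2 (lc b q'').1 = q'' := ln_lc b q''
    have g1 := hm3 σ (Ico_subset_Icc_self h1)
    have g2 := (hG'' _ h2.2).2.2 _ (Ico_subset_Icc_self h2.1)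
    rw [e1] at g2
    have hGq : G v σ = (lc b q'').2 := rfl
    rw [← hGq] at g2
    set x1 := wx a b n (ln b t σ)
    set y1 := wy a b n (ln b t σ)
    set x2 := wx a b n' q''
    set y2 := wy a b n' q''
    have a1 : (1 - 3 / B) * |m| ≤ |x1| := by
      have h3 := abs_sub_abs_le_abs_sub m x1
      rw [abs_sub_comm] at h3
      linarith [g1.1]
    have a2 : (1 - 3 / B) * |m' (G v σ)| ≤ |x2| := by
      have h3 := abs_sub_abs_le_abs_sub (m' (G v σ)) x2
      rw [abs_sub_comm] at h3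
      linarith [g2.1]
    have h5 := abs_sub_abs_le_abs_sub (x2 * x1) (y2 * y1)
    rw [abs_mul, abs_mul] at h5
    have b1 : ((1 - 3 / B) * |m' (G v σ)|) * ((1 - 3 / B) * |m|) ≤ |x2| * |x1| :=
      mul_le_mul a2 a1 (mul_nonneg (by linarith) hm0.le) (abs_nonneg _)
    have b2 : |y2| * |y1| ≤ ((3 / B) * |m' (G v σ)|) * ((3 / B) * |m|) :=
      mul_le_mul g2.2 g1.2 (abs_nonneg _) (by positivity)
    have b3 : κ * |m| * |m' (G v σ)| = ((1 - 3 / B) * |m' (G v σ)|) * ((1 - 3 / B) * |m|) -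
        ((3 / B) * |m' (G v σ)|) * ((3 / B) * |m|) := by
      rw [hκ]; ring
    rw [b3]
    linarith
  -- the weight
  set ω : ℝ → ENNReal := fun t' => ENNReal.ofReal (1 / |m' t'|) with hω
  have hm'c : Continuous m' := by
    have h1 : Continuous (fun t' : ℝ => ln b t' α') := by
      unfold ln
      fun_prop
    exact (wx_cont a b n').comp h1
  have hωm : Measurable ω :=
    (measurable_const.div (hm'c.abs.measurable)).ennreal_ofReal
  have hvol : ∀ v, ENNReal.ofReal (κ * |m|) * volume (A v) ≤ ∫⁻ x in G v '' A v, ω x := by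
    intro v
    rw [lintegral_image_eq_lintegral_abs_deriv_mul (hAm v)
      (fun σ _ => (hderiv v σ).hasDerivWithinAt) (hinj v) ω, ← setLIntegral_const]
    apply setLIntegral_mono' (hAm v)
    intro σ hσ
    have hp := hm0' _ (hGT v σ hσ)
    rw [hω]
    simp only
    rw [← ENNReal.ofReal_mul (abs_nonneg _)]
    apply ENNReal.ofReal_le_ofReal
    rw [mul_one_div, le_div_iff₀ hp]
    exact hder v σ hσ
  have himg : ∀ v, MeasurableSet (G v '' A v) := fun v =>
    (hAm v).image_of_continuousOn_injOn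
      (fun σ _ => (hderiv v σ).continuousAt.continuousWithinAt) (hinj v)
  -- counting
  have hcount : ∀ (S : Finset (ℤ × ℤ)), ∀ t' ∈ T',
      (((S.filter (fun v => t' ∈ G v '' A v)).card : ℕ) : ℝ) ≤
        ((1 + 3 / B) * (|m' t'| * h') + 7) * ((1 + 3 / B) * (|m| * h) + 7) := by
    intro S t' ht'
    set φ : ℤ × ℤ → ℤ × ℤ := fun v => (v.1 + n' * (v.1 - v.2), v.2 + n' * (v.1 - v.2)) with hφ
    have hφinj : Function.Injective φ := by
      intro v1 v2 h
      have e1 : v1.1 + n' * (v1.1 - v1.2) = v2.1 + n' * (v2.1 - v2.2) := congrArg Prod.fst h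
      have e2 : v1.2 + n' * (v1.1 - v1.2) = v2.2 + n' * (v2.1 - v2.2) := congrArg Prod.snd h
      have e3 : v1.1 - v1.2 = v2.1 - v2.2 := by linarith
      rw [e3] at e1 e2
      exact Prod.ext (by linarith) (by linarith)
    rw [← Finset.card_image_of_injective _ hφinj]
    have hbox := card_boxL ((S.filter (fun v => t' ∈ G v '' A v)).image φ)
      (L1 := (1 + 3 / B) * (|m' t'| * h') + 6) (L2 := (1 + 3 / B) * (|m| * h) + 6)
      (by positivity) (by positivity) ?_
    · calc _ ≤ _ := hbox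
        _ = _ := by ring
    intro P hP Q hQ
    obtain ⟨v1, hv1, rfl⟩ := Finset.mem_image.1 hP
    obtain ⟨v2, hv2, rfl⟩ := Finset.mem_image.1 hQ
    obtain ⟨σ1, hσ1, e1⟩ := (Finset.mem_filter.1 hv1).2
    obtain ⟨σ2, hσ2, e2⟩ := (Finset.mem_filter.1 hv2).2
    obtain ⟨dX, dY, dX', dY', dσ', i1, i2, i3, i4, i5, i6, i7⟩ :=
      pairL hB hG hG' hσ1 hσ2 (e1.trans e2.symm)
    rw [← hm] at i1 i2
    have e1' : labG a b (n + n') t v1 σ1 = t' := e1
    rw [e1'] at i3 i4
    change |dX' - m' t' * dσ'| ≤ 3 / B * |m' t'| * |dσ'| at i3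
    change |dY'| ≤ 3 / B * |m' t'| * |dσ'| at i4
    have j1 := (hlow _ _ _ i1).2
    have j3 := (hlow _ _ _ i3).2
    have hdσ : |σ1 - σ2| ≤ h := by
      have a1 := hσ1.1
      have a2 := hσ2.1
      rw [abs_le]
      constructor <;> linarith [a1.1, a1.2, a2.1, a2.2]
    have k1 : |m| * |σ1 - σ2| ≤ |m| * h := mul_le_mul_of_nonneg_left hdσ hm0.le
    have k2 : |m' t'| * |dσ'| ≤ |m' t'| * h' :=
      mul_le_mul_of_nonneg_left i5 (hm0' t' ht').le
    have l1 : |dX| ≤ (1 + 3 / B) * (|m| * h) :=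
      j1.trans (mul_le_mul_of_nonneg_left k1 (by positivity))
    have l2 : |dX'| ≤ (1 + 3 / B) * (|m' t'| * h') :=
      j3.trans (mul_le_mul_of_nonneg_left k2 (by positivity))
    have h6 : 3 / B * (2 * B) = 6 := by field_simp; norm_num
    have l3 : |dY| ≤ 6 := by
      calc |dY| ≤ 3 / B * (|m| * |σ1 - σ2|) := by rw [← mul_assoc]; exact i2
        _ ≤ 3 / B * (2 * B) := mul_le_mul_of_nonneg_left (k1.trans hm2) h3B0.le
        _ = 6 := h6
    have l4 : |dY'| ≤ 6 := by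
      calc |dY'| ≤ 3 / B * (|m' t'| * |dσ'|) := by rw [← mul_assoc]; exact i4
        _ ≤ 3 / B * (2 * B) :=
          mul_le_mul_of_nonneg_left (k2.trans (hG'' t' ht').2.1) h3B0.le
        _ = 6 := h6
    constructor
    · have e : (((φ v1).1 : ℤ) : ℝ) - ((φ v2).1 : ℤ) = dX' - dY := by rw [i6]; simp only [hφ]; ring
      rw [e]
      exact (abs_sub _ _).trans (by linarith)
    · have e : (((φ v1).2 : ℤ) : ℝ) - ((φ v2).2 : ℤ) = dY' - dX := by rw [i7]; simp only [hφ]; ring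
      rw [e]
      exact (abs_sub _ _).trans (by linarith)
  set C : ℝ := |m| * h * (1 + 24 / B) ^ 2 * h' with hC
  have hC0 : 0 ≤ C := by positivity
  have h21 : ∀ x : ℝ, B / 3 ≤ x → (1 + 3 / B) * x + 7 ≤ (1 + 24 / B) * x := by
    intro x hx
    have h1 : 21 / B * (B / 3) = 7 := by field_simp; norm_num
    have h2 : 21 / B * (B / 3) ≤ 21 / B * x :=
      mul_le_mul_of_nonneg_left hx (by positivity)
    have h3 : 24 / B = 3 / B + 21 / B := by ring
    rw [h3]
    linarith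
  have hcw : ∀ (S : Finset (ℤ × ℤ)), ∀ t' ∈ T',
      (((S.filter (fun v => t' ∈ G v '' A v)).card : ℕ) : ENNReal) * ω t' ≤ ENNReal.ofReal C := by
    intro S t' ht'
    have hp := hm0' t' ht'
    rw [hω]
    simp only
    rw [← ENNReal.ofReal_natCast, ← ENNReal.ofReal_mul (by positivity)]
    apply ENNReal.ofReal_le_ofReal
    rw [mul_one_div, div_le_iff₀ hp]
    calc (((S.filter (fun v => t' ∈ G v '' A v)).card : ℕ) : ℝ)
        ≤ ((1 + 3 / B) * (|m' t'| * h') + 7) * ((1 + 3 / B) * (|m| * h) + 7) := hcount S t' ht'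
      _ ≤ ((1 + 24 / B) * (|m' t'| * h')) * ((1 + 24 / B) * (|m| * h)) :=
          mul_le_mul (h21 _ (hG'' t' ht').1) (h21 _ hm1) (by positivity) (by positivity)
      _ = C * |m' t'| := by rw [hC]; ring
  have hsum : ∀ S : Finset (ℤ × ℤ), ENNReal.ofReal (κ * |m|) * ∑ v ∈ S, volume (A v) ≤
      ENNReal.ofReal C * volume T' := by
    intro S
    calc ENNReal.ofReal (κ * |m|) * ∑ v ∈ S, volume (A v)
        = ∑ v ∈ S, ENNReal.ofReal (κ * |m|) * volume (A v) := Finset.mul_sum _ _ _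
      _ ≤ ∑ v ∈ S, ∫⁻ x in G v '' A v, ω x := Finset.sum_le_sum fun v _ => hvol v
      _ = ∑ v ∈ S, ∫⁻ x, (G v '' A v).indicator ω x := by
          apply Finset.sum_congr rfl
          intro v _
          rw [lintegral_indicator (himg v)]
      _ = ∫⁻ x, ∑ v ∈ S, (G v '' A v).indicator ω x := by
          rw [lintegral_finsetSum]
          intro v _
          exact hωm.indicator (himg v)
      _ ≤ ∫⁻ x, T'.indicator (fun _ => ENNReal.ofReal C) x := by
          apply lintegral_mono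
          intro x
          change ∑ v ∈ S, (G v '' A v).indicator ω x ≤ _
          have hc : ∑ v ∈ S, (G v '' A v).indicator ω x =
              (((S.filter (fun v => x ∈ G v '' A v)).card : ℕ) : ENNReal) * ω x := by
            rw [Finset.card_filter]
            push_cast
            rw [Finset.sum_mul]
            apply Finset.sum_congr rfl
            intro v _
            by_cases hx : x ∈ G v '' A v
            · rw [indicator_of_mem hx, if_pos hx, one_mul]
            · rw [indicator_of_notMem hx, if_neg hx, zero_mul]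
          rw [hc]
          by_cases hx : x ∈ T'
          · rw [indicator_of_mem hx]
            exact hcw S x hx
          · rw [indicator_of_notMem hx]
            have : S.filter (fun v => x ∈ G v '' A v) = ∅ := by
              rw [Finset.filter_eq_empty_iff]
              rintro v _ ⟨σ, hσ, rfl⟩
              exact hx (hGT v σ hσ)
            rw [this]
            simp
      _ = ENNReal.ofReal C * volume T' := by
          rw [lintegral_indicator hT', setLIntegral_const]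
  have hfinal : C ≤ κ * |m| * ((1 + 100 / B) * (h * h')) := by
    have h1 := mul_le_mul_of_nonneg_left (numL hB)
      (show 0 ≤ |m| * h * h' by positivity)
    calc C = |m| * h * h' * (1 + 24 / B) ^ 2 := by rw [hC]; ring
      _ ≤ |m| * h * h' * (((1 - 3 / B) ^ 2 - (3 / B) ^ 2) * (1 + 100 / B)) := h1
      _ = κ * |m| * ((1 + 100 / B) * (h * h')) := by rw [hκ]; ring
  have hg0 : 0 < κ * |m| := by positivity
  have hle : ENNReal.ofReal (κ * |m|) * volume (⋃ v : ℤ × ℤ, A v) ≤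
      ENNReal.ofReal (κ * |m|) * (ENNReal.ofReal ((1 + 100 / B) * (h * h')) * volume T') := by
    calc ENNReal.ofReal (κ * |m|) * volume (⋃ v : ℤ × ℤ, A v)
        ≤ ENNReal.ofReal (κ * |m|) * ∑' v, volume (A v) := by gcongr; exact measure_iUnion_le A
      _ = ⨆ S : Finset (ℤ × ℤ), ENNReal.ofReal (κ * |m|) * ∑ v ∈ S, volume (A v) := by
          rw [ENNReal.tsum_eq_iSup_sum, ENNReal.mul_iSup]
      _ ≤ ENNReal.ofReal C * volume T' := iSup_le hsum
      _ ≤ ENNReal.ofReal (κ * |m| * ((1 + 100 / B) * (h * h'))) * volume T' := by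
          gcongr
      _ = _ := by rw [ENNReal.ofReal_mul hg0.le, mul_assoc]
  have hne : ENNReal.ofReal (κ * |m|) ≠ 0 := by
    rw [Ne, ENNReal.ofReal_eq_zero, not_le]; exact hg0
  exact (ENNReal.mul_le_mul_iff_right hne ENNReal.ofReal_ne_top).1 hle

theorem hit_upL {a b B : ℝ} (hB : 100 ≤ B) {n n' : ℕ} {α h α' h' : ℝ} {T T' : Set ℝ}
    (hh : 0 < h) (hh' : 0 < h') (hT : MeasurableSet T) (hT' : MeasurableSet T')
    (hG : ∀ t ∈ T, GoodL a b B n t α h) (hG' : ∀ t ∈ T', GoodL a b B n' t α' h') :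
    volume (HitL a b (n + n') (Ico α (α + h)) T (Ico α' (α' + h')) T') ≤
      ENNReal.ofReal ((1 + 100 / B) * (h * h')) * (volume T * volume T') := by
  have hHm := measurableSet_hitL a b (n + n') (measurableSet_Ico (a := α) (b := α + h)) hT
    (measurableSet_Ico (a := α') (b := α' + h')) hT'
  have hfub : volume (HitL a b (n + n') (Ico α (α + h)) T (Ico α' (α' + h')) T') =
      ∫⁻ t, volume {σ : ℝ | (σ, t) ∈
        HitL a b (n + n') (Ico α (α + h)) T (Ico α' (α' + h')) T'} := by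
    rw [Measure.volume_eq_prod, Measure.prod_apply_symm hHm]
    rfl
  rw [hfub]
  calc ∫⁻ t, volume {σ : ℝ | (σ, t) ∈
        HitL a b (n + n') (Ico α (α + h)) T (Ico α' (α' + h')) T'}
      ≤ ∫⁻ t, T.indicator
        (fun _ => ENNReal.ofReal ((1 + 100 / B) * (h * h')) * volume T') t := by
        apply lintegral_mono
        intro t
        by_cases ht : t ∈ T
        · rw [indicator_of_mem ht]
          refine le_trans (measure_mono ?_) (line_boundL hB hh hh' hT' (hG t ht) hG')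
          rintro σ ⟨h1, _, u, w, h2⟩
          exact mem_iUnion.2 ⟨(u, w), h1, h2⟩
        · rw [indicator_of_notMem ht]
          have : {σ : ℝ | (σ, t) ∈
              HitL a b (n + n') (Ico α (α + h)) T (Ico α' (α' + h')) T'} = ∅ := by
            ext σ
            simp only [mem_ofPred_eq, mem_empty_iff_false, iff_false]
            intro h
            exact ht h.2.1
          exact (measure_mono_null this.subset measure_empty).le
    _ = ENNReal.ofReal ((1 + 100 / B) * (h * h')) * (volume T * volume T') := by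
        rw [lintegral_indicator hT, setLIntegral_const, mul_assoc, mul_comm (volume T')]

end Pool.Agent.Helper18.UY
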