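import Pool.Agent.Helper18.UY.Low
import Pool.Agent.Helper18.UY.Up
import Pool.Agent.Helper18.UY.RB

/-! Block UY-TORL: the crossing estimates for strips of the torus.

`strip_hit`: for `I, T, I', T' ⊆ [0,1)`: `w ∈ strip b I T` and `swap (S^[N] w) ∈ strip b I' T'` iff `rb b w ∈ HitL a b N I T I' T'`. With
`(s, t) = rb b w`, `w = toT (ln b t s)` (`toT_ln_rb`), `swap (S^[N] w) = toT (swap (F^[N] (ln b t s)))` (`S_iter`), and for a point `q` of
the plane: `rb b (toT q) ∈ I' ×ˢ T'` iff `∃ u w, lc b (sh q u w) ∈ I' ×ˢ T'`: (⇐) `toT q = toT (sh q u w) = toT (ln b t'' s'')` with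
`(s'', t'') = lc b (sh q u w) ∈ [0,1)²` (`ln_lc`), and `rb_toT`; (⇒) `ln b (rb ..).2 (rb ..).1` and `q` have the same projection
(`toT_ln_rb`), so they differ by an integer vector (`toT_eq_iff`), and `lc_ln`.
So the set below is `rb b ⁻¹' HitL ..`, and its measure is that of `HitL` (`vol_rb`, `measurableSet_hitL`). Then `hit_lowL`, `hit_upL`, `vol_strip`
(`volume (Ico α (α+h)) = ofReal h`). -/

set_option autoImplicit false
open MeasureTheory Real Set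

namespace Pool.Agent.Helper18.UY

open Pool.Agent.Helper18.UC

variable {a : ℝ} {S : T2 → T2}

private theorem strip_hit6 (hS : IsS a S) (b : ℝ) (N : ℕ) {I T I' T' : Set ℝ}
    (hI' : I' ⊆ Ico 0 1) (hT' : T' ⊆ Ico 0 1) :
    strip b I T ∩ {w | Prod.swap (S^[N] w) ∈ strip b I' T'} = rb b ⁻¹' HitL a b N I T I' T' := by
  ext z
  have hw : toT (ln b (rb b z).2 (rb b z).1) = z := toT_ln_rb b z
  have h1 : Prod.swap (S^[N] z) = toT (Prod.swap ((F a)^[N] (ln b (rb b z).2 (rb b z).1))) := by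
    have h2 : S^[N] z = toT ((F a)^[N] (ln b (rb b z).2 (rb b z).1)) := by
      rw [← S_iter hS, hw]
    rw [h2]
    rfl
  constructor
  · rintro ⟨⟨h2, h3⟩, h4⟩
    have h4' : Prod.swap (S^[N] z) ∈ strip b I' T' := h4
    rw [h1] at h4'
    refine ⟨h2, h3, ?_⟩
    have h6 := toT_ln_rb b (toT (Prod.swap ((F a)^[N] (ln b (rb b z).2 (rb b z).1))))
    obtain ⟨u, v, h7⟩ := (toT_eq_iff _ _).1 h6
    refine ⟨u, v, ?_⟩
    rw [← h7, lc_ln]
    exact ⟨h4'.1, h4'.2⟩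
  · rintro ⟨h2, h3, u, v, h4⟩
    refine ⟨⟨h2, h3⟩, ?_⟩
    change Prod.swap (S^[N] z) ∈ strip b I' T'
    rw [h1]
    set q := Prod.swap ((F a)^[N] (ln b (rb b z).2 (rb b z).1)) with hq
    have h5 : toT q = toT (ln b (lc b (sh q u v)).2 (lc b (sh q u v)).1) := by
      rw [ln_lc, toT_sh]
    have h6 : rb b (toT q) = ((lc b (sh q u v)).1, (lc b (sh q u v)).2) := by
      rw [h5]
      exact rb_toT (hI' h4.1) (hT' h4.2)
    change (rb b (toT q)).1 ∈ I' ∧ (rb b (toT q)).2 ∈ T'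
    rw [h6]
    exact ⟨h4.1, h4.2⟩

private theorem vol_strip_hit6 (hS : IsS a S) (b : ℝ) (N : ℕ) {I T I' T' : Set ℝ}
    (hIm : MeasurableSet I) (hTm : MeasurableSet T) (hIm' : MeasurableSet I')
    (hTm' : MeasurableSet T') (hI : I ⊆ Ico 0 1) (hT : T ⊆ Ico 0 1)
    (hI' : I' ⊆ Ico 0 1) (hT' : T' ⊆ Ico 0 1) :
    volume (strip b I T ∩ {w | Prod.swap (S^[N] w) ∈ strip b I' T'}) =
      volume (HitL a b N I T I' T') := by
  rw [strip_hit6 hS b N hI' hT', vol_rb b (measurableSet_hitL a b N hIm hTm hIm' hTm')]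
  rintro p ⟨h1, h2, -⟩
  exact ⟨hI h1, hT h2⟩

private theorem vol_strip_Ico6 (b : ℝ) {α h : ℝ} {T : Set ℝ} (hTm : MeasurableSet T)
    (hI : Ico α (α + h) ⊆ Ico 0 1) (hT : T ⊆ Ico 0 1) :
    volume (strip b (Ico α (α + h)) T) = ENNReal.ofReal h * volume T := by
  rw [vol_strip b measurableSet_Ico hTm hI hT, Real.volume_Ico, add_sub_cancel_left]

theorem strip_low (hS : IsS a S) {b B : ℝ} (hB : 100 ≤ B) (ha : 10 ≤ |a|) {n n' : ℕ}
    {α h α' h' : ℝ} {T T' : Set ℝ} (hh : 0 < h) (hh' : 0 < h') (hT : MeasurableSet T) (hT' : MeasurableSet T')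
    (hI : Ico α (α + h) ⊆ Ico 0 1) (hT0 : T ⊆ Ico 0 1)
    (hI' : Ico α' (α' + h') ⊆ Ico 0 1) (hT1 : T' ⊆ Ico 0 1)
    (hG : ∀ t ∈ T, GoodL a b B n t α h) (hG' : ∀ t ∈ T', GoodL a b B n' t α' h') {j : ℕ} (hj : j ≤ 1) :
    ENNReal.ofReal (1 / (20 * B ^ 2 * LL a ^ j)) *
        (volume (strip b (Ico α (α + h)) T) * volume (strip b (Ico α' (α' + h')) T')) ≤
      volume (strip b (Ico α (α + h)) T ∩
        {w | Prod.swap (S^[n + j + n'] w) ∈ strip b (Ico α' (α' + h')) T'}) := by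
  rw [vol_strip_hit6 hS b (n + j + n') measurableSet_Ico hT measurableSet_Ico hT' hI hT0 hI' hT1,
    vol_strip_Ico6 b hT hI hT0, vol_strip_Ico6 b hT' hI' hT1]
  refine le_trans (le_of_eq ?_) (hit_lowL hB ha hh hh' hT hT' hI' hT1 hG hG' hj)
  have hL := LL_pos a
  have hB0 : 0 < B := by linarith
  have e1 : h * h' / (20 * B ^ 2 * LL a ^ j) = 1 / (20 * B ^ 2 * LL a ^ j) * (h * h') := by ring
  rw [e1, ENNReal.ofReal_mul (by positivity), ENNReal.ofReal_mul hh.le]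
  ring

theorem strip_up (hS : IsS a S) {b B : ℝ} (hB : 100 ≤ B) {n n' : ℕ}
    {α h α' h' : ℝ} {T T' : Set ℝ} (hh : 0 < h) (hh' : 0 < h') (hT : MeasurableSet T) (hT' : MeasurableSet T')
    (hI : Ico α (α + h) ⊆ Ico 0 1) (hT0 : T ⊆ Ico 0 1)
    (hI' : Ico α' (α' + h') ⊆ Ico 0 1) (hT1 : T' ⊆ Ico 0 1)
    (hG : ∀ t ∈ T, GoodL a b B n t α h) (hG' : ∀ t ∈ T', GoodL a b B n' t α' h') :
    volume (strip b (Ico α (α + h)) T ∩
        {w | Prod.swap (S^[n + n'] w) ∈ strip b (Ico α' (α' + h')) T'}) ≤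
      ENNReal.ofReal (1 + 100 / B) *
        (volume (strip b (Ico α (α + h)) T) * volume (strip b (Ico α' (α' + h')) T')) := by
  rw [vol_strip_hit6 hS b (n + n') measurableSet_Ico hT measurableSet_Ico hT' hI hT0 hI' hT1,
    vol_strip_Ico6 b hT hI hT0, vol_strip_Ico6 b hT' hI' hT1]
  refine (hit_upL hB hh hh' hT hT' hG hG').trans (le_of_eq ?_)
  have hB0 : 0 < B := by linarith
  rw [ENNReal.ofReal_mul (by positivity), ENNReal.ofReal_mul hh.le]
  ring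

end Pool.Agent.Helper18.UY
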