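import Mathlib

/-! Block UY-BW: Bernstein–Walsh bound near an interval. (Pure Mathlib.)

`bernstein_walsh`: let `R(u) = ∑ᵢ cᵢ u^(d-i) ((u² + 1)/2)^i` (`cᵢ` the coefficients of `P`, `i ≤ natDegree P ≤ d`), a polynomial
in `u` with `R(u) = u^d P((u + u⁻¹)/2)` for `u ≠ 0`. On `‖u‖ = 1` one has `u⁻¹ = conj u`, `(u + u⁻¹)/2 = Re u ∈ [-1, 1]`, so
`‖R u‖ ≤ M`; by the maximum modulus principle on the unit ball (`Complex.norm_le_of_forall_mem_frontier_norm_le`) `‖R u‖ ≤ M` for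
`‖u‖ ≤ 1`, i.e. `‖P((u + u⁻¹)/2)‖ ≤ M / ‖u‖^d`.

`bw_disc`: first `α = -1`, `h = 2`: for `z ∈ ℂ` let `u ≠ 0` be a root of `u² - 2 z u + 1 = 0` with `‖u‖ ≤ 1` (the product of the two
roots is `1`; e.g. from `IsAlgClosed` / a square root of `z² - 1`), so `z = (u + u⁻¹)/2`. Then `z - 1 = (u - 1)²/(2u)`,
`z + 1 = (u + 1)²/(2u)`, so `‖z - 1‖ + ‖z + 1‖ = (‖u - 1‖² + ‖u + 1‖²)/(2‖u‖) = ‖u‖ + 1/‖u‖` (parallelogram law). For real
`x ∈ [-1, 1]`: `‖z - 1‖ + ‖z + 1‖ ≤ 2 ‖z - x‖ + 2`. With `ρ = ‖u‖`: `(1 - ρ)² ≤ 2 ρ ‖z - x‖ ≤ 2 ‖z - x‖ ≤ 1/(4 d²)` if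
`‖z - x‖ ≤ 1/(8 d²)`, so `1 - ρ ≤ 1/(2d)` and `ρ^d ≥ (1 - 1/(2d))^d ≥ 1/2` (Bernoulli, `one_add_mul_le_pow`). Hence
`‖P z‖ ≤ 2 M`. General interval: compose `P` with the affine map `w ↦ α + h/2 + (h/2) w` (`Polynomial.comp`, degree `≤ d`). -/

set_option autoImplicit false
open Polynomial

namespace Pool.Agent.Helper18.UY

theorem bernstein_walsh {P : ℂ[X]} {d : ℕ} (hd : P.natDegree ≤ d) {M : ℝ}
    (hM : ∀ x : ℝ, |x| ≤ 1 → ‖P.eval (x : ℂ)‖ ≤ M) {u : ℂ} (hu0 : u ≠ 0) (hu : ‖u‖ ≤ 1) :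
    ‖P.eval ((u + u⁻¹) / 2)‖ * ‖u‖ ^ d ≤ M := by
  set R : ℂ[X] := ∑ i ∈ Finset.range (d + 1),
    C (P.coeff i) * X ^ (d - i) * (C (1 / 2) * (X ^ 2 + 1)) ^ i with hR
  have hev : ∀ v : ℂ, v ≠ 0 → R.eval v = v ^ d * P.eval ((v + v⁻¹) / 2) := by
    intro v hv
    rw [hR, eval_finset_sum, eval_eq_sum_range' (Nat.lt_succ_of_le hd), Finset.mul_sum]
    refine Finset.sum_congr rfl fun i hi => ?_
    have hi' : i ≤ d := Nat.lt_succ_iff.1 (Finset.mem_range.1 hi)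
    simp only [eval_mul, eval_C, eval_pow, eval_X, eval_add, eval_one]
    have e1 : (1 / 2 * (v ^ 2 + 1) : ℂ) = v * ((v + v⁻¹) / 2) := by
      field_simp
    rw [e1, mul_pow]
    have e2 : v ^ d = v ^ (d - i) * v ^ i := by rw [← pow_add, Nat.sub_add_cancel hi']
    rw [e2]
    ring
  have hbd : ∀ v ∈ frontier (Metric.ball (0 : ℂ) 1), ‖R.eval v‖ ≤ M := by
    intro v hv
    rw [frontier_ball (0 : ℂ) one_ne_zero, mem_sphere_zero_iff_norm] at hv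
    have hv0 : v ≠ 0 := by
      rintro rfl
      rw [norm_zero] at hv
      exact zero_ne_one hv
    rw [hev v hv0, norm_mul, norm_pow, hv, one_pow, one_mul]
    have e1 : (v + v⁻¹) / 2 = ((v.re : ℝ) : ℂ) := by
      have h1 : v⁻¹ = (starRingEnd ℂ) v := by
        rw [Complex.inv_def, Complex.normSq_eq_norm_sq, hv]
        simp
      rw [h1, Complex.re_eq_add_conj]
    rw [e1]
    exact hM _ ((Complex.abs_re_le_norm v).trans hv.le)
  have hmax : ‖R.eval u‖ ≤ M := by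
    refine Complex.norm_le_of_forall_mem_frontier_norm_le (U := Metric.ball (0 : ℂ) 1)
      Metric.isBounded_ball (f := fun v => R.eval v) R.differentiable.diffContOnCl hbd ?_
    rw [closure_ball (0 : ℂ) one_ne_zero, mem_closedBall_zero_iff]
    exact hu
  rw [hev u hu0, norm_mul, norm_pow] at hmax
  rw [mul_comm]
  exact hmax

private lemma bw_unit65 {P : ℂ[X]} {d : ℕ} (hd : P.natDegree ≤ d) (hd1 : 1 ≤ d) {M : ℝ}
    (hM : ∀ x : ℝ, |x| ≤ 1 → ‖P.eval (x : ℂ)‖ ≤ M) {y : ℝ} (hy : |y| ≤ 1) {w : ℂ}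
    (hw : ‖w - y‖ ≤ 1 / (8 * (d : ℝ) ^ 2)) : ‖P.eval w‖ ≤ 2 * M := by
  obtain ⟨s, hs⟩ := IsAlgClosed.exists_pow_nat_eq (w ^ 2 - 1) (n := 2) (by norm_num)
  have hprod : (w + s) * (w - s) = 1 := by
    have : (w + s) * (w - s) = w ^ 2 - s ^ 2 := by ring
    rw [this, hs]
    ring
  obtain ⟨u, hu0, hu1, huw⟩ : ∃ u : ℂ, u ≠ 0 ∧ ‖u‖ ≤ 1 ∧ (u + u⁻¹) / 2 = w := by
    have h1 : w + s ≠ 0 := left_ne_zero_of_mul_eq_one hprod
    have h2 : w - s ≠ 0 := right_ne_zero_of_mul_eq_one hprod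
    by_cases hn : ‖w + s‖ ≤ 1
    · refine ⟨w + s, h1, hn, ?_⟩
      rw [inv_eq_of_mul_eq_one_right hprod]
      ring
    · refine ⟨w - s, h2, ?_, ?_⟩
      · push Not at hn
        have h3 : ‖w + s‖ * ‖w - s‖ = 1 := by rw [← norm_mul, hprod, norm_one]
        by_contra hcon
        push Not at hcon
        have : 1 < ‖w + s‖ * ‖w - s‖ := one_lt_mul_of_lt_of_le hn hcon.le
        linarith
      · rw [inv_eq_of_mul_eq_one_left hprod]
        ring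
  have hρ : 0 < ‖u‖ := norm_pos_iff.2 hu0
  have hd0 : (1 : ℝ) ≤ d := by exact_mod_cast hd1
  have e1 : ‖w - 1‖ = ‖u - 1‖ ^ 2 / (2 * ‖u‖) := by
    have : w - 1 = (u - 1) ^ 2 / (2 * u) := by
      rw [← huw]
      field_simp
      ring
    rw [this, norm_div, norm_pow, norm_mul, Complex.norm_two]
  have e2 : ‖w + 1‖ = ‖u + 1‖ ^ 2 / (2 * ‖u‖) := by
    have : w + 1 = (u + 1) ^ 2 / (2 * u) := by
      rw [← huw]
      field_simp
      ring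
    rw [this, norm_div, norm_pow, norm_mul, Complex.norm_two]
  have e3 : ‖w - 1‖ + ‖w + 1‖ = (‖u‖ ^ 2 + 1) / ‖u‖ := by
    have h1 := parallelogram_law_with_norm ℝ u (1 : ℂ)
    rw [norm_one] at h1
    rw [e1, e2, ← add_div, div_eq_div_iff (by positivity) hρ.ne']
    nlinarith
  have e4 : ‖w - 1‖ + ‖w + 1‖ ≤ 2 * ‖w - y‖ + 2 := by
    have h1 : ‖w - 1‖ ≤ ‖w - y‖ + (1 - y) := by
      calc ‖w - 1‖ = ‖(w - y) + ((y - 1 : ℝ) : ℂ)‖ := by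
            congr 1
            push_cast
            ring
        _ ≤ ‖w - y‖ + ‖((y - 1 : ℝ) : ℂ)‖ := norm_add_le _ _
        _ = ‖w - y‖ + (1 - y) := by
            rw [Complex.norm_real, Real.norm_eq_abs, abs_of_nonpos (by linarith [(abs_le.1 hy).2])]
            ring
    have h2 : ‖w + 1‖ ≤ ‖w - y‖ + (1 + y) := by
      calc ‖w + 1‖ = ‖(w - y) + ((y + 1 : ℝ) : ℂ)‖ := by
            congr 1
            push_cast
            ring
        _ ≤ ‖w - y‖ + ‖((y + 1 : ℝ) : ℂ)‖ := norm_add_le _ _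
        _ = ‖w - y‖ + (1 + y) := by
            rw [Complex.norm_real, Real.norm_eq_abs, abs_of_nonneg (by linarith [(abs_le.1 hy).1])]
            ring
    linarith
  have e5 : (1 - ‖u‖) ^ 2 ≤ (1 / (2 * (d : ℝ))) ^ 2 := by
    rw [e3, div_le_iff₀ hρ] at e4
    have h1 : (1 - ‖u‖) ^ 2 ≤ 2 * ‖w - y‖ * ‖u‖ := by nlinarith
    have h2 : 2 * ‖w - y‖ * ‖u‖ ≤ 2 * ‖w - y‖ * 1 :=
      mul_le_mul_of_nonneg_left hu1 (by positivity)
    have h3 : (1 / (2 * (d : ℝ))) ^ 2 = 2 * (1 / (8 * (d : ℝ) ^ 2)) := by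
      field_simp
      norm_num
    rw [h3]
    linarith
  have e6 : 1 - ‖u‖ ≤ 1 / (2 * (d : ℝ)) := abs_le_of_sq_le_sq' e5 (by positivity) |>.2
  have e7 : (1 : ℝ) / 2 ≤ ‖u‖ ^ d := by
    have h1 : (1 : ℝ) + d * (-(1 / (2 * (d : ℝ)))) ≤ (1 + -(1 / (2 * (d : ℝ)))) ^ d := by
      refine one_add_mul_le_pow ?_ d
      have : (1 : ℝ) / (2 * d) ≤ 1 := by
        rw [div_le_one (by positivity)]
        linarith
      linarith
    have h2 : (1 : ℝ) + d * (-(1 / (2 * (d : ℝ)))) = 1 / 2 := by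
      field_simp
      norm_num
    rw [h2] at h1
    refine h1.trans (pow_le_pow_left₀ ?_ (by linarith) d)
    have : (1 : ℝ) / (2 * d) ≤ 1 := by
      rw [div_le_one (by positivity)]
      linarith
    linarith
  have h := bernstein_walsh hd hM hu0 hu1
  rw [huw] at h
  have h8 : ‖P.eval w‖ * (1 / 2) ≤ ‖P.eval w‖ * ‖u‖ ^ d :=
    mul_le_mul_of_nonneg_left e7 (norm_nonneg _)
  linarith

theorem bw_disc {P : ℂ[X]} {d : ℕ} (hd : P.natDegree ≤ d) (hd1 : 1 ≤ d) {M α h : ℝ} (hh : 0 < h)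
    (hM : ∀ x : ℝ, α ≤ x → x ≤ α + h → ‖P.eval (x : ℂ)‖ ≤ M) {x : ℝ} (hx : α ≤ x) (hx' : x ≤ α + h)
    {z : ℂ} (hz : ‖z - x‖ ≤ h / (16 * d ^ 2)) : ‖P.eval z‖ ≤ 2 * M := by
  set Q : ℂ[X] := P.comp (C ((h / 2 : ℝ) : ℂ) * X + C ((α + h / 2 : ℝ) : ℂ)) with hQ
  have hQd : Q.natDegree ≤ d := by
    refine natDegree_comp_le.trans ?_
    have h1 : (C ((h / 2 : ℝ) : ℂ) * X + C ((α + h / 2 : ℝ) : ℂ) : ℂ[X]).natDegree ≤ 1 :=
      natDegree_linear_le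
    calc P.natDegree * _ ≤ d * 1 := Nat.mul_le_mul hd h1
      _ = d := mul_one d
  have hQe : ∀ v : ℂ, Q.eval v = P.eval (((h / 2 : ℝ) : ℂ) * v + ((α + h / 2 : ℝ) : ℂ)) := by
    intro v
    rw [hQ, eval_comp]
    simp
  have hQM : ∀ y : ℝ, |y| ≤ 1 → ‖Q.eval (y : ℂ)‖ ≤ M := by
    intro y hy
    have hy' := abs_le.1 hy
    rw [hQe]
    have e : ((h / 2 : ℝ) : ℂ) * (y : ℂ) + ((α + h / 2 : ℝ) : ℂ) =
        ((h / 2 * y + (α + h / 2) : ℝ) : ℂ) := by push_cast; ring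
    rw [e]
    refine hM _ ?_ ?_ <;> nlinarith
  have hhC : ((h : ℝ) : ℂ) ≠ 0 := by exact_mod_cast hh.ne'
  set y : ℝ := (x - α - h / 2) / (h / 2) with hy
  set w : ℂ := (z - ((α + h / 2 : ℝ) : ℂ)) / ((h / 2 : ℝ) : ℂ) with hw
  have hy1 : |y| ≤ 1 := by
    rw [hy, abs_le]
    constructor
    · rw [le_div_iff₀ (by positivity)]
      linarith
    · rw [div_le_iff₀ (by positivity)]
      linarith
  have hwy : ‖w - y‖ ≤ 1 / (8 * (d : ℝ) ^ 2) := by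
    have e : w - y = (z - x) / ((h / 2 : ℝ) : ℂ) := by
      rw [hw, hy]
      push_cast
      field_simp
      ring
    rw [e, norm_div, Complex.norm_real, Real.norm_eq_abs, abs_of_pos (by positivity),
      div_le_iff₀ (by positivity)]
    refine hz.trans (le_of_eq ?_)
    ring
  have key := bw_unit65 hQd hd1 hQM hy1 hwy
  rw [hQe] at key
  have e : ((h / 2 : ℝ) : ℂ) * w + ((α + h / 2 : ℝ) : ℂ) = z := by
    rw [hw]
    have h2 : ((h / 2 : ℝ) : ℂ) ≠ 0 := by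
      have : (h / 2 : ℝ) ≠ 0 := by positivity
      exact_mod_cast this
    rw [mul_div_cancel₀ _ h2]
    ring
  rw [e] at key
  exact key

end Pool.Agent.Helper18.UY
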