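import Pool.Agent.Helper18.UY.Count

/-! Block UY-BAD: the points with a large velocity and few long times have small measure on every line.

Let `C₁` be the constant of `count`, `L = LL a`, `K = ⌈log L⌉₊ + 1`. For `s` in the set put `κ l = ⌊log (V (l+1) s / V l s)⌋` for `l < n`
(`0` for other `l`), which lies in `[-K, K]` (`V_succ_le`, `V_le_succ`), and `J = {l ∈ [1, n] | Long l s}`; then
`exp (κ l) V l ≤ V (l+1) ≤ exp 1 exp (κ l) V l` and `#J ≤ θ n`. So the set is contained in the union, over `κ : Fin n → Icc (-K) K`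
(extended by `0`; at most `(2K+1)^n` of them, `2K + 1 ≤ 5 (1 + log L)`) and `J ⊆ Icc 1 n` (`2^n` subsets) with `#J ≤ θ n`, of the
sets covered by `count`. Such a set is covered by the intervals `[p.1 - p.2/2, p.1 + p.2/2]`, `p ∈ P`, which meet it; if it contains a point `s` of the set,
then `V n p.1 ≥ V n s / 2 ≥ exp (c n)/2` (`vel_near`), so `p.2 ≤ 8B / V n p.1 ≤ 16 B exp (-c n)`. Hence the measure of each set is at most
`16 B exp (-c n) #P ≤ 16 B exp (-c n) (C₁ (1 + log L)^4)^n L^(θ n)` (`L^(#J) ≤ L^(θ n)`, `L ≥ 4`). Total with `C = 10 C₁`: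
`5^n (1 + log L)^n 2^n · …` (`measure_biUnion_finset_le`). -/

set_option autoImplicit false
open MeasureTheory Real Set

namespace Pool.Agent.Helper18.UY

open Pool.Agent.Helper18.UC

/-- the points of one class -/
private def clsE65 (a b B t : ℝ) (n : ℕ) (c : ℝ) (κ : ℕ → ℤ) (J : Finset ℕ) : Set ℝ :=
  {s : ℝ | s ∈ Icc (0 : ℝ) 1 ∧ Real.exp (c * n) ≤ V a b n (ln b t s) ∧
    (∀ l < n, Real.exp (κ l) * V a b l (ln b t s) ≤ V a b (l + 1) (ln b t s) ∧
      V a b (l + 1) (ln b t s) ≤ Real.exp 1 * Real.exp (κ l) * V a b l (ln b t s)) ∧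
    ∀ l ∈ Finset.Icc 1 n, l ∉ J → ¬ Long a b B l t s}

private lemma cover65 {a b B t : ℝ} (hB : 100 ≤ B) {n : ℕ} {c : ℝ} {κ : ℕ → ℤ} {J : Finset ℕ}
    {P : Finset (ℝ × ℝ)}
    (hP : ∀ p ∈ P, Pc a b B t n p.1 p.2 ∧ V a b n (ln b t p.1) * p.2 ≤ 8 * B)
    (hc : ∀ s ∈ Icc (0 : ℝ) 1,
        (∀ l < n, Real.exp (κ l) * V a b l (ln b t s) ≤ V a b (l + 1) (ln b t s) ∧
          V a b (l + 1) (ln b t s) ≤ Real.exp 1 * Real.exp (κ l) * V a b l (ln b t s)) →
        (∀ l ∈ Finset.Icc 1 n, l ∉ J → ¬ Long a b B l t s) →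
        ∃ p ∈ P, |s - p.1| ≤ p.2 / 2) :
    volume (clsE65 a b B t n c κ J) ≤ ENNReal.ofReal (P.card * (16 * B * Real.exp (-(c * n)))) := by
  classical
  set X : ℝ := 16 * B * Real.exp (-(c * n)) with hX
  have hX0 : 0 ≤ X := by positivity
  set P' : Finset (ℝ × ℝ) := P.filter (fun p => p.2 ≤ X) with hP'
  have hsub : clsE65 a b B t n c κ J ⊆ ⋃ p ∈ P', Icc (p.1 - p.2 / 2) (p.1 + p.2 / 2) := by
    rintro s ⟨hs, hV, hκ, hJ⟩
    obtain ⟨p, hp, hsp⟩ := hc s hs hκ hJ
    obtain ⟨hPc, hVp⟩ := hP p hp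
    have hR : 0 < p.2 := hPc.1
    have h1 := (vel_near hB hPc (s := s) (by linarith)).2.2
    have hVp0 : 0 ≤ V a b n (ln b t p.1) := V_nonneg _ _ _ _
    have h2 : 1 / (8 * B) * V a b n (ln b t p.1) ≤ V a b n (ln b t p.1) := by
      have : 1 / (8 * B) ≤ 1 := by
        rw [div_le_one (by positivity)]
        linarith
      nlinarith
    have h3 := (abs_le.1 h1).2
    have h4 : Real.exp (c * n) ≤ 2 * V a b n (ln b t p.1) := by linarith
    have h5 : p.2 ≤ X := by
      have h6 : Real.exp (c * n) * p.2 ≤ 16 * B := by nlinarith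
      rw [hX, Real.exp_neg, ← div_eq_mul_inv, le_div_iff₀ (Real.exp_pos _)]
      linarith
    rw [mem_iUnion₂]
    refine ⟨p, Finset.mem_filter.2 ⟨hp, h5⟩, ?_⟩
    have h7 := abs_le.1 hsp
    exact ⟨by linarith [h7.1], by linarith [h7.2]⟩
  calc volume (clsE65 a b B t n c κ J) ≤ volume (⋃ p ∈ P', Icc (p.1 - p.2 / 2) (p.1 + p.2 / 2)) :=
        measure_mono hsub
    _ ≤ ∑ p ∈ P', volume (Icc (p.1 - p.2 / 2) (p.1 + p.2 / 2)) := measure_biUnion_finset_le _ _
    _ ≤ ∑ _p ∈ P', ENNReal.ofReal X := by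
        refine Finset.sum_le_sum fun p hp => ?_
        rw [Real.volume_Icc]
        refine ENNReal.ofReal_le_ofReal ?_
        have := (Finset.mem_filter.1 hp).2
        linarith
    _ = (P'.card : ENNReal) * ENNReal.ofReal X := by rw [Finset.sum_const, nsmul_eq_mul]
    _ = ENNReal.ofReal (P'.card * X) := by
        rw [ENNReal.ofReal_mul (Nat.cast_nonneg P'.card), ENNReal.ofReal_natCast]
    _ ≤ ENNReal.ofReal (P.card * X) := by
        refine ENNReal.ofReal_le_ofReal (mul_le_mul_of_nonneg_right ?_ hX0)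
        exact_mod_cast Finset.card_filter_le _ _

theorem bad_line {B : ℝ} (hB : 100 ≤ B) : ∃ C : ℝ, 1 ≤ C ∧ ∀ (a b t : ℝ), 0 ≤ b → b ≤ 1 →
    ∀ (n : ℕ) (c θ : ℝ), 0 ≤ θ →
    volume {s : ℝ | s ∈ Icc (0 : ℝ) 1 ∧ Real.exp (c * n) ≤ V a b n (ln b t s) ∧
      ∑ l ∈ Finset.Icc 1 n, ({s : ℝ | Long a b B l t s}).indicator (fun _ => (1 : ℝ)) s ≤ θ * n} ≤
    ENNReal.ofReal (16 * B * (C * (1 + Real.log (LL a)) ^ 5 * LL a ^ θ * Real.exp (-c)) ^ n) := by
  classical
  obtain ⟨C₁, hC₁, hcount⟩ := count hB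
  refine ⟨10 * C₁, by linarith, ?_⟩
  intro a b t hb hb1 n c θ hθ
  have hL4 : 4 ≤ LL a := LL_ge a
  have hL1 : 1 ≤ LL a := by linarith
  have hlog0 : 0 ≤ Real.log (LL a) := Real.log_nonneg hL1
  set lg : ℝ := Real.log (LL a) with hlg
  set K : ℕ := ⌈lg⌉₊ + 1 with hK
  have hKlg : (K : ℝ) ≤ lg + 2 := by
    have := Nat.ceil_lt_add_one hlog0
    rw [hK]
    push_cast
    linarith
  -- extension of the exponents
  set ext : (Fin n → ℤ) → ℕ → ℤ := fun κ l => if h : l < n then κ ⟨l, h⟩ else 0 with hext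
  set idx : Finset ((Fin n → ℤ) × Finset ℕ) :=
    (Fintype.piFinset fun _ : Fin n => Finset.Icc (-(K : ℤ)) K) ×ˢ
      (Finset.Icc 1 n).powerset.filter (fun J => (J.card : ℝ) ≤ θ * n) with hidx
  set S : Set ℝ := {s : ℝ | s ∈ Icc (0 : ℝ) 1 ∧ Real.exp (c * n) ≤ V a b n (ln b t s) ∧
      ∑ l ∈ Finset.Icc 1 n, ({s : ℝ | Long a b B l t s}).indicator (fun _ => (1 : ℝ)) s ≤ θ * n}
    with hS
  have hsub : S ⊆ ⋃ i ∈ idx, clsE65 a b B t n c (ext i.1) i.2 := by
    rintro s ⟨hs, hV, hsum⟩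
    set q := ln b t s with hq
    set κ : Fin n → ℤ := fun l => ⌊Real.log (V a b (l + 1) q / V a b l q)⌋ with hκ
    set J : Finset ℕ := (Finset.Icc 1 n).filter (fun l => Long a b B l t s) with hJ
    have hJc : (J.card : ℝ) ≤ θ * n := by
      have e : ∑ l ∈ Finset.Icc 1 n, ({s : ℝ | Long a b B l t s}).indicator (fun _ => (1 : ℝ)) s =
          J.card := by
        rw [hJ, Finset.card_filter, Nat.cast_sum]
        refine Finset.sum_congr rfl fun l _ => ?_
        by_cases h : Long a b B l t s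
        · rw [Set.indicator_of_mem (show s ∈ {s : ℝ | Long a b B l t s} from h), if_pos h]
          simp
        · rw [Set.indicator_of_notMem (show s ∉ {s : ℝ | Long a b B l t s} from h), if_neg h]
          simp
      rw [← e]
      exact hsum
    have hκb : ∀ l : Fin n, κ l ∈ Finset.Icc (-(K : ℤ)) K := by
      intro l
      have p1 := V_pos a b l q
      have p2 := V_pos a b (l + 1) q
      have b1 := V_succ_le a b l q
      have b2 := V_le_succ a b l q
      have u1 : Real.log (V a b (l + 1) q / V a b l q) ≤ lg := by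
        refine Real.log_le_log (by positivity) ?_
        rw [div_le_iff₀ p1]
        exact b1
      have u2 : -lg ≤ Real.log (V a b (l + 1) q / V a b l q) := by
        rw [hlg, ← Real.log_inv]
        refine Real.log_le_log (by positivity) ?_
        rw [le_div_iff₀ p1, inv_mul_le_iff₀ (by linarith)]
        exact b2
      have h3 : lg ≤ (K : ℝ) := by
        have := Nat.le_ceil lg
        rw [hK]
        push_cast
        linarith
      rw [Finset.mem_Icc]
      constructor
      · rw [hκ]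
        refine Int.le_floor.2 ?_
        push_cast
        linarith
      · rw [hκ]
        have h4 := Int.floor_le (Real.log (V a b (l + 1) q / V a b l q))
        have h5 : ((⌊Real.log (V a b (l + 1) q / V a b l q)⌋ : ℤ) : ℝ) ≤ ((K : ℤ) : ℝ) := by
          push_cast
          linarith
        exact_mod_cast h5
    rw [mem_iUnion₂]
    refine ⟨(κ, J), ?_, hs, hV, ?_, ?_⟩
    · rw [hidx, Finset.mem_product]
      refine ⟨Fintype.mem_piFinset.2 hκb, ?_⟩
      rw [Finset.mem_filter, Finset.mem_powerset]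
      exact ⟨Finset.filter_subset _ _, hJc⟩
    · intro l hl
      have p1 := V_pos a b l q
      have p2 := V_pos a b (l + 1) q
      have e1 : ext κ l = ⌊Real.log (V a b (l + 1) q / V a b l q)⌋ := by
        simp only [hext]
        rw [dif_pos hl]
      show Real.exp (ext κ l) * V a b l q ≤ V a b (l + 1) q ∧
        V a b (l + 1) q ≤ Real.exp 1 * Real.exp (ext κ l) * V a b l q
      rw [e1]
      set r := V a b (l + 1) q / V a b l q with hr
      have hr0 : 0 < r := by positivity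
      have hrV : V a b (l + 1) q = r * V a b l q := by rw [hr, div_mul_cancel₀ _ p1.ne']
      rw [hrV]
      constructor
      · refine mul_le_mul_of_nonneg_right ?_ p1.le
        calc Real.exp (⌊Real.log r⌋ : ℝ) ≤ Real.exp (Real.log r) := Real.exp_le_exp.2 (Int.floor_le _)
          _ = r := Real.exp_log hr0
      · refine mul_le_mul_of_nonneg_right ?_ p1.le
        rw [← Real.exp_add]
        calc r = Real.exp (Real.log r) := (Real.exp_log hr0).symm
          _ ≤ Real.exp (1 + (⌊Real.log r⌋ : ℝ)) := by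
            refine Real.exp_le_exp.2 ?_
            have := (Int.lt_floor_add_one (Real.log r)).le
            linarith
    · intro l hl hlJ hLong
      exact hlJ (Finset.mem_filter.2 ⟨hl, hLong⟩)
  set X : ℝ := 16 * B * Real.exp (-(c * n)) with hX
  have hX0 : 0 ≤ X := by positivity
  set Y : ℝ := (C₁ * (1 + lg) ^ 4) ^ n * (LL a) ^ (θ * n) with hY
  have hY0 : 0 ≤ Y := by
    have : 0 ≤ (LL a) ^ (θ * n) := Real.rpow_nonneg (by linarith) _
    positivity
  have hone : ∀ i ∈ idx, volume (clsE65 a b B t n c (ext i.1) i.2) ≤ ENNReal.ofReal (Y * X) := by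
    intro i hi
    rw [hidx, Finset.mem_product, Finset.mem_filter] at hi
    obtain ⟨P, hP1, hP2, hP3⟩ := hcount a b t hb hb1 n (ext i.1) i.2
    refine (cover65 hB (c := c) hP2 hP3).trans (ENNReal.ofReal_le_ofReal ?_)
    refine mul_le_mul_of_nonneg_right (hP1.trans ?_) hX0
    refine mul_le_mul_of_nonneg_left ?_ (by positivity)
    rw [← Real.rpow_natCast]
    refine Real.rpow_le_rpow_of_exponent_le hL1 ?_
    have h1 : ((i.2 ∩ Finset.Icc 1 n).card : ℝ) ≤ i.2.card := by
      exact_mod_cast Finset.card_le_card Finset.inter_subset_left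
    exact h1.trans hi.2.2
  have hcardidx : (idx.card : ℝ) ≤ (5 * (1 + lg)) ^ n * 2 ^ n := by
    have h1 : idx.card ≤ (2 * K + 1) ^ n * 2 ^ n := by
      rw [hidx, Finset.card_product]
      refine Nat.mul_le_mul ?_ ?_
      · rw [Fintype.card_piFinset, Finset.prod_const, Finset.card_univ, Fintype.card_fin,
          Int.card_Icc]
        refine Nat.pow_le_pow_left ?_ n
        omega
      · refine (Finset.card_filter_le _ _).trans ?_
        rw [Finset.card_powerset, Nat.card_Icc]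
        simp
    have h2 : (idx.card : ℝ) ≤ (2 * K + 1) ^ n * 2 ^ n := by exact_mod_cast h1
    refine h2.trans (mul_le_mul_of_nonneg_right (pow_le_pow_left₀ (by positivity) ?_ n) (by positivity))
    linarith
  calc volume S ≤ volume (⋃ i ∈ idx, clsE65 a b B t n c (ext i.1) i.2) := measure_mono hsub
    _ ≤ ∑ i ∈ idx, volume (clsE65 a b B t n c (ext i.1) i.2) := measure_biUnion_finset_le _ _
    _ ≤ ∑ _i ∈ idx, ENNReal.ofReal (Y * X) := Finset.sum_le_sum hone
    _ = (idx.card : ENNReal) * ENNReal.ofReal (Y * X) := by rw [Finset.sum_const, nsmul_eq_mul]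
    _ = ENNReal.ofReal (idx.card * (Y * X)) := by
        rw [ENNReal.ofReal_mul (Nat.cast_nonneg idx.card), ENNReal.ofReal_natCast]
    _ ≤ ENNReal.ofReal (16 * B * (10 * C₁ * (1 + lg) ^ 5 * LL a ^ θ * Real.exp (-c)) ^ n) := by
        refine ENNReal.ofReal_le_ofReal ?_
        refine (mul_le_mul_of_nonneg_right hcardidx (mul_nonneg hY0 hX0)).trans (le_of_eq ?_)
        have e1 : (LL a) ^ (θ * n) = ((LL a) ^ θ) ^ n := by
          rw [Real.rpow_mul (by linarith), Real.rpow_natCast]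
        have e2 : Real.exp (-(c * n)) = Real.exp (-c) ^ n := by
          rw [← Real.exp_nat_mul]
          congr 1
          ring
        rw [hY, hX, e1, e2]
        have e3 : 10 * C₁ * (1 + lg) ^ 5 * LL a ^ θ * Real.exp (-c) =
            (5 * (1 + lg)) * 2 * (C₁ * (1 + lg) ^ 4) * LL a ^ θ * Real.exp (-c) := by ring
        rw [e3, mul_pow _ (Real.exp (-c)), mul_pow _ (LL a ^ θ), mul_pow _ (C₁ * (1 + lg) ^ 4),
          mul_pow _ (2 : ℝ)]
        ring

end Pool.Agent.Helper18.UY
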