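import Pool.Agent.Helper18.UY.One

/-! Block UY-COUNT: counting pieces.

Induction on `n`, `C` the maximum of the constants of `one_long`, `one_short`. `n = 0`: the single piece `(1/2, 1)`: `xc 1`, `xc 0` are affine, so
`Pc` holds (`V > 0`), `V 0 = 1 ≤ 8B` (`V_zero`), and `|s - 1/2| ≤ 1/2`. Step: apply `one_long` (if `n + 1 ∈ J`) or `one_short`
(if not) with `g = exp (κ n)` to every piece (`Finset.biUnion`, `Finset.card_biUnion_le`); the exponent
`(J ∩ Icc 1 (n+1)).card` is `(J ∩ Icc 1 n).card + 1` or `(J ∩ Icc 1 n).card`. -/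

set_option autoImplicit false
open MeasureTheory Real Set

namespace Pool.Agent.Helper18.UY

open Pool.Agent.Helper18.UC

theorem count {B : ℝ} (hB : 100 ≤ B) : ∃ C : ℝ, 1 ≤ C ∧ ∀ (a b t : ℝ), 0 ≤ b → b ≤ 1 →
    ∀ (n : ℕ) (κ : ℕ → ℤ) (J : Finset ℕ),
    ∃ P : Finset (ℝ × ℝ), (P.card : ℝ) ≤
        (C * (1 + Real.log (LL a)) ^ 4) ^ n * LL a ^ (J ∩ Finset.Icc 1 n).card ∧
      (∀ p ∈ P, Pc a b B t n p.1 p.2 ∧ V a b n (ln b t p.1) * p.2 ≤ 8 * B) ∧
      ∀ s ∈ Icc (0 : ℝ) 1,
        (∀ l < n, Real.exp (κ l) * V a b l (ln b t s) ≤ V a b (l + 1) (ln b t s) ∧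
          V a b (l + 1) (ln b t s) ≤ Real.exp 1 * Real.exp (κ l) * V a b l (ln b t s)) →
        (∀ l ∈ Finset.Icc 1 n, l ∉ J → ¬ Long a b B l t s) →
        ∃ p ∈ P, |s - p.1| ≤ p.2 / 2 := by
  classical
  obtain ⟨C1, hC1, h1⟩ := one_long hB
  obtain ⟨C2, hC2, h2⟩ := one_short hB
  refine ⟨max C1 C2, le_max_of_le_left hC1, ?_⟩
  intro a b t hb hb1 n κ J
  set C := max C1 C2 with hC
  have hLL : 1 ≤ LL a := by have := LL_ge a; linarith
  have hLL0 : 0 < LL a := by linarith
  have hlog : 0 ≤ Real.log (LL a) := Real.log_nonneg hLL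
  set L4 : ℝ := (1 + Real.log (LL a)) ^ 4 with hL4
  have hL40 : 0 ≤ L4 := by positivity
  have hC0 : 0 ≤ C := le_trans (by linarith) (le_max_left C1 C2)
  induction n with
  | zero =>
    refine ⟨{(1 / 2, 1)}, ?_, ?_, ?_⟩
    · simp
    · intro p hp
      rw [Finset.mem_singleton] at hp
      subst hp
      refine ⟨⟨one_pos, fun z _ => ?_⟩, ?_⟩
      · have hV := V_nonneg a b 0 (ln b t (1 / 2))
        have hpos : 0 ≤ 1 / (8 * B) * V a b 0 (ln b t (1 / 2)) := by positivity
        have e1 : ∀ w : ℂ, deriv (xc a b t (0 + 1)) w = 1 := by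
          intro w
          show deriv (fun z : ℂ => z) w = 1
          simp
        have e0 : ∀ w : ℂ, deriv (xc a b t 0) w = b := by
          intro w
          show deriv (fun z : ℂ => (t : ℂ) + b * z) w = b
          have : HasDerivAt (fun z : ℂ => (t : ℂ) + b * z) (b : ℂ) w := by
            simpa using ((hasDerivAt_id w).const_mul (b : ℂ)).const_add (t : ℂ)
          exact this.deriv
        constructor
        · rw [e1, e1, sub_self, norm_zero]
          exact hpos
        · rw [e0, e0, sub_self, norm_zero]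
          exact hpos
      · rw [V_zero hb hb1]
        simp only [mul_one]
        linarith
    · intro s hs _ _
      refine ⟨(1 / 2, 1), Finset.mem_singleton_self _, ?_⟩
      simp only
      rw [abs_le]
      constructor <;> linarith [hs.1, hs.2]
  | succ n ih =>
    obtain ⟨P, hPc, hPP, hPs⟩ := ih
    have key : ∃ K : ℝ, 0 ≤ K ∧ K = C * L4 * (if n + 1 ∈ J then LL a else 1) ∧
        ∀ p ∈ P, ∃ Q : Finset (ℝ × ℝ), (Q.card : ℝ) ≤ K ∧
          (∀ q ∈ Q, Pc a b B t (n + 1) q.1 q.2 ∧ V a b (n + 1) (ln b t q.1) * q.2 ≤ 8 * B) ∧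
          ∀ s : ℝ, |s - p.1| ≤ p.2 / 2 → Real.exp (κ n) * V a b n (ln b t s) ≤ V a b (n + 1) (ln b t s) →
            V a b (n + 1) (ln b t s) ≤ Real.exp 1 * Real.exp (κ n) * V a b n (ln b t s) →
            (n + 1 ∉ J → ¬ Long a b B (n + 1) t s) → ∃ q ∈ Q, |s - q.1| ≤ q.2 / 2 := by
      refine ⟨_, ?_, rfl, ?_⟩
      · split_ifs <;> positivity
      · intro p hp
        have hpc := hPP p hp
        by_cases hJ : n + 1 ∈ J
        · obtain ⟨Q, hQ1, hQ2, hQ3⟩ := h1 a b t n p.1 p.2 (Real.exp (κ n)) hpc.1 hpc.2 (Real.exp_pos _)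
          refine ⟨Q, ?_, hQ2, fun s hs hs1 hs2 _ => hQ3 s hs hs1 hs2⟩
          rw [if_pos hJ]
          refine hQ1.trans ?_
          have : C1 * L4 ≤ C * L4 := mul_le_mul_of_nonneg_right (le_max_left _ _) hL40
          exact mul_le_mul_of_nonneg_right this hLL0.le
        · obtain ⟨Q, hQ1, hQ2, hQ3⟩ := h2 a b t n p.1 p.2 (Real.exp (κ n)) hpc.1 hpc.2 (Real.exp_pos _)
          refine ⟨Q, ?_, hQ2, fun s hs hs1 hs2 hs3 => hQ3 s hs hs1 hs2 (hs3 hJ)⟩
          rw [if_neg hJ, mul_one]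
          exact hQ1.trans (mul_le_mul_of_nonneg_right (le_max_right _ _) hL40)
    obtain ⟨K, hK0, hK, hQ⟩ := key
    choose! Q hQ1 hQ2 hQ3 using hQ
    refine ⟨P.biUnion Q, ?_, ?_, ?_⟩
    · have hc1 : ((P.biUnion Q).card : ℝ) ≤ ∑ p ∈ P, ((Q p).card : ℝ) := by
        exact_mod_cast Finset.card_biUnion_le
      have hc2 : ∑ p ∈ P, ((Q p).card : ℝ) ≤ P.card * K := by
        calc ∑ p ∈ P, ((Q p).card : ℝ) ≤ ∑ _p ∈ P, K := Finset.sum_le_sum fun p hp => hQ1 p hp
          _ = P.card * K := by rw [Finset.sum_const, nsmul_eq_mul]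
      have hc3 : (P.card : ℝ) * K ≤ ((C * L4) ^ n * LL a ^ (J ∩ Finset.Icc 1 n).card) * K :=
        mul_le_mul_of_nonneg_right hPc hK0
      refine hc1.trans (hc2.trans (hc3.trans (le_of_eq ?_)))
      rw [hK]
      by_cases hJ : n + 1 ∈ J
      · have hcard : (J ∩ Finset.Icc 1 (n + 1)).card = (J ∩ Finset.Icc 1 n).card + 1 := by
          have : J ∩ Finset.Icc 1 (n + 1) = insert (n + 1) (J ∩ Finset.Icc 1 n) := by
            ext m
            simp only [Finset.mem_inter, Finset.mem_Icc, Finset.mem_insert]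
            constructor
            · rintro ⟨hm, h3, h4⟩
              by_cases hmn : m = n + 1
              · exact Or.inl hmn
              · exact Or.inr ⟨hm, h3, by omega⟩
            · rintro (hm | ⟨hm, h3, h4⟩)
              · subst hm
                exact ⟨hJ, by omega, le_rfl⟩
              · exact ⟨hm, h3, by omega⟩
          rw [this, Finset.card_insert_of_notMem]
          simp
        rw [if_pos hJ, hcard]
        ring
      · have hcard : (J ∩ Finset.Icc 1 (n + 1)) = (J ∩ Finset.Icc 1 n) := by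
          ext m
          simp only [Finset.mem_inter, Finset.mem_Icc]
          constructor
          · rintro ⟨hm, h3, h4⟩
            have hmn : m ≠ n + 1 := fun h => hJ (h ▸ hm)
            exact ⟨hm, h3, by omega⟩
          · rintro ⟨hm, h3, h4⟩
            exact ⟨hm, h3, by omega⟩
        rw [if_neg hJ, hcard]
        ring
    · intro q hq
      obtain ⟨p, hp, hqp⟩ := Finset.mem_biUnion.mp hq
      exact hQ2 p hp q hqp
    · intro s hs hs1 hs2
      obtain ⟨p, hp, hsp⟩ := hPs s hs (fun l hl => hs1 l (by omega)) (fun l hl => hs2 l (by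
        rw [Finset.mem_Icc] at hl ⊢
        omega))
      have hsn := hs1 n (by omega)
      obtain ⟨q, hq, hsq⟩ := hQ3 p hp s hsp hsn.1 hsn.2 (hs2 (n + 1) (by rw [Finset.mem_Icc]; omega))
      exact ⟨q, Finset.mem_biUnion.mpr ⟨p, hp, hq⟩, hsq⟩

end Pool.Agent.Helper18.UY
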