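import Mathlib

/-! Block UY-COV: covering a bounded set of reals by few intervals centred in the set. (Pure Mathlib.)

`Z ⊆ [u, u + d]`, `η > 0`: cells `[u + i η, u + (i+1) η)`, `i = 0, …, ⌊d/η⌋`; choose a point of `Z` in each cell that meets `Z`. -/

set_option autoImplicit false
open Set

namespace Pool.Agent.Helper18.UY

theorem cov {Z : Set ℝ} {u d η : ℝ} (hZ : Z ⊆ Icc u (u + d)) (hd : 0 ≤ d) (hη : 0 < η) :
    ∃ P : Finset ℝ, (P.card : ℝ) ≤ d / η + 1 ∧ (∀ c ∈ P, c ∈ Z) ∧ ∀ z ∈ Z, ∃ c ∈ P, |z - c| ≤ η := by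
  classical
  have hex : ∀ i : ℕ, ∃ c : ℝ, (∃ z ∈ Z, ⌊(z - u) / η⌋₊ = i) → c ∈ Z ∧ ⌊(c - u) / η⌋₊ = i := by
    intro i
    by_cases h : ∃ z ∈ Z, ⌊(z - u) / η⌋₊ = i
    · obtain ⟨z, hz, hz'⟩ := h
      exact ⟨z, fun _ => ⟨hz, hz'⟩⟩
    · exact ⟨0, fun h' => absurd h' h⟩
  choose f hf using hex
  refine ⟨((Finset.range (⌊d / η⌋₊ + 1)).filter fun i => ∃ z ∈ Z, ⌊(z - u) / η⌋₊ = i).image f,
    ?_, ?_, ?_⟩
  · have h1 : (((Finset.range (⌊d / η⌋₊ + 1)).filter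
        fun i => ∃ z ∈ Z, ⌊(z - u) / η⌋₊ = i).image f).card ≤ ⌊d / η⌋₊ + 1 :=
      Finset.card_image_le.trans ((Finset.card_filter_le _ _).trans (by rw [Finset.card_range]))
    have h2 : ((⌊d / η⌋₊ : ℕ) : ℝ) ≤ d / η := Nat.floor_le (div_nonneg hd hη.le)
    have h3 : ((((Finset.range (⌊d / η⌋₊ + 1)).filter
        fun i => ∃ z ∈ Z, ⌊(z - u) / η⌋₊ = i).image f).card : ℝ) ≤ ((⌊d / η⌋₊ + 1 : ℕ) : ℝ) := by
      exact_mod_cast h1
    push_cast at h3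
    linarith
  · intro c hc
    obtain ⟨i, hi, rfl⟩ := Finset.mem_image.1 hc
    exact (hf i (Finset.mem_filter.1 hi).2).1
  · intro z hz
    have hzI := hZ hz
    have h0 : 0 ≤ (z - u) / η := div_nonneg (sub_nonneg.2 hzI.1) hη.le
    have hmem : ⌊(z - u) / η⌋₊ ∈ (Finset.range (⌊d / η⌋₊ + 1)).filter
        fun i => ∃ z ∈ Z, ⌊(z - u) / η⌋₊ = i := by
      rw [Finset.mem_filter, Finset.mem_range]
      refine ⟨Nat.lt_succ_of_le (Nat.floor_le_floor ?_), z, hz, rfl⟩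
      exact div_le_div_of_nonneg_right (by linarith [hzI.2]) hη.le
    obtain ⟨hc, hc'⟩ := hf _ ⟨z, hz, rfl⟩
    refine ⟨f ⌊(z - u) / η⌋₊, Finset.mem_image_of_mem _ hmem, ?_⟩
    set c := f ⌊(z - u) / η⌋₊ with hcdef
    have hcI := hZ hc
    have h0c : 0 ≤ (c - u) / η := div_nonneg (sub_nonneg.2 hcI.1) hη.le
    have e1 := Nat.floor_le h0
    have e2 := Nat.lt_floor_add_one ((z - u) / η)
    have e3 := Nat.floor_le h0c
    have e4 := Nat.lt_floor_add_one ((c - u) / η)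
    rw [hc'] at e3 e4
    have e5 : (z - u) / η - (c - u) / η = (z - c) / η := by ring
    have e6 : |(z - c) / η| ≤ 1 := by
      rw [← e5, abs_le]
      constructor <;> linarith
    rwa [abs_div, abs_of_pos hη, div_le_one hη] at e6

end Pool.Agent.Helper18.UY
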