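import Pool.Agent.Helper18.UY.Good
import Pool.Agent.Helper18.UC.Curve

/-! Block UY-CROSS: for labels `t`, `t'` of good lines the image at time `n + j` (`j = 0, 1`) of the interval `[α, α + h)` of the line `t`
crosses the reflected image at time `n'` of the interval `[α', α' + h')` of the line `t'`, modulo integer translations.

Adapt `Helper18/UC/Exist.lean` (`cross_exists`, `line_props`, `sin_expand`) : there `pt k t σ`, `good_curve`, interval
`[cor k c, cor k c + s/2]`; here `ln b t σ`, `goodl_curve`, interval `[α, α + h/2]`. Slope: `|dY| ≤ (3/B)|m||dσ| ≤ (3/100)/(97/100) |dX| ≤ (1/8) |dX|`.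
Extent over the half interval: `≥ (97/100) |m| h/2 ≥ (97/100) B/6 ≥ 16 ≥ 11`. The rest is word for word the same (`curve_cross`). -/

set_option autoImplicit false
open MeasureTheory Real Set

namespace Pool.Agent.Helper18.UY

open Pool.Agent.Helper18.UC

/-- The image of the line with label `t` (the first coordinate grows almost linearly). -/
private theorem line_props {a b B : ℝ} (hB : 100 ≤ B) {n : ℕ} {t α h : ℝ}
    (hG : GoodL a b B n t α h) :
    ∃ u0 u1 m : ℝ, u0 ≤ u1 ∧ (∀ σ ∈ Icc u0 u1, σ ∈ Ico α (α + h)) ∧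
      (∀ σ ∈ Icc u0 u1, ∀ σ' ∈ Icc u0 u1,
        |((F a)^[n] (ln b t σ)).1 - ((F a)^[n] (ln b t σ')).1 - m * (σ - σ')| ≤
          (3 / 100) * (|m| * |σ - σ'|)) ∧
      (∀ σ ∈ Icc u0 u1, ∀ σ' ∈ Icc u0 u1,
        |((F a)^[n] (ln b t σ)).2 - ((F a)^[n] (ln b t σ')).2| ≤
          (1 / 8) * |((F a)^[n] (ln b t σ)).1 - ((F a)^[n] (ln b t σ')).1|) ∧
      11 ≤ |((F a)^[n] (ln b t u1)).1 - ((F a)^[n] (ln b t u0)).1| := by
  obtain ⟨hh, hm1, hm2, -⟩ := id hG
  set m := wx a b n (ln b t α) with hm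
  have hBp : 0 < B := by linarith
  have h3B : 3 / B ≤ 3 / 100 := div_le_div_of_nonneg_left (by norm_num) (by norm_num) hB
  have hmem : ∀ σ ∈ Icc α (α + h / 2), σ ∈ Ico α (α + h) := fun σ hσ => ⟨hσ.1, by linarith [hσ.2]⟩
  have hmem2 : ∀ σ ∈ Icc α (α + h / 2), σ ∈ Icc α (α + h) := fun σ hσ => ⟨hσ.1, by linarith [hσ.2]⟩
  have hA : ∀ σ ∈ Icc α (α + h / 2), ∀ σ' ∈ Icc α (α + h / 2),
      |((F a)^[n] (ln b t σ)).1 - ((F a)^[n] (ln b t σ')).1 - m * (σ - σ')| ≤
          (3 / 100) * (|m| * |σ - σ'|) := by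
    intro σ hσ σ' hσ'
    have h1 := (goodl_curve hB hG (hmem2 σ hσ) (hmem2 σ' hσ')).1
    refine h1.trans ?_
    rw [mul_assoc]
    exact mul_le_mul_of_nonneg_right h3B (by positivity)
  have hA' : ∀ σ ∈ Icc α (α + h / 2), ∀ σ' ∈ Icc α (α + h / 2),
      (97 / 100) * (|m| * |σ - σ'|) ≤ |((F a)^[n] (ln b t σ)).1 - ((F a)^[n] (ln b t σ')).1| := by
    intro σ hσ σ' hσ'
    have h1 := hA σ hσ σ' hσ'
    have h2 : |m * (σ - σ')| = |m| * |σ - σ'| := abs_mul _ _
    have h3 := abs_sub_abs_le_abs_sub (m * (σ - σ'))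
      (((F a)^[n] (ln b t σ)).1 - ((F a)^[n] (ln b t σ')).1)
    rw [abs_sub_comm (m * (σ - σ'))] at h3
    rw [h2] at h3
    linarith
  refine ⟨α, α + h / 2, m, by linarith, hmem, hA, ?_, ?_⟩
  · intro σ hσ σ' hσ'
    have h1 := (goodl_curve hB hG (hmem2 σ hσ) (hmem2 σ' hσ')).2
    have h3 := hA' σ hσ σ' hσ'
    have h4 : 0 ≤ |m| * |σ - σ'| := by positivity
    have h5 : (3 / B) * |m| * |σ - σ'| ≤ 3 / 100 * (|m| * |σ - σ'|) := by
      rw [mul_assoc]
      exact mul_le_mul_of_nonneg_right h3B h4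
    linarith
  · have h1 := hA' (α + h / 2) ⟨by linarith, le_rfl⟩ α ⟨le_rfl, by linarith⟩
    have h2 : |α + h / 2 - α| = h / 2 := by
      rw [add_sub_cancel_left, abs_of_pos (by linarith)]
    rw [h2] at h1
    nlinarith

private theorem line_cont (a b : ℝ) (n : ℕ) (t : ℝ) :
    Continuous (fun u : ℝ => ((F a)^[n] (ln b t u)).1) ∧
    Continuous (fun u : ℝ => ((F a)^[n] (ln b t u)).2) :=
  ⟨continuous_iff_continuousAt.2 fun s => (hasDerivAt_ln a b n t s).1.continuousAt,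
    continuous_iff_continuousAt.2 fun s => (hasDerivAt_ln a b n t s).2.continuousAt⟩

/-- `x ↦ sin 2πx` is uniformly expanding near the half integers. -/
private theorem sin_expand {μ : ℤ} {x y : ℝ} (hx : |x - μ / 2| ≤ 1 / 8) (hy : |y - μ / 2| ≤ 1 / 8) :
    (14 / 5) * |x - y| ≤ |Real.sin (2 * π * x) - Real.sin (2 * π * y)| := by
  rw [abs_le] at hx hy
  have hπ := Real.pi_pos
  have h1 : Real.sin (2 * π * x) - Real.sin (2 * π * y) =
      2 * Real.sin (π * (x - y)) * Real.cos (π * (x + y - μ) + μ * π) := by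
    rw [Real.sin_sub_sin]
    congr 2
    · congr 1; ring
    · ring
  have h2 : 2 * |x - y| ≤ |Real.sin (π * (x - y))| := by
    have h3 : |Real.sin (π * (x - y))| = Real.sin (π * |x - y|) := by
      rcases le_total 0 (x - y) with h | h
      · rw [abs_of_nonneg h, abs_of_nonneg]
        apply Real.sin_nonneg_of_nonneg_of_le_pi (by positivity)
        nlinarith
      · rw [abs_of_nonpos h, mul_neg, Real.sin_neg, abs_of_nonpos]
        rw [← neg_nonneg, ← Real.sin_neg, ← mul_neg]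
        apply Real.sin_nonneg_of_nonneg_of_le_pi
        · have : 0 ≤ -(x - y) := by linarith
          positivity
        · nlinarith
    have h4 : |x - y| ≤ 1 / 4 := by rw [abs_le]; constructor <;> linarith
    have h5 := Real.mul_le_sin (x := π * |x - y|) (by positivity) (by nlinarith)
    rw [h3]
    calc 2 * |x - y| = 2 / π * (π * |x - y|) := by field_simp
      _ ≤ _ := h5
  have h6 : 7 / 10 ≤ |Real.cos (π * (x + y - μ) + μ * π)| := by
    rw [Real.cos_add_int_mul_pi, abs_mul, abs_zpow, abs_neg, abs_one, one_zpow, one_mul]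
    have h7 : |π * (x + y - μ)| ≤ π / 4 := by
      rw [abs_mul, abs_of_pos hπ]
      have : |x + y - μ| ≤ 1 / 4 := by rw [abs_le]; constructor <;> linarith
      nlinarith
    have h8 : Real.cos (π / 4) ≤ Real.cos |π * (x + y - μ)| := by
      apply Real.cos_le_cos_of_nonneg_of_le_pi (abs_nonneg _) (by linarith) h7
    rw [Real.cos_abs, Real.cos_pi_div_four] at h8
    have h9 : (7 : ℝ) / 10 ≤ √2 / 2 := by
      have : (14 : ℝ) / 10 ≤ √2 := by
        apply Real.le_sqrt_of_sq_le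
        norm_num
      linarith
    exact (h9.trans h8).trans (le_abs_self _)
  rw [h1, abs_mul, abs_mul, abs_two]
  have h10 : 0 ≤ |x - y| := abs_nonneg _
  calc (14 / 5) * |x - y| = 2 * (2 * |x - y|) * (7 / 10) := by ring
    _ ≤ 2 * |Real.sin (π * (x - y))| * |Real.cos (π * (x + y - μ) + μ * π)| := by
        apply mul_le_mul _ h6 (by norm_num) (by positivity)
        linarith

theorem cross_ln {a b B : ℝ} (hB : 100 ≤ B) (ha : 10 ≤ |a|) {n n' : ℕ} {t t' α α' h h' : ℝ}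
    (hG : GoodL a b B n t α h) (hG' : GoodL a b B n' t' α' h') {j : ℕ} (hj : j ≤ 1) :
    ∃ σ ∈ Ico α (α + h), ∃ σ' ∈ Ico α' (α' + h'), ∃ u w : ℤ,
      (F a)^[n + j] (ln b t σ) = sh (Prod.swap ((F a)^[n'] (ln b t' σ'))) u w := by
  obtain ⟨u0, u1, m, hu, hmem, hA, hsl, hext⟩ := line_props hB hG
  obtain ⟨r0, r1, m', hr, hmem', hA', hsl', hext'⟩ := line_props hB hG'
  obtain ⟨hcX, hcY⟩ := line_cont a b n t
  obtain ⟨hcX', hcY'⟩ := line_cont a b n' t'
  have hj' : j = 0 ∨ j = 1 := by omega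
  rcases hj' with rfl | rfl
  · obtain ⟨σ, hσ, r, hr', u, w, h1, h2⟩ := curve_cross hu hr hcX.continuousOn hcY.continuousOn
      hcY'.continuousOn hcX'.continuousOn (by linarith) hsl (by linarith) hsl'
    exact ⟨σ, hmem σ hσ, r, hmem' r hr', u, w, Prod.ext h1 h2⟩
  · -- one more iterate
    set X : ℝ → ℝ := fun u => ((F a)^[n] (ln b t u)).1 with hXdef
    set Y : ℝ → ℝ := fun u => ((F a)^[n] (ln b t u)).2 with hYdef
    have hF : ∀ u, (F a)^[n + 1] (ln b t u) = (2 * X u - Y u + a * Real.sin (2 * π * X u), X u) := by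
      intro u
      rw [Function.iterate_succ_apply']
      rfl
    -- the final step on a subinterval
    have key : ∀ (μ : ℤ) (a0 a1 : ℝ), a0 ≤ a1 → u0 ≤ a0 → a1 ≤ u1 →
        (∀ σ ∈ Icc a0 a1, |X σ - μ / 2| ≤ 1 / 8) → |X a1 - X a0| = 1 / 4 →
        ∃ σ ∈ Ico α (α + h), ∃ σ' ∈ Ico α' (α' + h'),
          ∃ u w : ℤ, (F a)^[n + 1] (ln b t σ) =
            sh (Prod.swap ((F a)^[n'] (ln b t' σ'))) u w := by
      intro μ a0 a1 h01 h0 h1 hX hext1
      have hexp : ∀ σ ∈ Icc a0 a1, ∀ σ' ∈ Icc a0 a1, 25 * |X σ - X σ'| ≤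
          |(2 * X σ - Y σ + a * Real.sin (2 * π * X σ)) -
            (2 * X σ' - Y σ' + a * Real.sin (2 * π * X σ'))| := by
        intro σ hσ σ' hσ'
        have e1 := sin_expand (hX σ hσ) (hX σ' hσ')
        have e2 : 28 * |X σ - X σ'| ≤
            |a * (Real.sin (2 * π * X σ) - Real.sin (2 * π * X σ'))| := by
          rw [abs_mul]
          have := abs_nonneg (X σ - X σ')
          nlinarith [mul_le_mul ha e1 (by positivity) (by positivity)]
        have e3 := hsl σ ⟨h0.trans hσ.1, hσ.2.trans h1⟩ σ' ⟨h0.trans hσ'.1, hσ'.2.trans h1⟩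
        have e4 : (2 * X σ - Y σ + a * Real.sin (2 * π * X σ)) -
            (2 * X σ' - Y σ' + a * Real.sin (2 * π * X σ')) =
            a * (Real.sin (2 * π * X σ) - Real.sin (2 * π * X σ')) -
              ((Y σ - Y σ') - 2 * (X σ - X σ')) := by ring
        have e5 := abs_sub_abs_le_abs_sub (a * (Real.sin (2 * π * X σ) - Real.sin (2 * π * X σ')))
          ((Y σ - Y σ') - 2 * (X σ - X σ'))
        have e6 : |(Y σ - Y σ') - 2 * (X σ - X σ')| ≤ |Y σ - Y σ'| + 2 * |X σ - X σ'| := by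
          refine (abs_sub _ _).trans ?_
          rw [abs_mul, abs_two]
        rw [e4]
        have e7 : |Y σ - Y σ'| ≤ 1 / 8 * |X σ - X σ'| := e3
        have := abs_nonneg (X σ - X σ')
        linarith
      have hc1 : ContinuousOn (fun u => 2 * X u - Y u + a * Real.sin (2 * π * X u)) (Icc a0 a1) := by
        apply Continuous.continuousOn
        exact ((continuous_const.mul hcX).sub hcY).add
          (continuous_const.mul (Real.continuous_sin.comp (continuous_const.mul hcX)))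
      obtain ⟨σ, hσ, r, hr', u, w, e1, e2⟩ := curve_cross h01 hr hc1 hcX.continuousOn
        hcY'.continuousOn hcX'.continuousOn
        (by
          have e1 := hexp a1 ⟨h01, le_rfl⟩ a0 ⟨le_rfl, h01⟩
          rw [hext1] at e1
          exact le_trans (by norm_num) e1)
        (fun σ hσ σ' hσ' => by
          have e1 := hexp σ hσ σ' hσ'
          have e2 := abs_nonneg (X σ - X σ')
          change |X σ - X σ'| ≤ 1 / 8 * |(2 * X σ - Y σ + a * Real.sin (2 * π * X σ)) -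
            (2 * X σ' - Y σ' + a * Real.sin (2 * π * X σ'))|
          linarith)
        (by linarith) hsl'
      refine ⟨σ, hmem σ ⟨h0.trans hσ.1, hσ.2.trans h1⟩, r, hmem' r hr', u, w, ?_⟩
      rw [hF]
      exact Prod.ext e1 e2
    -- monotonicity
    have hA2 : ∀ σ ∈ Icc u0 u1, ∀ σ' ∈ Icc u0 u1,
        |X σ - X σ' - m * (σ - σ')| ≤ (3 / 100) * (|m| * |σ - σ'|) := hA
    have hext2 : 11 ≤ |X u1 - X u0| := hext
    set μ : ℤ := round (X u0 + X u1) with hμdef
    have hμ : |X u0 + X u1 - μ| ≤ 1 / 2 := abs_sub_round _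
    rw [abs_le] at hμ
    rcases le_total 0 m with hm | hm
    · have hmono : ∀ σ ∈ Icc u0 u1, ∀ σ' ∈ Icc u0 u1, σ' ≤ σ → X σ' ≤ X σ := by
        intro σ hσ σ' hσ' hle
        have e1 := hA2 σ hσ σ' hσ'
        rw [abs_of_nonneg hm, abs_of_nonneg (sub_nonneg.2 hle), abs_le] at e1
        have e2 : 0 ≤ m * (σ - σ') := mul_nonneg hm (sub_nonneg.2 hle)
        linarith [e1.1]
      have e0 := hmono u1 ⟨hu, le_rfl⟩ u0 ⟨le_rfl, hu⟩ hu
      rw [abs_of_nonneg (sub_nonneg.2 e0)] at hext2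
      have hivt := intermediate_value_Icc hu hcX.continuousOn
      obtain ⟨σ0, hσ0, hσ0'⟩ := hivt (show (μ / 2 - 1 / 8 : ℝ) ∈ Icc (X u0) (X u1) from
        ⟨by linarith [hμ.1, hμ.2], by linarith [hμ.1, hμ.2]⟩)
      obtain ⟨σ1, hσ1, hσ1'⟩ := hivt (show (μ / 2 + 1 / 8 : ℝ) ∈ Icc (X u0) (X u1) from
        ⟨by linarith [hμ.1, hμ.2], by linarith [hμ.1, hμ.2]⟩)
      have h01 : σ0 ≤ σ1 := by
        by_contra hcon
        have := hmono σ0 hσ0 σ1 hσ1 (not_le.1 hcon).le
        change X σ1 ≤ X σ0 at this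
        change X σ0 = _ at hσ0'
        change X σ1 = _ at hσ1'
        linarith
      refine key μ σ0 σ1 h01 hσ0.1 hσ1.2 ?_ ?_
      · intro σ hσ
        have hσJ : σ ∈ Icc u0 u1 := ⟨hσ0.1.trans hσ.1, hσ.2.trans hσ1.2⟩
        have e1 := hmono σ hσJ σ0 hσ0 hσ.1
        have e2 := hmono σ1 hσ1 σ hσJ hσ.2
        change X σ0 = _ at hσ0'
        change X σ1 = _ at hσ1'
        rw [abs_le]
        constructor <;> linarith
      · change X σ0 = _ at hσ0'
        change X σ1 = _ at hσ1'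
        rw [hσ0', hσ1', abs_of_nonneg] <;> linarith
    · have hmono : ∀ σ ∈ Icc u0 u1, ∀ σ' ∈ Icc u0 u1, σ' ≤ σ → X σ ≤ X σ' := by
        intro σ hσ σ' hσ' hle
        have e1 := hA2 σ hσ σ' hσ'
        rw [abs_of_nonpos hm, abs_of_nonneg (sub_nonneg.2 hle), abs_le] at e1
        have e2 : m * (σ - σ') ≤ 0 := mul_nonpos_of_nonpos_of_nonneg hm (sub_nonneg.2 hle)
        linarith [e1.2]
      have e0 := hmono u1 ⟨hu, le_rfl⟩ u0 ⟨le_rfl, hu⟩ hu
      rw [abs_of_nonpos (sub_nonpos.2 e0)] at hext2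
      have hivt := intermediate_value_Icc' hu hcX.continuousOn
      obtain ⟨σ0, hσ0, hσ0'⟩ := hivt (show (μ / 2 - 1 / 8 : ℝ) ∈ Icc (X u1) (X u0) from
        ⟨by linarith [hμ.1, hμ.2], by linarith [hμ.1, hμ.2]⟩)
      obtain ⟨σ1, hσ1, hσ1'⟩ := hivt (show (μ / 2 + 1 / 8 : ℝ) ∈ Icc (X u1) (X u0) from
        ⟨by linarith [hμ.1, hμ.2], by linarith [hμ.1, hμ.2]⟩)
      have h01 : σ1 ≤ σ0 := by
        by_contra hcon
        have := hmono σ1 hσ1 σ0 hσ0 (not_le.1 hcon).le
        change X σ1 ≤ X σ0 at this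
        change X σ0 = _ at hσ0'
        change X σ1 = _ at hσ1'
        linarith
      refine key μ σ1 σ0 h01 hσ1.1 hσ0.2 ?_ ?_
      · intro σ hσ
        have hσJ : σ ∈ Icc u0 u1 := ⟨hσ1.1.trans hσ.1, hσ.2.trans hσ0.2⟩
        have e1 := hmono σ hσJ σ1 hσ1 hσ.1
        have e2 := hmono σ0 hσ0 σ hσJ hσ.2
        change X σ0 = _ at hσ0'
        change X σ1 = _ at hσ1'
        rw [abs_le]
        constructor <;> linarith
      · change X σ0 = _ at hσ0'
        change X σ1 = _ at hσ1'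
        rw [hσ0', hσ1', abs_of_nonpos] <;> linarith

end Pool.Agent.Helper18.UY
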