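import Pool.Agent.Helper18.UY.Step

/-! Block UY-CUT: cutting a piece, and long pieces.

`long_piece`: `V = V a b m (ln b t c)`, `V R ≥ 4B`, `|s - c| ≤ R/2`. `V m s ≥ (1 - ε) V ≥ V/2` (`vel_near`), so `|s' - s| ≤ B/V m s ≤ 2B/V ≤ R/2`,
`|s' - c| ≤ R`, and `|wx s' - wx s| ≤ 2 ε V = V/(4B) ≤ (1/B) V m s`; the same for `wy`.

`cut`: `Q ≥ 8B`, `V R ≤ Q`. Put `R' = min (R/8) (4B/V)`, so `V R' ≤ 4B`, and take `cov` with `Z = Icc (c - R/2) (c + R/2)`, `η = R'/2`:
at most `2R/R' + 1 ≤ 2R (8/R + V/(4B)) + 1 = 17 + R V/(2B) ≤ 17 + Q/(2B)` points `c'`. `Pc` for `(c', R')`: the functions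
`deriv (xc (m+1)) - deriv (xc (m+1)) c` and the one for `xc m` are bounded by `ε V` on `‖z - c‖ ≤ 2R`, so their derivatives are
bounded by `ε V/R` on `‖z - c‖ ≤ R` (Cauchy), the disc `‖z - c'‖ ≤ 2R' ≤ R/4` is inside it (`R/2 + R/4 ≤ R`), and
`‖f z - f c'‖ ≤ 2R' ε V/R ≤ ε V/4 ≤ ε V m c'` (`V m c' ≥ (1-ε) V`). `V m c' R' ≤ (1+ε) V R' ≤ 8B`. -/

set_option autoImplicit false
open MeasureTheory Real Set

namespace Pool.Agent.Helper18.UY

open Pool.Agent.Helper18.UC

private lemma h36_cau {f : ℂ → ℂ} (hf : Differentiable ℂ f) {c : ℂ} {R E : ℝ} (hR : 0 < R)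
    (hE : ∀ z : ℂ, ‖z - c‖ ≤ 2 * R → ‖f z - f c‖ ≤ E) {z c' : ℂ} (hz : ‖z - c‖ ≤ R) (hc' : ‖c' - c‖ ≤ R) :
    ‖f z - f c'‖ ≤ E / R * ‖z - c'‖ := by
  have h1 : ∀ w ∈ Metric.closedBall c R, ‖deriv f w‖ ≤ E / R := by
    intro w hw
    have h2 : deriv f w = deriv (fun u => f u - f c) w := by
      rw [deriv_sub_const]
    rw [h2]
    refine Complex.norm_deriv_le_of_forall_mem_sphere_norm_le hR ?_ ?_
    · exact (hf.sub_const _).diffContOnCl
    · intro u hu
      apply hE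
      have h3 : ‖w - c‖ ≤ R := by
        rw [← dist_eq_norm]
        exact hw
      have h4 : ‖u - w‖ = R := by
        rw [← dist_eq_norm]
        exact hu
      calc ‖u - c‖ = ‖(u - w) + (w - c)‖ := by congr 1; ring
        _ ≤ ‖u - w‖ + ‖w - c‖ := norm_add_le _ _
        _ ≤ 2 * R := by rw [h4]; linarith
  refine Convex.norm_image_sub_le_of_norm_deriv_le (𝕜 := ℂ) (s := Metric.closedBall c R)
    (fun w _ => hf w) h1 (convex_closedBall c R) ?_ ?_
  · rw [Metric.mem_closedBall, dist_eq_norm]; exact hc'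
  · rw [Metric.mem_closedBall, dist_eq_norm]; exact hz

private lemma h36_dd (a b t : ℝ) (n : ℕ) : Differentiable ℂ (deriv (xc a b t n)) := by
  have h := (xc_diff a b t n).differentiableOn (s := Set.univ)
  have h2 := h.deriv isOpen_univ
  exact differentiableOn_univ.1 h2

theorem long_piece {a b B t : ℝ} (hB : 100 ≤ B) {m : ℕ} {c R : ℝ} (hP : Pc a b B t m c R)
    (hV : 4 * B ≤ V a b m (ln b t c) * R) {s : ℝ} (hs : |s - c| ≤ R / 2) {s' : ℝ}
    (hs' : |s' - s| ≤ B / V a b m (ln b t s)) :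
    |wx a b m (ln b t s') - wx a b m (ln b t s)| ≤ 1 / B * V a b m (ln b t s) ∧
    |wy a b m (ln b t s') - wy a b m (ln b t s)| ≤ 1 / B * V a b m (ln b t s) := by
  obtain ⟨hR, hP'⟩ := hP
  have hB0 : 0 < B := by linarith
  set V0 := V a b m (ln b t c) with hV0
  have hVp : 0 < V0 := V_pos a b m _
  have hε : 1 / (8 * B) ≤ 1 / 800 := by
    apply one_div_le_one_div_of_le <;> linarith
  have hε0 : 0 < 1 / (8 * B) := by positivity
  have hεV : 1 / (8 * B) * V0 ≤ 1 / 800 * V0 := mul_le_mul_of_nonneg_right hε hVp.le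
  obtain ⟨x1, x2, x3⟩ := vel_near hB ⟨hR, hP'⟩ (s := s) (by linarith)
  rw [← hV0] at x1 x2 x3
  have hVs : V0 / 2 ≤ V a b m (ln b t s) := by
    have := (abs_le.1 x3).1
    linarith
  have hVs0 : 0 < V a b m (ln b t s) := V_pos a b m _
  have hs1 : |s' - s| ≤ R / 2 := by
    refine hs'.trans ?_
    rw [div_le_iff₀ hVs0]
    have : R / 2 * (V0 / 2) ≤ R / 2 * V a b m (ln b t s) := mul_le_mul_of_nonneg_left hVs (by linarith)
    nlinarith
  have hs2 : |s' - c| ≤ 2 * R := by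
    have := abs_sub_le s' s c
    linarith
  obtain ⟨y1, y2, y3⟩ := vel_near hB ⟨hR, hP'⟩ (s := s') hs2
  rw [← hV0] at y1 y2 y3
  have hfin : 2 * (1 / (8 * B) * V0) ≤ 1 / B * V a b m (ln b t s) := by
    have e : 2 * (1 / (8 * B) * V0) = 1 / B * (V0 / 4) := by field_simp; ring
    rw [e]
    apply mul_le_mul_of_nonneg_left _ (by positivity)
    linarith
  constructor
  · have := abs_sub_le (wx a b m (ln b t s')) (wx a b m (ln b t c)) (wx a b m (ln b t s))
    rw [abs_sub_comm (wx a b m (ln b t c))] at this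
    linarith
  · have := abs_sub_le (wy a b m (ln b t s')) (wy a b m (ln b t c)) (wy a b m (ln b t s))
    rw [abs_sub_comm (wy a b m (ln b t c))] at this
    linarith

theorem cut {a b B t : ℝ} (hB : 100 ≤ B) {m : ℕ} {c R Q : ℝ} (hP : Pc a b B t m c R)
    (hQ : 8 * B ≤ Q) (hV : V a b m (ln b t c) * R ≤ Q) :
    ∃ P : Finset (ℝ × ℝ), (P.card : ℝ) ≤ 17 + Q / (2 * B) ∧
      (∀ p ∈ P, Pc a b B t m p.1 p.2 ∧ V a b m (ln b t p.1) * p.2 ≤ 8 * B) ∧
      ∀ s : ℝ, |s - c| ≤ R / 2 → ∃ p ∈ P, |s - p.1| ≤ p.2 / 2 := by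
  classical
  obtain ⟨hR, hP'⟩ := hP
  have hB0 : 0 < B := by linarith
  set V0 := V a b m (ln b t c) with hV0
  have hVp : 0 < V0 := V_pos a b m _
  have hε : 1 / (8 * B) ≤ 1 / 800 := by
    apply one_div_le_one_div_of_le <;> linarith
  have hε0 : 0 < 1 / (8 * B) := by positivity
  have hεV : 1 / (8 * B) * V0 ≤ 1 / 800 * V0 := mul_le_mul_of_nonneg_right hε hVp.le
  set R' := min (R / 8) (4 * B / V0) with hR'
  have hR'0 : 0 < R' := lt_min (by linarith) (by positivity)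
  have hR'1 : R' ≤ R / 8 := min_le_left _ _
  have hR'2 : R' ≤ 4 * B / V0 := min_le_right _ _
  obtain ⟨P0, hc0, hm0, hz0⟩ := cov (Z := Icc (c - R / 2) (c + R / 2)) (u := c - R / 2) (d := R) (η := R' / 2)
    (by intro x hx; exact ⟨hx.1, by linarith [hx.2]⟩) hR.le (by linarith)
  refine ⟨P0.image (fun x => (x, R')), ?_, ?_, ?_⟩
  · have h1 : ((P0.image (fun x => (x, R'))).card : ℝ) ≤ (P0.card : ℝ) := by
      exact_mod_cast Finset.card_image_le
    have h2 : R / (R' / 2) ≤ 16 + Q / (2 * B) := by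
      have h3 : 1 / R' ≤ 8 / R + V0 / (4 * B) := by
        rcases min_choice (R / 8) (4 * B / V0) with h | h
        · rw [hR', h, one_div_div]
          have : 0 ≤ V0 / (4 * B) := by positivity
          linarith
        · rw [hR', h, one_div_div]
          have : 0 ≤ 8 / R := by positivity
          linarith
      calc R / (R' / 2) = 2 * R * (1 / R') := by field_simp
        _ ≤ 2 * R * (8 / R + V0 / (4 * B)) := mul_le_mul_of_nonneg_left h3 (by linarith)
        _ = 16 + (V0 * R) / (2 * B) := by field_simp; ring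
        _ ≤ 16 + Q / (2 * B) := by gcongr
    linarith
  · intro p hp
    obtain ⟨c', hc', rfl⟩ := Finset.mem_image.1 hp
    have hcI := hm0 c' hc'
    have hcc : |c' - c| ≤ R / 2 := by
      rw [abs_le]
      constructor <;> linarith [hcI.1, hcI.2]
    obtain ⟨x1, x2, x3⟩ := vel_near hB ⟨hR, hP'⟩ (s := c') (by linarith)
    rw [← hV0] at x1 x2 x3
    have hVc := abs_le.1 x3
    have hVl : V0 / 4 ≤ V a b m (ln b t c') := by linarith [hVc.1]
    simp only
    refine ⟨⟨hR'0, fun z hz => ?_⟩, ?_⟩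
    · have hcn : ‖(c' : ℂ) - c‖ ≤ R / 2 := by
        rw [← Complex.ofReal_sub, Complex.norm_real, Real.norm_eq_abs]
        exact hcc
      have hzn : ‖z - c‖ ≤ R := by
        calc ‖z - c‖ = ‖(z - c') + (c' - c)‖ := by congr 1; ring
          _ ≤ ‖z - c'‖ + ‖(c' : ℂ) - c‖ := norm_add_le _ _
          _ ≤ R := by linarith
      have hfin : 1 / (8 * B) * V0 / R * ‖z - c'‖ ≤ 1 / (8 * B) * V a b m (ln b t c') := by
        calc 1 / (8 * B) * V0 / R * ‖z - c'‖ ≤ 1 / (8 * B) * V0 / R * (R / 4) := by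
              apply mul_le_mul_of_nonneg_left _ (by positivity)
              linarith
          _ = 1 / (8 * B) * (V0 / 4) := by field_simp
          _ ≤ _ := mul_le_mul_of_nonneg_left hVl hε0.le
      constructor
      · exact (h36_cau (h36_dd a b t (m + 1)) hR (fun w hw => (hP' w hw).1) hzn (by linarith)).trans hfin
      · exact (h36_cau (h36_dd a b t m) hR (fun w hw => (hP' w hw).2) hzn (by linarith)).trans hfin
    · have h1 : V a b m (ln b t c') ≤ 2 * V0 := by linarith [hVc.2]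
      calc V a b m (ln b t c') * R' ≤ 2 * V0 * (4 * B / V0) :=
            mul_le_mul h1 hR'2 hR'0.le (by linarith)
        _ = 8 * B := by field_simp; ring
  · intro s hs
    have h1 := abs_le.1 hs
    obtain ⟨c', hc', h2⟩ := hz0 s ⟨by linarith [h1.1], by linarith [h1.2]⟩
    exact ⟨(c', R'), Finset.mem_image_of_mem _ hc', h2⟩

end Pool.Agent.Helper18.UY
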