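import Pool.Agent.Helper18.UC.Expo

/-! Project UY (MP_9ee088_an): all Lyapunov exponents above `6 log log |a|` of the standard map `S_a` live in one
ergodic component (analytic Yomdin version of project UC). Definitions.

Lines: fixed slope `b ∈ [0, 1]`, `ln b t s = (s, t + b s)`, label `t`, coordinate `s`. `xc a b t k` is the sequence of entire
functions with `(F a)^[n] (ln b t s) = (xc (n+1) s, xc n s)`; `V a b n q` is the size of the velocity `DF^n(q) (1, b)`. -/

set_option autoImplicit false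
open MeasureTheory Real Set

namespace Pool.Agent.Helper18.UY

open Pool.Agent.Helper18.UC

/-- the point with coordinate `s` on the line with label `t` and slope `b` -/
def ln (b t s : ℝ) : ℝ × ℝ := (s, t + b * s)

/-- line coordinates (coordinate, label) of a point of the plane -/
def lc (b : ℝ) (q : ℝ × ℝ) : ℝ × ℝ := (q.1, q.2 - b * q.1)

/-- first component of the velocity `DF^n(q) (1, b)` -/
noncomputable def wx (a b : ℝ) (n : ℕ) (q : ℝ × ℝ) : ℝ := M a n q 0 0 + b * M a n q 0 1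

/-- second component of the velocity -/
noncomputable def wy (a b : ℝ) (n : ℕ) (q : ℝ × ℝ) : ℝ := M a n q 1 0 + b * M a n q 1 1

/-- size of the velocity -/
noncomputable def V (a b : ℝ) (n : ℕ) (q : ℝ × ℝ) : ℝ := max |wx a b n q| |wy a b n q|

/-- the complexified orbit of a line -/
noncomputable def xc (a b t : ℝ) : ℕ → ℂ → ℂ
  | 0 => fun z => (t : ℂ) + b * z
  | 1 => fun z => z
  | k + 2 => fun z => 2 * xc a b t (k + 1) z + a * Complex.sin (2 * π * xc a b t (k + 1) z) - xc a b t k z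

/-- `(c, R)` is a piece at time `n` of the line `t`: on the complex disc of radius `2 R` around `c` the velocity
is nearly constant -/
def Pc (a b B t : ℝ) (n : ℕ) (c R : ℝ) : Prop :=
  0 < R ∧ ∀ z : ℂ, ‖z - c‖ ≤ 2 * R →
    ‖deriv (xc a b t (n + 1)) z - deriv (xc a b t (n + 1)) c‖ ≤ 1 / (8 * B) * V a b n (ln b t c) ∧
    ‖deriv (xc a b t n) z - deriv (xc a b t n) c‖ ≤ 1 / (8 * B) * V a b n (ln b t c)

/-- `n ≥ 1` is a long time of the point `s` of the line `t` -/
def Long (a b B : ℝ) (n : ℕ) (t s : ℝ) : Prop :=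
  B * V a b (n - 1) (ln b t s) ≤ V a b n (ln b t s) ∧
  ∀ s' : ℝ, |s' - s| ≤ B / V a b n (ln b t s) →
    |wx a b n (ln b t s') - wx a b n (ln b t s)| ≤ 1 / B * V a b n (ln b t s) ∧
    |wy a b n (ln b t s') - wy a b n (ln b t s)| ≤ 1 / B * V a b n (ln b t s)

/-- the interval `[α, α + h]` of the line `t` is stretched almost uniformly and almost horizontally
to length about `B` at time `n` -/
def GoodL (a b B : ℝ) (n : ℕ) (t α h : ℝ) : Prop :=
  0 < h ∧ B / 3 ≤ |wx a b n (ln b t α)| * h ∧ |wx a b n (ln b t α)| * h ≤ 2 * B ∧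
  ∀ u ∈ Icc α (α + h),
    |wx a b n (ln b t u) - wx a b n (ln b t α)| ≤ 3 / B * |wx a b n (ln b t α)| ∧
    |wy a b n (ln b t u)| ≤ 3 / B * |wx a b n (ln b t α)|

/-- points of `I × T` (line coordinates) whose orbit hits the reflection of `I' × T'` after `N` steps
modulo integer translations -/
def HitL (a b : ℝ) (N : ℕ) (I T I' T' : Set ℝ) : Set (ℝ × ℝ) :=
  {p | p.1 ∈ I ∧ p.2 ∈ T ∧
    ∃ u w : ℤ, lc b (sh (Prod.swap ((F a)^[N] (ln b p.2 p.1))) u w) ∈ I' ×ˢ T'}

/-- line coordinates in `[0,1)²` of a point of the torus -/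
noncomputable def rb (b : ℝ) (z : T2) : ℝ × ℝ :=
  ((rep z).1, Int.fract ((rep z).2 - b * (rep z).1))

/-- the set with line coordinates in `I × T` -/
def strip (b : ℝ) (I T : Set ℝ) : Set T2 := {z | (rb b z).1 ∈ I ∧ (rb b z).2 ∈ T}

/-- points for which `n` is a long time -/
def LG (a b B : ℝ) (n : ℕ) : Set T2 := {z | Long a b B n (rb b z).2 (rb b z).1}

/-- points with a large velocity at time `N` -/
def PV (a b c : ℝ) (N : ℕ) : Set T2 := {z | Real.exp (c * N) ≤ V a b N (rep z)}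

/-- points with many long times up to time `N` -/
def FQ (a b B θ : ℝ) (N : ℕ) : Set T2 :=
  {z | θ * N ≤ ∑ n ∈ Finset.Icc 1 N, (LG a b B n).indicator (fun _ => (1 : ℝ)) z}

/-- a countable disjoint family of strips stretched to the right size at time `n`, almost filled by `E` -/
def FamL (a b B : ℝ) (n : ℕ) (E : Set T2) (η : ℝ) (𝒬 : Set (Set T2)) : Prop :=
  𝒬.Countable ∧ 𝒬.PairwiseDisjoint id ∧
    (∀ Q ∈ 𝒬, ∃ (α h : ℝ) (T : Set ℝ), Q = strip b (Ico α (α + h)) T ∧ MeasurableSet T ∧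
      T ⊆ Ico 0 1 ∧ Ico α (α + h) ⊆ Ico 0 1 ∧ 0 < h ∧ ∀ t ∈ T, GoodL a b B n t α h) ∧
    ∀ Q ∈ 𝒬, volume (Q \ E) ≤ ENNReal.ofReal η * volume Q

lemma lc_ln (b t s : ℝ) : lc b (ln b t s) = (s, t) := by
  unfold lc ln; simp

lemma ln_lc (b : ℝ) (q : ℝ × ℝ) : ln b (lc b q).2 (lc b q).1 = q := by
  unfold lc ln; simp

lemma V_nonneg (a b : ℝ) (n : ℕ) (q : ℝ × ℝ) : 0 ≤ V a b n q :=
  le_max_of_le_left (abs_nonneg _)

lemma wx_le (a b : ℝ) (n : ℕ) (q : ℝ × ℝ) : |wx a b n q| ≤ V a b n q := le_max_left _ _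

lemma wy_le (a b : ℝ) (n : ℕ) (q : ℝ × ℝ) : |wy a b n q| ≤ V a b n q := le_max_right _ _

end Pool.Agent.Helper18.UY
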