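import Pool.Agent.Helper18.UY.RB

/-! Block UY-DENS: Lebesgue density along lines with dyadic intervals, uniform on a large subset.

For a label `t ∈ [0,1)` let `E_t = {s ∈ [0,1) | toT (ln b t s) ∈ E}`, a Borel set (`measurable_toT`). For `k`, `i ∈ ℤ` put
`J k i = [i/2^k, i/2^k + 1/2^k)`, `g k i t = volume {s ∈ J k i | toT (ln b t s) ∉ E}` (a measurable function of `t`:
`measurable_measure_prodMk_left` or `_right`). By the Lebesgue density theorem on `ℝ` (`J k ⌊2^k s⌋ ⊆ closedBall s 2^-k`, of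
half its measure; see the private lemma `density_pt` in `Helper18/UC/Dens.lean`, `IsUnifLocDoublingMeasure.ae_tendsto_measure_inter_div`
or `Besicovitch`/`VitaliFamily`), for every `t` and almost every `s ∈ E_t`: `g k ⌊2^k s⌋ t ≤ η/2^k` for all large `k` (for
`s ∈ [0,1)` the interval `J k ⌊2^k s⌋` is contained in `[0,1)`). Let
`G_m = {z ∈ E | ∀ k ≥ m, g k ⌊2^k (rb z).1⌋ (rb z).2 ≤ η/2^k}`: measurable (countable union over `i = ⌊2^k (rb z).1⌋`), increasing in
`m`, and by Fubini (`vol_rb`) the union has full measure in `E`; so `volume (E \ G_m) → 0`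
(`tendsto_measure_iInter_atTop` or continuity from below), and `E0 = G_m`, `k0 = m`. -/

set_option autoImplicit false
open MeasureTheory Real Set

namespace Pool.Agent.Helper18.UY

open Pool.Agent.Helper18.UC

private noncomputable def ctr40 (k : ℕ) (s : ℝ) : ℝ :=
  (⌊2 ^ k * s⌋ : ℝ) / 2 ^ k + 1 / 2 ^ (k + 1)

private lemma ctr_aux40 (k : ℕ) (x : ℝ) (m : ℤ) (h1 : (m : ℝ) / 2 ^ k ≤ x)
    (h2 : x ≤ (m : ℝ) / 2 ^ k + 1 / 2 ^ k) :
    |x - ((m : ℝ) / 2 ^ k + 1 / 2 ^ (k + 1))| ≤ 1 / 2 ^ (k + 1) := by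
  have e : (1 : ℝ) / 2 ^ k = 1 / 2 ^ (k + 1) + 1 / 2 ^ (k + 1) := by
    rw [pow_succ]
    field_simp
    norm_num
  rw [abs_le]
  constructor <;> linarith

private lemma floor_aux40 (k : ℕ) (x : ℝ) :
    ((⌊2 ^ k * x⌋ : ℤ) : ℝ) / 2 ^ k ≤ x ∧ x ≤ ((⌊2 ^ k * x⌋ : ℤ) : ℝ) / 2 ^ k + 1 / 2 ^ k := by
  have h2 : (0 : ℝ) < 2 ^ k := by positivity
  constructor
  · rw [div_le_iff₀ h2, mul_comm]
    exact Int.floor_le _
  · rw [← add_div, le_div_iff₀ h2, mul_comm]
    exact (Int.lt_floor_add_one _).le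

private lemma density_line40 {S' : Set ℝ} (hS' : MeasurableSet S') {η : ℝ} (hη : 0 < η) :
    ∀ᵐ q ∂(volume : Measure ℝ), q ∈ S' → ∀ᶠ k in Filter.atTop,
      volume (Metric.closedBall (ctr40 k q) (1 / 2 ^ (k + 1)) \ S') ≤ ENNReal.ofReal (η / 2 ^ k) := by
  have hd := IsUnifLocDoublingMeasure.ae_tendsto_measure_inter_div (volume : Measure ℝ) S' 1
  rw [ae_restrict_iff' hS'] at hd
  filter_upwards [hd] with q hq hqS
  have hlim : Filter.Tendsto (fun k : ℕ => (1 : ℝ) / 2 ^ (k + 1)) Filter.atTop (nhdsWithin 0 (Set.Ioi 0)) := by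
    rw [tendsto_nhdsWithin_iff]
    constructor
    · have h := (tendsto_pow_atTop_nhds_zero_of_lt_one (r := (1 / 2 : ℝ)) (by norm_num) (by norm_num))
      have h' := h.comp (Filter.tendsto_add_atTop_nat 1)
      refine h'.congr fun k => ?_
      simp only [Function.comp_apply, one_div, inv_pow]
    · exact Filter.Eventually.of_forall fun k => by
        show (0 : ℝ) < 1 / 2 ^ (k + 1)
        positivity
  have h1 := hq hqS (fun k : ℕ => ctr40 k q) (fun k : ℕ => (1 : ℝ) / 2 ^ (k + 1)) hlim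
    (Filter.Eventually.of_forall fun k => by
      rw [one_mul, Metric.mem_closedBall, Real.dist_eq]
      exact ctr_aux40 k q _ (floor_aux40 k q).1 (floor_aux40 k q).2)
  have h2 := (ENNReal.tendsto_toReal ENNReal.one_ne_top).comp h1
  rw [ENNReal.toReal_one] at h2
  have h3 := h2.eventually (lt_mem_nhds (show (1 : ℝ) - η < 1 by linarith))
  filter_upwards [h3] with k hk
  simp only [Function.comp_apply] at hk
  set B := Metric.closedBall (ctr40 k q) ((1 : ℝ) / 2 ^ (k + 1)) with hB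
  have hvB : volume B = ENNReal.ofReal (1 / 2 ^ k) := by
    rw [hB, Real.volume_closedBall]
    congr 1
    rw [pow_succ]
    field_simp
  have hBpos : (0 : ℝ) < 1 / 2 ^ k := by positivity
  have hvB' : (volume B).toReal = 1 / 2 ^ k := by
    rw [hvB, ENNReal.toReal_ofReal hBpos.le]
  have hfin : volume B ≠ ⊤ := by rw [hvB]; exact ENNReal.ofReal_ne_top
  have hadd : volume (B ∩ S') + volume (B \ S') = volume B := measure_inter_add_sdiff B hS'
  have hf1 : volume (B ∩ S') ≠ ⊤ := ne_top_of_le_ne_top hfin (measure_mono Set.inter_subset_left)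
  have hf2 : volume (B \ S') ≠ ⊤ := ne_top_of_le_ne_top hfin (measure_mono Set.sdiff_subset)
  have hadd' : (volume (B ∩ S')).toReal + (volume (B \ S')).toReal = 1 / 2 ^ k := by
    rw [← ENNReal.toReal_add hf1 hf2, hadd, hvB']
  rw [ENNReal.toReal_div, Set.inter_comm, hvB', lt_div_iff₀ hBpos] at hk
  rw [← ENNReal.ofReal_toReal hf2]
  refine ENNReal.ofReal_le_ofReal ?_
  have h4 : η / 2 ^ k = η * (1 / 2 ^ k) := by ring
  rw [h4]
  linarith

/-- The bad part of the dyadic interval `i` of level `k` of the line `t`. -/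
private noncomputable def gg40 (b : ℝ) (E : Set T2) (k : ℕ) (i : ℤ) (t : ℝ) : ENNReal :=
  volume {s : ℝ | s ∈ Ico ((i : ℝ) / 2 ^ k) ((i : ℝ) / 2 ^ k + 1 / 2 ^ k) ∧ toT (ln b t s) ∉ E}

private lemma meas_ln40 (b : ℝ) : Measurable (fun p : ℝ × ℝ => toT (ln b p.2 p.1)) := by
  refine measurable_toT.comp ?_
  unfold ln
  exact measurable_fst.prodMk (measurable_snd.add (measurable_fst.const_mul b))

private lemma gg_meas40 (b : ℝ) {E : Set T2} (hE : MeasurableSet E) (k : ℕ) (i : ℤ) :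
    Measurable (gg40 b E k i) := by
  have h1 : MeasurableSet {p : ℝ × ℝ | p.1 ∈ Ico ((i : ℝ) / 2 ^ k) ((i : ℝ) / 2 ^ k + 1 / 2 ^ k) ∧
      toT (ln b p.2 p.1) ∉ E} :=
    (measurable_fst measurableSet_Ico).inter ((meas_ln40 b) hE).compl
  exact measurable_measure_prodMk_right h1

private lemma gd_meas40 (b : ℝ) {E : Set T2} (hE : MeasurableSet E) (k : ℕ) (c : ENNReal) :
    MeasurableSet {p : ℝ × ℝ | gg40 b E k ⌊2 ^ k * p.1⌋ p.2 ≤ c} := by
  have h1 : {p : ℝ × ℝ | gg40 b E k ⌊2 ^ k * p.1⌋ p.2 ≤ c} =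
      ⋃ i : ℤ, {p : ℝ × ℝ | ⌊2 ^ k * p.1⌋ = i} ∩ {p : ℝ × ℝ | gg40 b E k i p.2 ≤ c} := by
    ext p
    simp only [mem_ofPred_eq, mem_iUnion, mem_inter_iff]
    constructor
    · intro h
      exact ⟨_, rfl, h⟩
    · rintro ⟨i, h2, h3⟩
      rw [h2]
      exact h3
  rw [h1]
  refine MeasurableSet.iUnion fun i => ?_
  have h2 : Measurable (fun p : ℝ × ℝ => ⌊2 ^ k * p.1⌋) := (measurable_fst.const_mul _).floor
  exact (h2 (measurableSet_singleton i)).inter
    (((gg_meas40 b hE k i).comp measurable_snd) measurableSet_Iic)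

theorem density1 (b : ℝ) {E : Set T2} (hE : MeasurableSet E) {η ε : ℝ} (hη : 0 < η) (hε : 0 < ε) :
    ∃ E0 ⊆ E, MeasurableSet E0 ∧ volume (E \ E0) ≤ ENNReal.ofReal ε ∧ ∃ k0 : ℕ, ∀ k ≥ k0, ∀ z ∈ E0,
      volume {s : ℝ | s ∈ Ico ((⌊2 ^ k * (rb b z).1⌋ : ℝ) / 2 ^ k)
          ((⌊2 ^ k * (rb b z).1⌋ : ℝ) / 2 ^ k + 1 / 2 ^ k) ∧ toT (ln b (rb b z).2 s) ∉ E} ≤
        ENNReal.ofReal (η / 2 ^ k) := by
  set D : ℕ → Set (ℝ × ℝ) := fun k =>
    {p | gg40 b E k ⌊2 ^ k * p.1⌋ p.2 ≤ ENNReal.ofReal (η / 2 ^ k)} with hD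
  have hDm : ∀ k, MeasurableSet (D k) := fun k => gd_meas40 b hE k _
  set A : ℕ → Set T2 := fun k0 => E ∩ ⋂ k ∈ Set.Ici k0, rb b ⁻¹' D k with hA
  have hAm : ∀ k0, MeasurableSet (A k0) := fun k0 =>
    hE.inter (MeasurableSet.biInter (Set.to_countable _) fun k _ => (measurable_rb b) (hDm k))
  have hmono : Monotone A := by
    intro a c hab z hz
    refine ⟨hz.1, ?_⟩
    rw [Set.mem_iInter₂]
    intro k hk
    exact Set.mem_iInter₂.1 hz.2 k (le_trans hab hk)
  set N : Set (ℝ × ℝ) := (Ico (0 : ℝ) 1 ×ˢ Ico (0 : ℝ) 1) ∩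
    ((fun p : ℝ × ℝ => toT (ln b p.2 p.1)) ⁻¹' E ∩ ⋂ m : ℕ, ⋃ k ∈ Set.Ici m, (D k)ᶜ) with hN
  have hNm : MeasurableSet N :=
    (measurableSet_Ico.prod measurableSet_Ico).inter (((meas_ln40 b) hE).inter
      (MeasurableSet.iInter fun m => MeasurableSet.biUnion (Set.to_countable _) fun k _ =>
        (hDm k).compl))
  have hN0 : volume N = 0 := by
    rw [Measure.volume_eq_prod, Measure.prod_apply_symm hNm]
    refine (lintegral_congr fun t => ?_).trans lintegral_zero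
    have hS' : MeasurableSet {s : ℝ | toT (ln b t s) ∈ E} :=
      ((meas_ln40 b).comp (measurable_id.prodMk measurable_const)) hE
    have hae := density_line40 hS' hη
    rw [ae_iff] at hae
    refine measure_mono_null ?_ hae
    intro s hs hgood
    have hs2 : toT (ln b t s) ∈ E := hs.2.1
    obtain ⟨m, hm⟩ := Filter.eventually_atTop.1 (hgood hs2)
    have hs3 := Set.mem_iInter.1 hs.2.2 m
    obtain ⟨k, hk, hkD⟩ := Set.mem_iUnion₂.1 hs3
    refine hkD ?_
    rw [hD, mem_ofPred_eq]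
    refine le_trans (measure_mono ?_) (hm k hk)
    rintro x ⟨hx1, hx2⟩
    refine ⟨?_, hx2⟩
    rw [Metric.mem_closedBall, Real.dist_eq]
    exact ctr_aux40 k x _ hx1.1 hx1.2.le
  have hnull : volume (⋂ k0, E \ A k0) = 0 := by
    have hsub : (⋂ k0, E \ A k0) ⊆ rb b ⁻¹' N := by
      intro z hz
      have hzE : z ∈ E := (Set.mem_iInter.1 hz 0).1
      refine ⟨rb_mem b z, ?_, ?_⟩
      · show toT (ln b (rb b z).2 (rb b z).1) ∈ E
        rwa [toT_ln_rb]
      · rw [Set.mem_iInter]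
        intro m
        by_contra hcon
        refine (Set.mem_iInter.1 hz m).2 ⟨hzE, ?_⟩
        rw [Set.mem_iInter₂]
        intro k hk
        by_contra hk2
        exact hcon (Set.mem_iUnion₂.2 ⟨k, hk, hk2⟩)
    refine measure_mono_null hsub ?_
    rw [vol_rb b hNm Set.inter_subset_left]
    exact hN0
  have hlim := tendsto_measure_iInter_atTop (μ := (volume : Measure T2)) (s := fun k0 => E \ A k0)
    (fun k0 => (hE.diff (hAm k0)).nullMeasurableSet)
    (fun a c hab => Set.sdiff_subset_sdiff_right (hmono hab)) ⟨0, measure_ne_top _ _⟩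
  rw [hnull] at hlim
  have hev := hlim.eventually (gt_mem_nhds (show (0 : ENNReal) < ENNReal.ofReal ε from ENNReal.ofReal_pos.2 hε))
  obtain ⟨k0, hk0⟩ := hev.exists
  refine ⟨A k0, Set.inter_subset_left, hAm k0, hk0.le, k0, fun k hk z hz => ?_⟩
  exact Set.mem_iInter₂.1 hz.2 k hk

end Pool.Agent.Helper18.UY
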