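import Mathlib

/-! Block UY-DYAD: few dyadic intervals cover the set where two polynomials are small. (Pure Mathlib.)

For `k ≤ K` and `i < 2^k` put `J k i = [-1/2 + i/2^k, -1/2 + (i+1)/2^k]`. Call `J` good if `‖P₁‖, ‖P₂‖ ≤ 4 G` on `J`. The family `𝒥`
consists of the good `J k i` with `k = 0`, or `1 ≤ k ≤ K` and such that the parent `J (k-1) (i/2)` contains a real number which
is a root of `Q = Q₁ Q₂`, `Qⱼ = Pⱼ * (Pⱼ.map conj) - C (9 G²)` (for real `x`: `Qⱼ.eval x = ‖Pⱼ.eval x‖² - 9 G²`).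
Covering: let `s ∈ [-1/2, 1/2]` with `‖Pⱼ(s)‖ ≤ 2 G` (`j = 1, 2`). For every `k` let `J k (i_k)` be the dyadic interval containing
`s`, with `i_k = min ⌊2^k (s + 1/2)⌋ (2^k - 1)`, so that `i_(k-1) = i_k / 2`. By `hK` the interval of level `K` is good. Take the
least `k` for which `J k (i_k)` is good. If `k ≥ 1` then some `x` in the parent has `‖Pⱼ(x)‖ > 4 G` for some `j`, and `‖Pⱼ(s)‖ ≤ 2 G`,
so by the intermediate value theorem `‖Pⱼ(r)‖ = 3 G` for some `r` between, `r` in the parent, a root of `Qⱼ`.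
Counting: if the set of these `s` is empty take the empty family. Otherwise `Qⱼ ≠ 0` (its value at such an `s` is negative), so
`Q` has at most `4 d` roots; every real number lies in at most two intervals of each level `k - 1`, so there are at most
`8 d` parents of each level and at most `16 d` members of level `k ≥ 1`. (`Polynomial.card_roots'`,
`Polynomial.natDegree_mul_le`, `Polynomial.natDegree_map_le`.) -/

set_option autoImplicit false
open Set Polynomial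

namespace Pool.Agent.Helper18.UY

/-- The polynomial `P * conj P - 9 G²`. -/
private noncomputable def qq40 (P : ℂ[X]) (G : ℝ) : ℂ[X] :=
  P * P.map (starRingEnd ℂ) - C (9 * (G : ℂ) ^ 2)

private lemma qq_eval40 (P : ℂ[X]) (G x : ℝ) :
    (qq40 P G).eval (x : ℂ) = ((‖P.eval (x : ℂ)‖ ^ 2 - 9 * G ^ 2 : ℝ) : ℂ) := by
  have h1 : (P.map (starRingEnd ℂ)).eval (x : ℂ) = starRingEnd ℂ (P.eval (x : ℂ)) := by
    rw [Polynomial.eval_map]
    have := Polynomial.hom_eval₂ P (RingHom.id ℂ) (starRingEnd ℂ) (x : ℂ)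
    rw [Complex.conj_ofReal, RingHomCompTriple.comp_eq] at this
    rw [← this]
    rfl
  unfold qq40
  rw [eval_sub, eval_mul, h1, eval_C, Complex.mul_conj']
  push_cast
  ring

private lemma qq_deg40 {P : ℂ[X]} {d : ℕ} (h : P.natDegree ≤ d) (G : ℝ) :
    (qq40 P G).natDegree ≤ 2 * d := by
  unfold qq40
  rw [natDegree_sub_C]
  have h1 := Polynomial.natDegree_mul_le (p := P) (q := P.map (starRingEnd ℂ))
  have h2 : (P.map (starRingEnd ℂ)).natDegree ≤ P.natDegree := natDegree_map_le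
  omega

private noncomputable def ii40 (s : ℝ) (k : ℕ) : ℕ := min ⌊2 ^ k * (s + 1 / 2)⌋₊ (2 ^ k - 1)

private lemma ii_lt40 (s : ℝ) (k : ℕ) : ii40 s k < 2 ^ k := by
  unfold ii40
  have : 0 < 2 ^ k := by positivity
  omega

private lemma ii_le40 {s : ℝ} (hs : |s| ≤ 1 / 2) (k : ℕ) : (ii40 s k : ℝ) ≤ 2 ^ k * (s + 1 / 2) := by
  have h0 : 0 ≤ (2 : ℝ) ^ k * (s + 1 / 2) := mul_nonneg (by positivity) (by linarith [neg_abs_le s])
  have h1 := Nat.floor_le h0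
  have h2 : (ii40 s k : ℝ) ≤ (⌊2 ^ k * (s + 1 / 2)⌋₊ : ℝ) :=
    Nat.cast_le.2 (min_le_left _ _)
  linarith

private lemma le_ii40 {s : ℝ} (hs : |s| ≤ 1 / 2) (k : ℕ) :
    2 ^ k * (s + 1 / 2) ≤ (ii40 s k : ℝ) + 1 := by
  unfold ii40
  rcases le_total ⌊2 ^ k * (s + 1 / 2)⌋₊ (2 ^ k - 1) with h | h
  · rw [min_eq_left h]
    exact (Nat.lt_floor_add_one _).le
  · rw [min_eq_right h]
    have h2 : (((2 ^ k - 1 : ℕ) : ℝ)) + 1 = 2 ^ k := by
      have h3 : 1 ≤ 2 ^ k := Nat.one_le_two_pow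
      push_cast [Nat.cast_sub h3]
      ring
    rw [h2]
    have h4 : s + 1 / 2 ≤ 1 := by linarith [le_abs_self s]
    have h5 : (0 : ℝ) < 2 ^ k := by positivity
    nlinarith

private lemma ii_succ40 (s : ℝ) (k : ℕ) :
    2 * ii40 s k ≤ ii40 s (k + 1) ∧ ii40 s (k + 1) ≤ 2 * ii40 s k + 1 := by
  have h1 : ⌊2 ^ k * (s + 1 / 2)⌋₊ = ⌊2 ^ (k + 1) * (s + 1 / 2)⌋₊ / 2 := by
    rw [← Nat.floor_div_ofNat]
    congr 1
    rw [pow_succ]
    ring
  have h2 : 1 ≤ 2 ^ k := Nat.one_le_two_pow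
  have h3 : 2 ^ (k + 1) = 2 * 2 ^ k := by rw [pow_succ]; ring
  unfold ii40
  rw [h1, h3]
  generalize ⌊2 ^ (k + 1) * (s + 1 / 2)⌋₊ = F
  generalize 2 ^ k = T at h2
  omega

theorem dyadic {P₁ P₂ : ℂ[X]} {d : ℕ} (h1 : P₁.natDegree ≤ d) (h2 : P₂.natDegree ≤ d) {G : ℝ} (hG : 0 < G)
    {K : ℕ} (hK : ∀ s x : ℝ, |s| ≤ 1 / 2 → |x| ≤ 1 / 2 → |s - x| ≤ 1 / 2 ^ K →
      ‖P₁.eval (s : ℂ)‖ ≤ 2 * G → ‖P₂.eval (s : ℂ)‖ ≤ 2 * G →
      ‖P₁.eval (x : ℂ)‖ ≤ 4 * G ∧ ‖P₂.eval (x : ℂ)‖ ≤ 4 * G) :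
    ∃ 𝒥 : Finset (ℝ × ℝ), 𝒥.card ≤ 1 + 16 * d * K ∧
      (∀ p ∈ 𝒥, 0 < p.2 ∧ -(1 / 2) ≤ p.1 ∧ p.1 + p.2 ≤ 1 / 2 ∧
        ∀ x : ℝ, p.1 ≤ x → x ≤ p.1 + p.2 → ‖P₁.eval (x : ℂ)‖ ≤ 4 * G ∧ ‖P₂.eval (x : ℂ)‖ ≤ 4 * G) ∧
      ∀ s : ℝ, |s| ≤ 1 / 2 → ‖P₁.eval (s : ℂ)‖ ≤ 2 * G → ‖P₂.eval (s : ℂ)‖ ≤ 2 * G →
        ∃ p ∈ 𝒥, p.1 ≤ s ∧ s ≤ p.1 + p.2 := by
  classical
  by_cases hex : ∃ s : ℝ, |s| ≤ 1 / 2 ∧ ‖P₁.eval (s : ℂ)‖ ≤ 2 * G ∧ ‖P₂.eval (s : ℂ)‖ ≤ 2 * G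
  swap
  · refine ⟨∅, by simp, by simp, ?_⟩
    intro s hs ha hb
    exact absurd ⟨s, hs, ha, hb⟩ hex
  obtain ⟨s₀, -, ha₀, hb₀⟩ := hex
  -- the roots
  have hne : ∀ P : ℂ[X], ‖P.eval (s₀ : ℂ)‖ ≤ 2 * G → qq40 P G ≠ 0 := by
    intro P hP h0
    have h3 := qq_eval40 P G s₀
    rw [h0, eval_zero] at h3
    have h4 : ‖P.eval (s₀ : ℂ)‖ ^ 2 - 9 * G ^ 2 = 0 := by exact_mod_cast h3.symm
    have h5 := norm_nonneg (P.eval (s₀ : ℂ))
    nlinarith
  set Q : ℂ[X] := qq40 P₁ G * qq40 P₂ G with hQ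
  have hQ0 : Q ≠ 0 := mul_ne_zero (hne P₁ ha₀) (hne P₂ hb₀)
  have hQd : Q.natDegree ≤ 4 * d := by
    have h3 := Polynomial.natDegree_mul_le (p := qq40 P₁ G) (q := qq40 P₂ G)
    have h4 := qq_deg40 h1 G
    have h5 := qq_deg40 h2 G
    rw [← hQ] at h3
    omega
  set Rt : Finset ℝ := Q.roots.toFinset.image Complex.re with hRt
  have hRtc : Rt.card ≤ 4 * d :=
    (Finset.card_image_le.trans (Multiset.toFinset_card_le _)).trans
      ((Polynomial.card_roots' Q).trans hQd)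
  have hRtm : ∀ r : ℝ, ‖P₁.eval (r : ℂ)‖ = 3 * G ∨ ‖P₂.eval (r : ℂ)‖ = 3 * G → r ∈ Rt := by
    intro r hr
    rw [hRt, Finset.mem_image]
    refine ⟨(r : ℂ), ?_, Complex.ofReal_re r⟩
    rw [Multiset.mem_toFinset, mem_roots hQ0, IsRoot.def, hQ, eval_mul, qq_eval40, qq_eval40]
    rcases hr with hr | hr
    · rw [hr]
      have : ((3 * G) ^ 2 - 9 * G ^ 2 : ℝ) = 0 := by ring
      rw [this, Complex.ofReal_zero, zero_mul]
    · rw [hr]
      have : ((3 * G) ^ 2 - 9 * G ^ 2 : ℝ) = 0 := by ring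
      rw [this, Complex.ofReal_zero, mul_zero]
  -- the intervals
  let good : ℝ × ℝ → Prop := fun p =>
    ∀ x : ℝ, p.1 ≤ x → x ≤ p.1 + p.2 → ‖P₁.eval (x : ℂ)‖ ≤ 4 * G ∧ ‖P₂.eval (x : ℂ)‖ ≤ 4 * G
  let Jv : ℕ → ℕ → ℝ × ℝ := fun k i => (-(1 / 2) + i / 2 ^ k, 1 / 2 ^ k)
  let n : ℕ → ℝ → ℕ := fun k r => ⌊2 ^ k * (r + 1 / 2)⌋₊
  let lev : ℕ → Finset (ℝ × ℝ) := fun k => Rt.biUnion fun r =>
    ((Finset.Icc (2 * n k r - 2) (2 * n k r + 1)).filter (fun i => i < 2 ^ (k + 1))).image (Jv (k + 1))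
  refine ⟨(insert (Jv 0 0) ((Finset.range K).biUnion lev)).filter good, ?_, ?_, ?_⟩
  · have h3 : ∀ k, (lev k).card ≤ 16 * d := by
      intro k
      calc (lev k).card ≤ ∑ r ∈ Rt, (((Finset.Icc (2 * n k r - 2) (2 * n k r + 1)).filter
            (fun i => i < 2 ^ (k + 1))).image (Jv (k + 1))).card := Finset.card_biUnion_le
        _ ≤ ∑ _r ∈ Rt, 4 := by
            refine Finset.sum_le_sum fun r _ => ?_
            refine (Finset.card_image_le.trans (Finset.card_filter_le _ _)).trans ?_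
            rw [Nat.card_Icc]
            omega
        _ = Rt.card * 4 := by rw [Finset.sum_const, smul_eq_mul]
        _ ≤ 16 * d := by omega
    calc _ ≤ (insert (Jv 0 0) ((Finset.range K).biUnion lev)).card := Finset.card_filter_le _ _
      _ ≤ ((Finset.range K).biUnion lev).card + 1 := Finset.card_insert_le _ _
      _ ≤ (∑ k ∈ Finset.range K, (lev k).card) + 1 := by
          have := Finset.card_biUnion_le (s := Finset.range K) (t := lev)
          omega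
      _ ≤ (∑ _k ∈ Finset.range K, 16 * d) + 1 := by
          have := Finset.sum_le_sum (s := Finset.range K) fun k _ => h3 k
          omega
      _ = 1 + 16 * d * K := by
          rw [Finset.sum_const, Finset.card_range, smul_eq_mul]
          ring
  · intro p hp
    rw [Finset.mem_filter, Finset.mem_insert, Finset.mem_biUnion] at hp
    obtain ⟨hp, hgp⟩ := hp
    have key : ∀ k i : ℕ, i < 2 ^ k → 0 < (Jv k i).2 ∧ -(1 / 2) ≤ (Jv k i).1 ∧
        (Jv k i).1 + (Jv k i).2 ≤ 1 / 2 := by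
      intro k i hi
      have h3 : (0 : ℝ) < 2 ^ k := by positivity
      have h4 : ((i : ℝ) + 1) ≤ 2 ^ k := by exact_mod_cast hi
      refine ⟨by positivity, ?_, ?_⟩
      · show -(1 / 2) ≤ -(1 / 2) + (i : ℝ) / 2 ^ k
        have : 0 ≤ (i : ℝ) / 2 ^ k := by positivity
        linarith
      · show -(1 / 2) + (i : ℝ) / 2 ^ k + 1 / 2 ^ k ≤ 1 / 2
        have h5 : (i : ℝ) / 2 ^ k + 1 / 2 ^ k = ((i : ℝ) + 1) / 2 ^ k := by ring
        have h6 : ((i : ℝ) + 1) / 2 ^ k ≤ 1 := by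
          rw [div_le_one h3]
          exact h4
        linarith
    rcases hp with rfl | ⟨k, -, hk⟩
    · have h3 := key 0 0 (by norm_num)
      exact ⟨h3.1, h3.2.1, h3.2.2, hgp⟩
    · obtain ⟨r, -, hr⟩ := Finset.mem_biUnion.1 hk
      obtain ⟨i, hi, rfl⟩ := Finset.mem_image.1 hr
      have h3 := key (k + 1) i (Finset.mem_filter.1 hi).2
      exact ⟨h3.1, h3.2.1, h3.2.2, hgp⟩
  · intro s hs ha hb
    have hin : ∀ k, (Jv k (ii40 s k)).1 ≤ s ∧ s ≤ (Jv k (ii40 s k)).1 + (Jv k (ii40 s k)).2 := by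
      intro k
      have h3 : (0 : ℝ) < 2 ^ k := by positivity
      have h4 := ii_le40 hs k
      have h5 := le_ii40 hs k
      constructor
      · show -(1 / 2) + (ii40 s k : ℝ) / 2 ^ k ≤ s
        have : (ii40 s k : ℝ) / 2 ^ k ≤ s + 1 / 2 := by
          rw [div_le_iff₀ h3]
          linarith
        linarith
      · show s ≤ -(1 / 2) + (ii40 s k : ℝ) / 2 ^ k + 1 / 2 ^ k
        have h6 : (ii40 s k : ℝ) / 2 ^ k + 1 / 2 ^ k = ((ii40 s k : ℝ) + 1) / 2 ^ k := by ring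
        have : s + 1 / 2 ≤ ((ii40 s k : ℝ) + 1) / 2 ^ k := by
          rw [le_div_iff₀ h3]
          linarith
        linarith
    have hbd : ∀ k (x : ℝ), (Jv k (ii40 s k)).1 ≤ x → x ≤ (Jv k (ii40 s k)).1 + (Jv k (ii40 s k)).2 →
        |x| ≤ 1 / 2 := by
      intro k x hx1 hx2
      have h3 : (0 : ℝ) < 2 ^ k := by positivity
      have h4 : ((ii40 s k : ℝ) + 1) ≤ 2 ^ k := by exact_mod_cast ii_lt40 s k
      change -(1 / 2) + (ii40 s k : ℝ) / 2 ^ k ≤ x at hx1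
      change x ≤ -(1 / 2) + (ii40 s k : ℝ) / 2 ^ k + 1 / 2 ^ k at hx2
      have h5 : 0 ≤ (ii40 s k : ℝ) / 2 ^ k := by positivity
      have h6 : (ii40 s k : ℝ) / 2 ^ k + 1 / 2 ^ k = ((ii40 s k : ℝ) + 1) / 2 ^ k := by ring
      have h7 : ((ii40 s k : ℝ) + 1) / 2 ^ k ≤ 1 := by
        rw [div_le_one h3]
        exact h4
      rw [abs_le]
      constructor <;> linarith
    have hgK : good (Jv K (ii40 s K)) := by
      intro x hx1 hx2
      refine hK s x hs (hbd K x hx1 hx2) ?_ ha hb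
      have h3 := hin K
      change -(1 / 2) + (ii40 s K : ℝ) / 2 ^ K ≤ x at hx1
      change x ≤ -(1 / 2) + (ii40 s K : ℝ) / 2 ^ K + 1 / 2 ^ K at hx2
      have h4 : -(1 / 2) + (ii40 s K : ℝ) / 2 ^ K ≤ s := h3.1
      have h5 : s ≤ -(1 / 2) + (ii40 s K : ℝ) / 2 ^ K + 1 / 2 ^ K := h3.2
      rw [abs_le]
      constructor <;> linarith
    have hexk : ∃ k, good (Jv k (ii40 s k)) := ⟨K, hgK⟩
    set k := Nat.find hexk with hk
    have hkg : good (Jv k (ii40 s k)) := Nat.find_spec hexk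
    have hkK : k ≤ K := Nat.find_min' hexk hgK
    refine ⟨Jv k (ii40 s k), ?_, hin k⟩
    rw [Finset.mem_filter]
    refine ⟨?_, hkg⟩
    rcases Nat.eq_zero_or_pos k with h0 | hpos
    · rw [h0]
      have : ii40 s 0 = 0 := by
        have := ii_lt40 s 0
        rw [pow_zero] at this
        omega
      rw [this]
      exact Finset.mem_insert_self _ _
    · obtain ⟨k', hk'⟩ : ∃ k', k = k' + 1 := ⟨k - 1, by omega⟩
      have hng : ¬ good (Jv k' (ii40 s k')) := Nat.find_min hexk (by omega)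
      rw [hk']
      refine Finset.mem_insert_of_mem (Finset.mem_biUnion.2 ⟨k', Finset.mem_range.2 (by omega), ?_⟩)
      -- the root in the parent
      have hroot : ∃ r ∈ Rt, (Jv k' (ii40 s k')).1 ≤ r ∧
          r ≤ (Jv k' (ii40 s k')).1 + (Jv k' (ii40 s k')).2 := by
        have h3 : ∃ x : ℝ, (Jv k' (ii40 s k')).1 ≤ x ∧
            x ≤ (Jv k' (ii40 s k')).1 + (Jv k' (ii40 s k')).2 ∧
            (4 * G < ‖P₁.eval (x : ℂ)‖ ∨ 4 * G < ‖P₂.eval (x : ℂ)‖) := by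
          by_contra hcon
          push Not at hcon
          exact hng fun x hx1 hx2 => hcon x hx1 hx2
        obtain ⟨x, hx1, hx2, hx3⟩ := h3
        have h4 : ∀ P : ℂ[X], ‖P.eval (s : ℂ)‖ ≤ 2 * G → 4 * G < ‖P.eval (x : ℂ)‖ →
            ∃ r, (Jv k' (ii40 s k')).1 ≤ r ∧
              r ≤ (Jv k' (ii40 s k')).1 + (Jv k' (ii40 s k')).2 ∧ ‖P.eval (r : ℂ)‖ = 3 * G := by
          intro P hPs hPx
          have hcont : ContinuousOn (fun t : ℝ => ‖P.eval (t : ℂ)‖) (uIcc s x) :=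
            ((P.continuous.comp Complex.continuous_ofReal).norm).continuousOn
          have h5 := intermediate_value_uIcc hcont
          have h6 : 3 * G ∈ uIcc ‖P.eval (s : ℂ)‖ ‖P.eval (x : ℂ)‖ := by
            rw [mem_uIcc]
            left
            constructor <;> linarith
          obtain ⟨r, hr1, hr2⟩ := h5 h6
          have h7 := hin k'
          rcases mem_uIcc.1 hr1 with h8 | h8
          · exact ⟨r, h7.1.trans h8.1, h8.2.trans hx2, hr2⟩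
          · exact ⟨r, hx1.trans h8.1, h8.2.trans h7.2, hr2⟩
        rcases hx3 with hx3 | hx3
        · obtain ⟨r, hr1, hr2, hr3⟩ := h4 P₁ ha hx3
          exact ⟨r, hRtm r (Or.inl hr3), hr1, hr2⟩
        · obtain ⟨r, hr1, hr2, hr3⟩ := h4 P₂ hb hx3
          exact ⟨r, hRtm r (Or.inr hr3), hr1, hr2⟩
      obtain ⟨r, hr, hr1, hr2⟩ := hroot
      refine Finset.mem_biUnion.2 ⟨r, hr, Finset.mem_image.2 ⟨ii40 s (k' + 1), ?_, rfl⟩⟩
      rw [Finset.mem_filter, Finset.mem_Icc]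
      refine ⟨?_, ii_lt40 s _⟩
      have h3 : (0 : ℝ) < 2 ^ k' := by positivity
      change -(1 / 2) + (ii40 s k' : ℝ) / 2 ^ k' ≤ r at hr1
      change r ≤ -(1 / 2) + (ii40 s k' : ℝ) / 2 ^ k' + 1 / 2 ^ k' at hr2
      have h4 : (ii40 s k' : ℝ) ≤ 2 ^ k' * (r + 1 / 2) := by
        have h5 : (ii40 s k' : ℝ) / 2 ^ k' ≤ r + 1 / 2 := by linarith
        rw [div_le_iff₀ h3] at h5
        linarith
      have h6 : 2 ^ k' * (r + 1 / 2) ≤ (ii40 s k' : ℝ) + 1 := by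
        have h7 : (ii40 s k' : ℝ) / 2 ^ k' + 1 / 2 ^ k' = ((ii40 s k' : ℝ) + 1) / 2 ^ k' := by ring
        have h5 : r + 1 / 2 ≤ ((ii40 s k' : ℝ) + 1) / 2 ^ k' := by linarith
        rw [le_div_iff₀ h3] at h5
        linarith
      have h8 : ii40 s k' ≤ n k' r := Nat.le_floor h4
      have h9 : n k' r ≤ ii40 s k' + 1 := by
        have h10 : (n k' r : ℝ) ≤ 2 ^ k' * (r + 1 / 2) := by
          refine Nat.floor_le ?_
          refine le_trans ?_ h4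
          positivity
        have h11 : (n k' r : ℝ) ≤ ((ii40 s k' + 1 : ℕ) : ℝ) := by
          push_cast
          linarith
        exact_mod_cast h11
      have h12 := ii_succ40 s k'
      constructor <;> omega

end Pool.Agent.Helper18.UY
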