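import Pool.Agent.Helper18.UY.Good

/-! Block UY-ENTRY: the derivative of a return, and measurability of the hits.

`entryL`: with `q'' = sh (swap (F^[N] q)) u w`, `N = m + n'`, `z = F^[m] q`, `P = M n' q''`, `Z = M n' z`: `M N q = Z * M m q` (`M_add`),
`P * R * Z = R`, `R = !![0,1;1,0]` (`M_rev`, `M_sh`), `det P = 1` give `Z 0 0 = P 0 0`, `Z 0 1 = -P 1 0`, `Z 1 0 = -P 0 1`, `Z 1 1 = P 1 1`
(copy the private lemma `entry` of `Helper18/UC/MeasUp.lean`). So `wx N q - b wy N q = (1, -b) Z (wx m q, wy m q)^T`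
`= wx n' q'' · wx m q - wy n' q'' · wy m q`.
`deriv_label`: the label (second line coordinate) of the shifted return of `ln b t σ` is `X - b Y + const` with
`(X, Y) = F^[N] (ln b t σ)` (`hasDerivAt_ln`).
`relL`: `iter_sh`, `Function.iterate_add_apply`, `F_rev` (private lemma `rel` of `Helper18/UC/MeasUp.lean`).
`measurableSet_hitL`: countable union over `u, w` of preimages under continuous maps. -/

set_option autoImplicit false
open MeasureTheory Real Set

namespace Pool.Agent.Helper18.UY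

open Pool.Agent.Helper18.UC

theorem entryL (a b : ℝ) (m n' : ℕ) (q : ℝ × ℝ) (u w : ℤ) :
    wx a b (m + n') q - b * wy a b (m + n') q =
      wx a b n' (sh (Prod.swap ((F a)^[m + n'] q)) u w) * wx a b m q -
        wy a b n' (sh (Prod.swap ((F a)^[m + n'] q)) u w) * wy a b m q := by
  unfold wx wy
  rw [M_sh, M_add, add_comm m n', Function.iterate_add_apply]
  set z := (F a)^[m] q with hz
  have hrev := M_rev a n' z
  have hdet := det_M a n' (Prod.swap ((F a)^[n'] z))
  set P := M a n' (Prod.swap ((F a)^[n'] z)) with hP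
  set Z := M a n' z with hZ
  rw [Matrix.det_fin_two] at hdet
  have e00 := congrFun (congrFun hrev 0) 0
  have e01 := congrFun (congrFun hrev 0) 1
  have e10 := congrFun (congrFun hrev 1) 0
  have e11 := congrFun (congrFun hrev 1) 1
  simp [Matrix.mul_apply, Fin.sum_univ_two] at e00 e01 e10 e11
  have z00 : Z 0 0 = P 0 0 := by
    linear_combination (-(Z 0 0)) * hdet + P 0 0 * e10 - P 1 0 * e00
  have z10 : Z 1 0 = -P 0 1 := by
    linear_combination (-(Z 1 0)) * hdet + P 1 1 * e00 - P 0 1 * e10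
  have z01 : Z 0 1 = -P 1 0 := by
    linear_combination (-(Z 0 1)) * hdet + P 0 0 * e11 - P 1 0 * e01
  have z11 : Z 1 1 = P 1 1 := by
    linear_combination (-(Z 1 1)) * hdet + P 1 1 * e01 - P 0 1 * e11
  simp only [Matrix.mul_apply, Fin.sum_univ_two, z00, z01, z10, z11]
  ring

theorem deriv_label (a b : ℝ) (N : ℕ) (t σ : ℝ) (u w : ℤ) :
    HasDerivAt (fun x : ℝ => (lc b (sh (Prod.swap ((F a)^[N] (ln b t x))) u w)).2)
      (wx a b N (ln b t σ) - b * wy a b N (ln b t σ)) σ := by
  obtain ⟨h1, h2⟩ := hasDerivAt_ln a b N t σ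
  have h3 : (fun x : ℝ => (lc b (sh (Prod.swap ((F a)^[N] (ln b t x))) u w)).2) =
      fun x : ℝ => (((F a)^[N] (ln b t x)).1 + (w : ℝ)) - b * (((F a)^[N] (ln b t x)).2 + (u : ℝ)) := by
    funext x
    simp [lc, sh]
  rw [h3]
  exact (h1.add_const _).sub ((h2.add_const _).const_mul b)

theorem relL (a : ℝ) (m n' : ℕ) (q : ℝ × ℝ) (u w : ℤ) :
    (F a)^[n'] (sh (Prod.swap ((F a)^[m + n'] q)) u w) =
      sh (Prod.swap ((F a)^[m] q)) (u + n' * (u - w)) (w + n' * (u - w)) := by
  rw [iter_sh, add_comm m n', Function.iterate_add_apply, F_rev]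

theorem measurableSet_hitL (a b : ℝ) (N : ℕ) {I T I' T' : Set ℝ} (hI : MeasurableSet I)
    (hT : MeasurableSet T) (hI' : MeasurableSet I') (hT' : MeasurableSet T') :
    MeasurableSet (HitL a b N I T I' T') := by
  have h1 : HitL a b N I T I' T' = (Prod.fst ⁻¹' I) ∩ ((Prod.snd ⁻¹' T) ∩
      ⋃ u : ℤ, ⋃ w : ℤ, (fun p : ℝ × ℝ =>
        lc b (sh (Prod.swap ((F a)^[N] (ln b p.2 p.1))) u w)) ⁻¹' (I' ×ˢ T')) := by
    ext p
    simp only [HitL, mem_inter_iff, mem_preimage, mem_iUnion]
    rfl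
  rw [h1]
  refine (measurable_fst hI).inter ((measurable_snd hT).inter ?_)
  refine MeasurableSet.iUnion fun u => MeasurableSet.iUnion fun w => ?_
  have hc : Continuous (fun p : ℝ × ℝ => lc b (sh (Prod.swap ((F a)^[N] (ln b p.2 p.1))) u w)) := by
    have h2 : Continuous (fun p : ℝ × ℝ => ln b p.2 p.1) := by
      unfold ln
      exact continuous_fst.prodMk (continuous_snd.add (continuous_const.mul continuous_fst))
    have h3 : Continuous (fun p : ℝ × ℝ => Prod.swap ((F a)^[N] (ln b p.2 p.1))) :=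
      continuous_swap.comp (((F_cont a).iterate N).comp h2)
    unfold lc sh
    exact (h3.fst.add continuous_const).prodMk
      ((h3.snd.add continuous_const).sub (continuous_const.mul (h3.fst.add continuous_const)))
  exact hc.measurable (hI'.prod hT')

end Pool.Agent.Helper18.UY
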