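import Mathlib

/-! Block UY-FAM: disjoint dyadic strips. (Pure Mathlib.)

`J k i = [i/2^k, i/2^k + 1/2^k)`. Let `p k i = {t | 0 < volume {s ∈ J k i | (s, t) ∈ W k}}`, a measurable set of labels
(`measurable_measure_prodMk_right`-type lemmas). Put `T k i = p k i \ ⋃_{k' < k} p k' (i / 2^(k-k'))`. Measurable, contained in `[0,1)` and
empty for `i ≥ 2^k` (as `W k ⊆ [0,1)²`). If `t ∈ T k i`, the slice has positive measure, so it is not empty.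
Disjointness: let `(s, t)` be in both `J k i × T k i` and `J k' i' × T k' i'`. If `k' < k` then `J k i ⊆ J k' (i/2^(k-k'))`, which
contains `s`, so `i' = i/2^(k-k')` and `t ∈ p k' i'` contradicts `t ∈ T k i`. If `k = k'` then `i = i'`.
Full measure: let `N` be the union over `k, i` of `{(s, t) | s ∈ J k i, (s, t) ∈ W k, t ∉ p k i}`, a null set (all its
slices `{s | …}` are null; it is measurable; `Measure.prod_apply_symm`/`measure_prod_null`-type lemma). If `(s, t) ∈ W k \ N`, let `i = ⌊2^k s⌋`: `t ∈ p k i`;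
let `k' ≤ k` be the least level with `t ∈ p k' ⌊2^k' s⌋` (`⌊2^k' s⌋ = i/2^(k-k')`); then `t ∈ T k' ⌊2^k' s⌋`. -/

set_option autoImplicit false
open MeasureTheory Set

namespace Pool.Agent.Helper18.UY

private theorem mem_J45 (k i : ℕ) (s : ℝ) :
    s ∈ Ico ((i : ℝ) / 2 ^ k) ((i : ℝ) / 2 ^ k + 1 / 2 ^ k) ↔ 0 ≤ s ∧ ⌊2 ^ k * s⌋₊ = i := by
  have h2 : (0 : ℝ) < 2 ^ k := by positivity
  rw [mem_Ico, ← add_div, div_le_iff₀ h2, lt_div_iff₀ h2]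
  constructor
  · rintro ⟨h3, h4⟩
    have h5 : (0 : ℝ) ≤ i := Nat.cast_nonneg i
    have h6 : 0 ≤ s := by
      by_contra hs
      push Not at hs
      have := mul_neg_of_neg_of_pos hs h2
      linarith
    refine ⟨h6, ?_⟩
    rw [Nat.floor_eq_iff (by positivity)]
    exact ⟨by linarith, by linarith⟩
  · rintro ⟨h3, h4⟩
    rw [Nat.floor_eq_iff (by positivity)] at h4
    exact ⟨by linarith [h4.1], by linarith [h4.2]⟩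

private theorem floor45 {k k' : ℕ} (h : k' ≤ k) (s : ℝ) :
    ⌊(2 : ℝ) ^ k * s⌋₊ / 2 ^ (k - k') = ⌊(2 : ℝ) ^ k' * s⌋₊ := by
  have h1 : (2 : ℝ) ^ k' * s = (2 : ℝ) ^ k * s / ((2 ^ (k - k') : ℕ) : ℝ) := by
    have h2 : (2 : ℝ) ^ k = 2 ^ k' * 2 ^ (k - k') := by rw [← pow_add, Nat.add_sub_cancel' h]
    rw [h2]
    push_cast
    field_simp
  rw [h1, Nat.floor_div_natCast]

private def P45 (W : ℕ → Set (ℝ × ℝ)) (k i : ℕ) : Set ℝ :=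
  {t | volume {s : ℝ | s ∈ Ico ((i : ℝ) / 2 ^ k) ((i : ℝ) / 2 ^ k + 1 / 2 ^ k) ∧ (s, t) ∈ W k} ≠ 0}

private theorem P_ex45 {W : ℕ → Set (ℝ × ℝ)} {k i : ℕ} {t : ℝ} (ht : t ∈ P45 W k i) :
    ∃ s ∈ Ico ((i : ℝ) / 2 ^ k) ((i : ℝ) / 2 ^ k + 1 / 2 ^ k), (s, t) ∈ W k := by
  obtain ⟨s, hs⟩ := nonempty_of_measure_ne_zero ht
  exact ⟨s, hs.1, hs.2⟩

private theorem P_meas45 (W : ℕ → Set (ℝ × ℝ)) (hW : ∀ k, MeasurableSet (W k)) (k i : ℕ) :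
    MeasurableSet (P45 W k i) := by
  have h1 : MeasurableSet ((Ico ((i : ℝ) / 2 ^ k) ((i : ℝ) / 2 ^ k + 1 / 2 ^ k) ×ˢ
      (univ : Set ℝ)) ∩ W k) := (measurableSet_Ico.prod MeasurableSet.univ).inter (hW k)
  have h2 := measurable_measure_prodMk_right (μ := (volume : Measure ℝ)) h1
  have h3 : P45 W k i = (fun t => volume ((fun x : ℝ => (x, t)) ⁻¹'
      ((Ico ((i : ℝ) / 2 ^ k) ((i : ℝ) / 2 ^ k + 1 / 2 ^ k) ×ˢ
      (univ : Set ℝ)) ∩ W k))) ⁻¹' {0}ᶜ := by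
    ext t
    have h4 : {s : ℝ | s ∈ Ico ((i : ℝ) / 2 ^ k) ((i : ℝ) / 2 ^ k + 1 / 2 ^ k) ∧ (s, t) ∈ W k} =
        (fun x : ℝ => (x, t)) ⁻¹' ((Ico ((i : ℝ) / 2 ^ k) ((i : ℝ) / 2 ^ k + 1 / 2 ^ k) ×ˢ
      (univ : Set ℝ)) ∩ W k) := by
      ext s
      constructor
      · rintro ⟨h5, h6⟩
        exact ⟨⟨h5, trivial⟩, h6⟩
      · rintro ⟨⟨h5, -⟩, h6⟩
        exact ⟨h5, h6⟩
    show volume _ ≠ 0 ↔ volume _ ∈ ({0}ᶜ : Set ENNReal)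
    rw [h4]
    exact Iff.rfl
  rw [h3]
  exact h2 (measurableSet_singleton 0).compl

private theorem null45 (W : ℕ → Set (ℝ × ℝ)) (hW : ∀ k, MeasurableSet (W k)) (k i : ℕ) :
    volume {p : ℝ × ℝ | p.1 ∈ Ico ((i : ℝ) / 2 ^ k) ((i : ℝ) / 2 ^ k + 1 / 2 ^ k) ∧ p ∈ W k ∧
      p.2 ∉ P45 W k i} = 0 := by
  have h1 : MeasurableSet {p : ℝ × ℝ | p.1 ∈ Ico ((i : ℝ) / 2 ^ k) ((i : ℝ) / 2 ^ k + 1 / 2 ^ k) ∧
      p ∈ W k ∧ p.2 ∉ P45 W k i} :=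
    (measurable_fst measurableSet_Ico).inter
      ((hW k).inter (measurable_snd (P_meas45 W hW k i).compl))
  rw [Measure.volume_eq_prod, Measure.prod_apply_symm h1]
  rw [lintegral_eq_zero_iff (measurable_measure_prodMk_right h1)]
  refine Filter.Eventually.of_forall fun t => ?_
  show volume _ = 0
  by_cases ht : t ∈ P45 W k i
  · have h2 : (fun x : ℝ => (x, t)) ⁻¹' {p : ℝ × ℝ | p.1 ∈ Ico ((i : ℝ) / 2 ^ k)
        ((i : ℝ) / 2 ^ k + 1 / 2 ^ k) ∧ p ∈ W k ∧ p.2 ∉ P45 W k i} = ∅ := by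
      ext s
      simp only [mem_empty_iff_false, iff_false]
      rintro ⟨-, -, h3⟩
      exact h3 ht
    rw [h2, measure_empty]
  · have h2 : volume {s : ℝ | s ∈ Ico ((i : ℝ) / 2 ^ k) ((i : ℝ) / 2 ^ k + 1 / 2 ^ k) ∧
        (s, t) ∈ W k} = 0 := by
      by_contra h3
      exact ht h3
    refine measure_mono_null ?_ h2
    rintro s ⟨h3, h4, -⟩
    exact ⟨h3, h4⟩

theorem exists_strips (W : ℕ → Set (ℝ × ℝ)) (hW : ∀ k, MeasurableSet (W k))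
    (hW1 : ∀ k, W k ⊆ Ico (0 : ℝ) 1 ×ˢ Ico (0 : ℝ) 1) :
    ∃ T : ℕ → ℕ → Set ℝ, (∀ k i : ℕ, MeasurableSet (T k i)) ∧ (∀ k i : ℕ, T k i ⊆ Ico 0 1) ∧
      (∀ k i : ℕ, 2 ^ k ≤ i → T k i = ∅) ∧
      (∀ k i : ℕ, ∀ t ∈ T k i, ∃ s ∈ Ico ((i : ℝ) / 2 ^ k) ((i : ℝ) / 2 ^ k + 1 / 2 ^ k), (s, t) ∈ W k) ∧
      (∀ k i k' i' : ℕ, (k, i) ≠ (k', i') →
        Disjoint (Ico ((i : ℝ) / 2 ^ k) ((i : ℝ) / 2 ^ k + 1 / 2 ^ k) ×ˢ T k i)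
          (Ico ((i' : ℝ) / 2 ^ k') ((i' : ℝ) / 2 ^ k' + 1 / 2 ^ k') ×ˢ T k' i')) ∧
      volume ((⋃ k, W k) \
        ⋃ k : ℕ, ⋃ i : ℕ, Ico ((i : ℝ) / 2 ^ k) ((i : ℝ) / 2 ^ k + 1 / 2 ^ k) ×ˢ T k i) = 0 := by
  classical
  obtain ⟨T, hT⟩ : ∃ T : ℕ → ℕ → Set ℝ, ∀ k i t, t ∈ T k i ↔
      t ∈ P45 W k i ∧ ∀ k' < k, t ∉ P45 W k' (i / 2 ^ (k - k')) :=
    ⟨fun k i => {t | t ∈ P45 W k i ∧ ∀ k' < k, t ∉ P45 W k' (i / 2 ^ (k - k'))},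
      fun k i t => Iff.rfl⟩
  refine ⟨T, ?_, ?_, ?_, ?_, ?_, ?_⟩
  · intro k i
    have h1 : T k i = P45 W k i ∩ ⋂ k' : ℕ, ⋂ _ : k' < k, (P45 W k' (i / 2 ^ (k - k')))ᶜ := by
      ext t
      rw [hT, mem_inter_iff, mem_iInter₂]
      exact Iff.rfl
    rw [h1]
    exact (P_meas45 W hW k i).inter (MeasurableSet.iInter fun k' => MeasurableSet.iInter fun _ =>
      (P_meas45 W hW _ _).compl)
  · intro k i t ht
    obtain ⟨s, -, hs⟩ := P_ex45 ((hT k i t).1 ht).1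
    exact (hW1 k hs).2
  · intro k i hi
    rw [eq_empty_iff_forall_notMem]
    intro t ht
    obtain ⟨s, hs1, hs⟩ := P_ex45 ((hT k i t).1 ht).1
    have h1 := (hW1 k hs).1
    have h2 : (2 : ℝ) ^ k ≤ i := by exact_mod_cast hi
    have h3 : (1 : ℝ) ≤ (i : ℝ) / 2 ^ k := by
      rw [le_div_iff₀ (by positivity)]
      linarith
    have h4 : s < 1 := h1.2
    linarith [hs1.1]
  · intro k i t ht
    exact P_ex45 ((hT k i t).1 ht).1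
  · intro k i k' i' hne
    rw [Set.disjoint_left]
    rintro ⟨s, t⟩ ⟨h1, h2⟩ ⟨h3, h4⟩
    have h1' := ((mem_J45 k i s).1 h1).2
    have h3' := ((mem_J45 k' i' s).1 h3).2
    have h2' := (hT k i t).1 h2
    have h4' := (hT k' i' t).1 h4
    rcases lt_trichotomy k k' with hlt | heq | hlt
    · apply h4'.2 k hlt
      rw [← h3', floor45 hlt.le, h1']
      exact h2'.1
    · subst heq
      exact hne (by rw [← h1', ← h3'])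
    · apply h2'.2 k' hlt
      rw [← h1', floor45 hlt.le, h3']
      exact h4'.1
  · have hN : volume (⋃ k : ℕ, ⋃ i : ℕ, {p : ℝ × ℝ | p.1 ∈ Ico ((i : ℝ) / 2 ^ k)
        ((i : ℝ) / 2 ^ k + 1 / 2 ^ k) ∧ p ∈ W k ∧ p.2 ∉ P45 W k i}) = 0 :=
      measure_iUnion_null fun k => measure_iUnion_null fun i => null45 W hW k i
    refine measure_mono_null ?_ hN
    rintro ⟨s, t⟩ ⟨h1, h2⟩
    by_contra h3
    apply h2
    obtain ⟨k, hk⟩ := mem_iUnion.1 h1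
    have hs : 0 ≤ s := (hW1 k hk).1.1
    have hJ : ∀ k : ℕ, s ∈ Ico ((⌊(2 : ℝ) ^ k * s⌋₊ : ℝ) / 2 ^ k)
        ((⌊(2 : ℝ) ^ k * s⌋₊ : ℝ) / 2 ^ k + 1 / 2 ^ k) := fun k =>
      (mem_J45 k _ s).2 ⟨hs, rfl⟩
    have hex : ∃ k : ℕ, t ∈ P45 W k ⌊(2 : ℝ) ^ k * s⌋₊ := by
      refine ⟨k, ?_⟩
      by_contra h4
      exact h3 (mem_iUnion.2 ⟨k, mem_iUnion.2 ⟨⌊(2 : ℝ) ^ k * s⌋₊, hJ k, hk, h4⟩⟩)
    refine mem_iUnion.2 ⟨Nat.find hex, mem_iUnion.2 ⟨⌊(2 : ℝ) ^ (Nat.find hex) * s⌋₊, hJ _, ?_⟩⟩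
    show t ∈ T _ _
    rw [hT]
    refine ⟨Nat.find_spec hex, fun k' hk' => ?_⟩
    rw [floor45 hk'.le]
    exact Nat.find_min hex hk'

end Pool.Agent.Helper18.UY
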