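import Pool.Agent.Helper18.UY.Vel

/-! Block UY-GOOD: from a long time to a good interval; curves of good lines.

`good_of_long`: `V = V n s`. `n ≥ 1`, `wy n = wx (n-1)` (`wy_succ`), so `|wy n s| ≤ V (n-1) s ≤ V/B < V`, hence `V = |wx n s| =: μ`. For `u ∈ [α, α + h]`:
`|u - s| ≤ h ≤ B/V`, so `|wx u - wx s| ≤ μ/B`, `|wy u| ≤ |wy s| + μ/B ≤ 2μ/B`. With `m = wx α`: `|m| ≥ (1 - 1/B) μ`, `|m| ≤ (1 + 1/B) μ`,
`|wx u - m| ≤ 2μ/B ≤ (3/B) |m|`, `|wy u| ≤ 2μ/B ≤ (3/B) |m|` (`B ≥ 100`), `|m| h ≤ (1 + 1/B) B ≤ 2B`, `|m| h ≥ (1 - 1/B) B/2 ≥ B/3`.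

`hasDerivAt_ln`: `u ↦ ln b t u` has derivative `(1, b)`; `hasFDerivAt_iter`, `clm_apply` as in `Helper18/UC/Dir.hasDerivAt_line`.
`goodl_curve`: mean value inequality on the interval (`Convex.norm_image_sub_le_of_norm_hasDerivWithin_le`) as in
`Helper18/UC/Dir.good_curve`. -/

set_option autoImplicit false
open MeasureTheory Real Set

namespace Pool.Agent.Helper18.UY

open Pool.Agent.Helper18.UC

theorem good_of_long {a b B : ℝ} (hB : 100 ≤ B) {n : ℕ} (hn : 1 ≤ n) {t s : ℝ}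
    (hL : Long a b B n t s) {α h : ℝ} (hh : 0 < h) (hs : s ∈ Icc α (α + h))
    (h1 : B / (2 * V a b n (ln b t s)) ≤ h) (h2 : h ≤ B / V a b n (ln b t s)) :
    GoodL a b B n t α h := by
  obtain ⟨n', rfl⟩ : ∃ n', n = n' + 1 := ⟨n - 1, by omega⟩
  obtain ⟨hL1, hL2⟩ := hL
  rw [Nat.add_sub_cancel] at hL1
  have hB0 : 0 < B := by linarith
  obtain ⟨v, hv⟩ : ∃ v, v = V a b (n' + 1) (ln b t s) := ⟨_, rfl⟩
  have hv0 : 0 < v := by rw [hv]; exact V_pos _ _ _ _
  rw [← hv] at hL1 hL2 h1 h2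
  obtain ⟨w, hw⟩ : ∃ w, w = v / B := ⟨_, rfl⟩
  have hvw : v = w * B := by rw [hw]; field_simp
  have hw0 : 0 < w := by rw [hw]; positivity
  have e1 : |wy a b (n' + 1) (ln b t s)| ≤ w := by
    rw [wy_succ, hw, le_div_iff₀ hB0]
    have h3 := wx_le a b n' (ln b t s)
    have h4 := mul_le_mul_of_nonneg_right h3 hB0.le
    linarith
  have e2 : |wx a b (n' + 1) (ln b t s)| = v := by
    apply le_antisymm
    · rw [hv]
      exact wx_le _ _ _ _
    · by_contra hcon
      push Not at hcon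
      have h3 : |wy a b (n' + 1) (ln b t s)| < v := by nlinarith
      have h4 : V a b (n' + 1) (ln b t s) < v := max_lt hcon h3
      rw [← hv] at h4
      exact lt_irrefl _ h4
  have hclose : ∀ u ∈ Icc α (α + h), |u - s| ≤ B / v := by
    intro u hu
    refine le_trans ?_ h2
    rw [abs_le]
    constructor <;> linarith [hu.1, hu.2, hs.1, hs.2]
  have hx : ∀ u ∈ Icc α (α + h), |wx a b (n' + 1) (ln b t u) - wx a b (n' + 1) (ln b t s)| ≤ w := by
    intro u hu
    have h3 := (hL2 u (hclose u hu)).1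
    rwa [div_mul_eq_mul_div, one_mul, ← hw] at h3
  have hy : ∀ u ∈ Icc α (α + h), |wy a b (n' + 1) (ln b t u) - wy a b (n' + 1) (ln b t s)| ≤ w := by
    intro u hu
    have h3 := (hL2 u (hclose u hu)).2
    rwa [div_mul_eq_mul_div, one_mul, ← hw] at h3
  have hα : α ∈ Icc α (α + h) := ⟨le_rfl, by linarith⟩
  have hm1 : v - w ≤ |wx a b (n' + 1) (ln b t α)| := by
    have h3 := hx α hα
    have h4 := abs_sub_abs_le_abs_sub (wx a b (n' + 1) (ln b t s)) (wx a b (n' + 1) (ln b t α))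
    rw [abs_sub_comm, e2] at h4
    linarith
  have hm2 : |wx a b (n' + 1) (ln b t α)| ≤ v + w := by
    have h3 := hx α hα
    have h4 := abs_sub_abs_le_abs_sub (wx a b (n' + 1) (ln b t α)) (wx a b (n' + 1) (ln b t s))
    rw [e2] at h4
    linarith
  have hvh1 : B ≤ 2 * (v * h) := by
    rw [div_le_iff₀ (by positivity)] at h1
    linarith
  have hvh2 : v * h ≤ B := by
    rw [le_div_iff₀ hv0] at h2
    linarith
  have hwh : w * h ≤ 1 := by
    rw [hvw] at hvh2
    have : (w * h) * B ≤ 1 * B := by nlinarith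
    exact le_of_mul_le_mul_right this hB0
  have hwh0 : 0 < w * h := by positivity
  have h3B : 2 * w ≤ 3 / B * |wx a b (n' + 1) (ln b t α)| := by
    rw [div_mul_eq_mul_div, le_div_iff₀ hB0]
    nlinarith
  refine ⟨hh, ?_, ?_, ?_⟩
  · have h3 : (v - w) * h ≤ |wx a b (n' + 1) (ln b t α)| * h :=
      mul_le_mul_of_nonneg_right hm1 hh.le
    nlinarith
  · have h3 : |wx a b (n' + 1) (ln b t α)| * h ≤ (v + w) * h :=
      mul_le_mul_of_nonneg_right hm2 hh.le
    nlinarith
  · intro u hu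
    constructor
    · have h3 := hx u hu
      have h4 := hx α hα
      rw [abs_sub_comm] at h4
      have h5 := abs_add_le (wx a b (n' + 1) (ln b t u) - wx a b (n' + 1) (ln b t s))
        (wx a b (n' + 1) (ln b t s) - wx a b (n' + 1) (ln b t α))
      rw [sub_add_sub_cancel] at h5
      linarith
    · have h3 := hy u hu
      have h4 := abs_sub_abs_le_abs_sub (wy a b (n' + 1) (ln b t u)) (wy a b (n' + 1) (ln b t s))
      linarith

theorem hasDerivAt_ln (a b : ℝ) (n : ℕ) (t s : ℝ) :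
    HasDerivAt (fun u : ℝ => ((F a)^[n] (ln b t u)).1) (wx a b n (ln b t s)) s ∧
    HasDerivAt (fun u : ℝ => ((F a)^[n] (ln b t u)).2) (wy a b n (ln b t s)) s := by
  have hpt : HasDerivAt (fun u : ℝ => ln b t u) ((1 : ℝ), b) s := by
    unfold ln
    have h : HasDerivAt (fun u : ℝ => t + b * u) b s := by
      simpa using ((hasDerivAt_id s).const_mul b).const_add t
    exact (hasDerivAt_id s).prodMk h
  have h1 := (hasFDerivAt_iter a n (ln b t s)).comp_hasDerivAt s hpt
  have h2 : clm (M a n (ln b t s)) ((1 : ℝ), b) = (wx a b n (ln b t s), wy a b n (ln b t s)) := by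
    rw [clm_apply]
    unfold wx wy
    ext
    · simp only [mul_one]
      ring
    · simp only [mul_one]
      ring
  rw [h2] at h1
  constructor
  · exact (ContinuousLinearMap.fst ℝ ℝ ℝ).hasFDerivAt.comp_hasDerivAt s h1
  · exact (ContinuousLinearMap.snd ℝ ℝ ℝ).hasFDerivAt.comp_hasDerivAt s h1

theorem goodl_curve {a b B : ℝ} (hB : 100 ≤ B) {n : ℕ} {t α h : ℝ} (hG : GoodL a b B n t α h)
    {s s' : ℝ} (hs : s ∈ Icc α (α + h)) (hs' : s' ∈ Icc α (α + h)) :
    |((F a)^[n] (ln b t s)).1 - ((F a)^[n] (ln b t s')).1 - wx a b n (ln b t α) * (s - s')| ≤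
        (3 / B) * |wx a b n (ln b t α)| * |s - s'| ∧
    |((F a)^[n] (ln b t s)).2 - ((F a)^[n] (ln b t s')).2| ≤
        (3 / B) * |wx a b n (ln b t α)| * |s - s'| := by
  obtain ⟨-, -, -, hG4⟩ := hG
  have hconv : Convex ℝ (Icc α (α + h)) := convex_Icc _ _
  constructor
  · have h1 := hconv.norm_image_sub_le_of_norm_hasDerivWithin_le
      (f := fun u : ℝ => ((F a)^[n] (ln b t u)).1 - wx a b n (ln b t α) * u)
      (f' := fun u : ℝ => wx a b n (ln b t u) - wx a b n (ln b t α))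
      (C := (3 / B) * |wx a b n (ln b t α)|) (x := s') (y := s)
      (fun u _ => by
        have h2 := (hasDerivAt_ln a b n t u).1
        have h3 : HasDerivAt (fun u : ℝ => wx a b n (ln b t α) * u) (wx a b n (ln b t α)) u := by
          simpa using (hasDerivAt_id u).const_mul (wx a b n (ln b t α))
        exact (h2.sub h3).hasDerivWithinAt)
      (fun u hu => by
        rw [Real.norm_eq_abs]
        exact (hG4 u hu).1) hs' hs
    rw [Real.norm_eq_abs, Real.norm_eq_abs] at h1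
    refine le_of_eq_of_le ?_ h1
    congr 1
    ring
  · have h1 := hconv.norm_image_sub_le_of_norm_hasDerivWithin_le
      (f := fun u : ℝ => ((F a)^[n] (ln b t u)).2)
      (f' := fun u : ℝ => wy a b n (ln b t u)) (C := (3 / B) * |wx a b n (ln b t α)|)
      (x := s') (y := s)
      (fun u _ => (hasDerivAt_ln a b n t u).2.hasDerivWithinAt)
      (fun u hu => by
        rw [Real.norm_eq_abs]
        exact (hG4 u hu).2) hs' hs
    rw [Real.norm_eq_abs, Real.norm_eq_abs] at h1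
    exact h1

end Pool.Agent.Helper18.UY
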