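import Pool.Agent.Helper18.UY.Cross
import Pool.Agent.Helper18.UY.Entry

/-! Block UY-LOW: lower bound for the measure of the hits. (Adapt `Helper18/UC/MeasLow.lean`.)

`N = n + j + n'`, `I = [α, α+h)`, `I' = [α', α'+h') ⊆ [0,1)`, `T' ⊆ [0,1)`. Fix `t ∈ T`; `A = {σ | (σ, t) ∈ HitL a b N I T I' T'}`. For integers `v = (u, w)` let
`A v = {σ ∈ I | lc b (sh (swap (F^[N] (ln b t σ))) u w) ∈ I' ×ˢ T'}`: Borel, with union `A`, pairwise disjoint in `v` (the first line
coordinate of the shifted point is `Y + u ∈ [0,1)`, which determines `u`, the second is `X - b Y + w - b u ∈ [0,1)`, which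
determines `w`). `g v σ` = that second coordinate, `deriv_label`. Derivative: by `entryL` with `m = n + j`,
`q'' = ln b (g v σ) (..)` on a good line of `T'` at a point of `[α', α'+h']` (`ln_lc`): `|wx n' q''|, |wy n' q''| ≤ (1 + 3/B) |m'| ≤ (1 + 3/B) 2B/h'`, and
`|wx (n+j) q|, |wy (n+j) q| ≤ V (n+j) q ≤ LL^j V n q ≤ LL^j (1 + 3/B) |m| ≤ LL^j (1 + 3/B) 2B/h`; so `|g'| ≤ D := 2 (1+3/B)² 4 B² LL^j/(h h') ≤ 20 B² LL^j/(h h')`.
Covering: by `cross_ln` every `t' ∈ T'` is in `g v '' A v` for some `v`: from `F^[n+j] (ln b t σ) = sh (swap (F^[n'] (ln b t' σ'))) u w` and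
`F^[N] = F^[n'] ∘ F^[n+j]`, `iter_sh`, `F_rev`: `F^[N] (ln b t σ) = sh (swap (ln b t' σ')) u' w'` (as in `ml_slice`). So
`vol T' ≤ ∑ vol (g v '' A v) ≤ ∑ ∫_{A v} |g v'| ≤ D ∑ vol (A v) = D vol A` (`addHaar_image_le_lintegral_abs_det_fderiv`), for every `t ∈ T`.
Fubini (`Measure.prod_apply_symm`, `measurableSet_hitL`): `vol Hit ≥ ∫_T vol T'/D = vol T vol T' /D`. -/

set_option autoImplicit false
open MeasureTheory Real Set

namespace Pool.Agent.Helper18.UY

open Pool.Agent.Helper18.UC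

private lemma V_pow40 (a b : ℝ) (n j : ℕ) (hj : j ≤ 1) (q : ℝ × ℝ) :
    V a b (n + j) q ≤ LL a ^ j * V a b n q := by
  have hj' : j = 0 ∨ j = 1 := by omega
  rcases hj' with rfl | rfl
  · simp
  · rw [pow_one]
    exact V_succ_le a b n q

private lemma V_good40 {a b B : ℝ} (hB : 100 ≤ B) {n : ℕ} {t α h : ℝ} (hG : GoodL a b B n t α h)
    {σ : ℝ} (hσ : σ ∈ Ico α (α + h)) :
    V a b n (ln b t σ) ≤ (1 + 3 / B) * (2 * B / h) := by
  obtain ⟨hh, h1, h2, h3⟩ := hG
  obtain ⟨h4, h5⟩ := h3 σ ⟨hσ.1, hσ.2.le⟩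
  have hB0 : 0 < B := by linarith
  have h6 : |wx a b n (ln b t α)| ≤ 2 * B / h := by
    rw [le_div_iff₀ hh]
    exact h2
  have h7 : 0 ≤ |wx a b n (ln b t α)| := abs_nonneg _
  have h8 : 0 ≤ 3 / B := by positivity
  have h9 : (1 + 3 / B) * |wx a b n (ln b t α)| ≤ (1 + 3 / B) * (2 * B / h) :=
    mul_le_mul_of_nonneg_left h6 (by positivity)
  refine le_trans (max_le ?_ ?_) h9
  · have h10 := abs_sub_abs_le_abs_sub (wx a b n (ln b t σ)) (wx a b n (ln b t α))
    linarith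
  · linarith

private lemma slice40 {a b B : ℝ} (hB : 100 ≤ B) (ha : 10 ≤ |a|) {n n' : ℕ} {α h α' h' : ℝ} {T T' : Set ℝ}
    (hh : 0 < h) (hh' : 0 < h') (hT : MeasurableSet T) (hT' : MeasurableSet T')
    (hI' : Ico α' (α' + h') ⊆ Ico 0 1) (hT1 : T' ⊆ Ico 0 1)
    (hG : ∀ t ∈ T, GoodL a b B n t α h) (hG' : ∀ t ∈ T', GoodL a b B n' t α' h') {j : ℕ} (hj : j ≤ 1)
    {t : ℝ} (ht : t ∈ T) :
    volume T' ≤ ENNReal.ofReal (20 * B ^ 2 * LL a ^ j / (h * h')) *
      volume {σ : ℝ | (σ, t) ∈ HitL a b (n + j + n') (Ico α (α + h)) T (Ico α' (α' + h')) T'} := by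
  set N := n + j + n' with hN
  set D := 20 * B ^ 2 * LL a ^ j / (h * h') with hD
  set S : Set ℝ := {σ : ℝ | (σ, t) ∈ HitL a b N (Ico α (α + h)) T (Ico α' (α' + h')) T'} with hS
  have hB0 : 0 < B := by linarith
  have hLp := LL_pos a
  let g : ℤ × ℤ → ℝ → ℝ := fun v σ => (lc b (sh (Prod.swap ((F a)^[N] (ln b t σ))) v.1 v.2)).2
  let A : ℤ × ℤ → Set ℝ := fun v => Ico α (α + h) ∩
    (fun σ => lc b (sh (Prod.swap ((F a)^[N] (ln b t σ))) v.1 v.2)) ⁻¹' (Ico α' (α' + h') ×ˢ T')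
  have hcont : ∀ v : ℤ × ℤ,
      Continuous (fun σ : ℝ => lc b (sh (Prod.swap ((F a)^[N] (ln b t σ))) v.1 v.2)) := by
    intro v
    have h1 : Continuous (fun σ : ℝ => (F a)^[N] (ln b t σ)) := by
      refine ((F_cont a).iterate N).comp ?_
      unfold ln
      fun_prop
    unfold lc sh
    have h2 := h1.fst
    have h3 := h1.snd
    simp only [Prod.fst_swap, Prod.snd_swap]
    fun_prop
  have hAm : ∀ v, MeasurableSet (A v) := fun v =>
    measurableSet_Ico.inter ((hcont v).measurable (measurableSet_Ico.prod hT'))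
  have hAd : Pairwise (Function.onFun Disjoint A) := by
    intro v v' hvv
    refine Set.disjoint_left.2 ?_
    rintro σ ⟨-, h1⟩ ⟨-, h2⟩
    have h3 := hI' h1.1
    have h4 := hI' h2.1
    have h5 := hT1 h1.2
    have h6 := hT1 h2.2
    simp only [lc, sh, Prod.fst_swap, Prod.snd_swap, mem_Ico] at h3 h4 h5 h6
    have key : ∀ i i' : ℤ, |((i : ℝ) - i')| < 1 → i = i' := by
      intro i i' h7
      have h8 : |i - i'| < 1 := by
        have : ((|i - i'| : ℤ) : ℝ) < 1 := by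
          push_cast
          exact h7
        exact_mod_cast this
      have h9 := Int.abs_lt_one_iff.1 h8
      omega
    have h7 : v.1 = v'.1 := key _ _ (by rw [abs_lt]; constructor <;> linarith [h3.1, h3.2, h4.1, h4.2])
    have h8 : v.2 = v'.2 := by
      rw [h7] at h5
      exact key _ _ (by rw [abs_lt]; constructor <;> linarith [h5.1, h5.2, h6.1, h6.2])
    exact hvv (Prod.ext h7 h8)
  have hAS : ∀ v, A v ⊆ S := by
    rintro v σ ⟨h1, h2⟩
    exact ⟨h1, ht, v.1, v.2, h2⟩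
  have hcov : T' ⊆ ⋃ v : ℤ × ℤ, g v '' A v := by
    intro t' ht'
    obtain ⟨σ, hσ, σ', hσ', u, w, huw⟩ := cross_ln hB ha (hG t ht) (hG' t' ht') hj
    have h1 : (F a)^[N] (ln b t σ) =
        sh (Prod.swap (ln b t' σ')) (u + n' * (u - w)) (w + n' * (u - w)) := by
      rw [hN, add_comm (n + j) n', Function.iterate_add_apply, huw, iter_sh, F_rev]
    set u' : ℤ := u + n' * (u - w) with hu'
    set w' : ℤ := w + n' * (u - w) with hw'
    have h3 : sh (Prod.swap ((F a)^[N] (ln b t σ))) (-w') (-u') = ln b t' σ' := by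
      rw [h1]
      simp [sh, Prod.swap]
    refine mem_iUnion.2 ⟨(-w', -u'), σ, ⟨hσ, ?_⟩, ?_⟩
    · show lc b (sh (Prod.swap ((F a)^[N] (ln b t σ))) (-w') (-u')) ∈ Ico α' (α' + h') ×ˢ T'
      rw [h3, lc_ln]
      exact ⟨hσ', ht'⟩
    · show (lc b (sh (Prod.swap ((F a)^[N] (ln b t σ))) (-w') (-u'))).2 = t'
      rw [h3, lc_ln]
  have hder : ∀ v, ∀ σ ∈ A v, |wx a b N (ln b t σ) - b * wy a b N (ln b t σ)| ≤ D := by
    rintro v σ ⟨h1, h2⟩
    have h3 := entryL a b (n + j) n' (ln b t σ) v.1 v.2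
    rw [← hN] at h3
    set q'' := sh (Prod.swap ((F a)^[N] (ln b t σ))) v.1 v.2 with hq''
    rw [h3]
    have h4 : V a b n (ln b t σ) ≤ (1 + 3 / B) * (2 * B / h) := V_good40 hB (hG t ht) h1
    have h5 : V a b n' q'' ≤ (1 + 3 / B) * (2 * B / h') := by
      have h6 := V_good40 hB (hG' _ h2.2) h2.1
      rwa [ln_lc] at h6
    have h6 : V a b (n + j) (ln b t σ) ≤ LL a ^ j * ((1 + 3 / B) * (2 * B / h)) :=
      (V_pow40 a b n j hj _).trans (mul_le_mul_of_nonneg_left h4 (by positivity))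
    have h7 : V a b n' q'' * V a b (n + j) (ln b t σ) ≤
        (1 + 3 / B) * (2 * B / h') * (LL a ^ j * ((1 + 3 / B) * (2 * B / h))) :=
      mul_le_mul h5 h6 (V_nonneg _ _ _ _) (by positivity)
    have h8 : |wx a b n' q'' * wx a b (n + j) (ln b t σ)| ≤
        V a b n' q'' * V a b (n + j) (ln b t σ) := by
      rw [abs_mul]
      exact mul_le_mul (wx_le _ _ _ _) (wx_le _ _ _ _) (abs_nonneg _) (V_nonneg _ _ _ _)
    have h9 : |wy a b n' q'' * wy a b (n + j) (ln b t σ)| ≤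
        V a b n' q'' * V a b (n + j) (ln b t σ) := by
      rw [abs_mul]
      exact mul_le_mul (wy_le _ _ _ _) (wy_le _ _ _ _) (abs_nonneg _) (V_nonneg _ _ _ _)
    have h10 : |wx a b n' q'' * wx a b (n + j) (ln b t σ) -
        wy a b n' q'' * wy a b (n + j) (ln b t σ)| ≤
        2 * ((1 + 3 / B) * (2 * B / h') * (LL a ^ j * ((1 + 3 / B) * (2 * B / h)))) := by
      have h11 := abs_sub (wx a b n' q'' * wx a b (n + j) (ln b t σ))
        (wy a b n' q'' * wy a b (n + j) (ln b t σ))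
      linarith
    refine h10.trans ?_
    have h12 : 2 * ((1 + 3 / B) * (2 * B / h') * (LL a ^ j * ((1 + 3 / B) * (2 * B / h)))) =
        (8 * (1 + 3 / B) ^ 2) * (B ^ 2 * LL a ^ j / (h * h')) := by
      field_simp
      ring
    have h13 : D = 20 * (B ^ 2 * LL a ^ j / (h * h')) := by
      rw [hD]
      ring
    rw [h12, h13]
    refine mul_le_mul_of_nonneg_right ?_ (by positivity)
    have h14 : 3 / B ≤ 3 / 100 := div_le_div_of_nonneg_left (by norm_num) (by norm_num) hB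
    have h15 : 0 ≤ 3 / B := by positivity
    nlinarith
  have hbd : ∀ v : ℤ × ℤ, volume (g v '' A v) ≤ ENNReal.ofReal D * volume (A v) := by
    intro v
    have h1 := addHaar_image_le_lintegral_abs_det_fderiv (μ := (volume : Measure ℝ)) (hAm v)
      (f := g v)
      (fun σ _ => (deriv_label a b N t σ v.1 v.2).hasDerivWithinAt.hasFDerivWithinAt)
    refine h1.trans ?_
    simp only [ContinuousLinearMap.det_toSpanSingleton]
    rw [← setLIntegral_const]
    refine setLIntegral_mono_ae' (hAm v) (Filter.Eventually.of_forall fun σ hσ => ?_)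
    exact ENNReal.ofReal_le_ofReal (hder v σ hσ)
  calc volume T' ≤ volume (⋃ v : ℤ × ℤ, g v '' A v) := measure_mono hcov
    _ ≤ ∑' v : ℤ × ℤ, volume (g v '' A v) := measure_iUnion_le _
    _ ≤ ∑' v : ℤ × ℤ, ENNReal.ofReal D * volume (A v) := ENNReal.tsum_le_tsum hbd
    _ = ENNReal.ofReal D * volume (⋃ v : ℤ × ℤ, A v) := by
        rw [ENNReal.tsum_mul_left, measure_iUnion hAd hAm]
    _ ≤ ENNReal.ofReal D * volume S := by
        gcongr
        exact iUnion_subset hAS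

theorem hit_lowL {a b B : ℝ} (hB : 100 ≤ B) (ha : 10 ≤ |a|) {n n' : ℕ} {α h α' h' : ℝ} {T T' : Set ℝ}
    (hh : 0 < h) (hh' : 0 < h') (hT : MeasurableSet T) (hT' : MeasurableSet T')
    (hI' : Ico α' (α' + h') ⊆ Ico 0 1) (hT1 : T' ⊆ Ico 0 1)
    (hG : ∀ t ∈ T, GoodL a b B n t α h) (hG' : ∀ t ∈ T', GoodL a b B n' t α' h') {j : ℕ} (hj : j ≤ 1) :
    ENNReal.ofReal (h * h' / (20 * B ^ 2 * LL a ^ j)) * (volume T * volume T') ≤
      volume (HitL a b (n + j + n') (Ico α (α + h)) T (Ico α' (α' + h')) T') := by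
  have hB0 : 0 < B := by linarith
  have hLp := LL_pos a
  set D := 20 * B ^ 2 * LL a ^ j / (h * h') with hD
  have hD0 : 0 < D := by positivity
  have hDi : h * h' / (20 * B ^ 2 * LL a ^ j) = D⁻¹ := by
    rw [hD, inv_div]
  have h2 : ∀ t ∈ T, ENNReal.ofReal D⁻¹ * volume T' ≤
      volume {σ : ℝ | (σ, t) ∈ HitL a b (n + j + n') (Ico α (α + h)) T (Ico α' (α' + h')) T'} := by
    intro t ht
    have h3 := slice40 hB ha hh hh' hT hT' hI' hT1 hG hG' hj ht
    rw [← hD] at h3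
    calc ENNReal.ofReal D⁻¹ * volume T' ≤ ENNReal.ofReal D⁻¹ * (ENNReal.ofReal D * _) :=
          mul_le_mul_right h3 _
      _ = _ := by
          rw [← mul_assoc, ← ENNReal.ofReal_mul (inv_nonneg.2 hD0.le), inv_mul_cancel₀ hD0.ne',
            ENNReal.ofReal_one, one_mul]
  have hm := measurableSet_hitL a b (n + j + n') (I := Ico α (α + h)) (T := T)
    (I' := Ico α' (α' + h')) (T' := T') measurableSet_Ico hT measurableSet_Ico hT'
  rw [hDi, Measure.volume_eq_prod, Measure.prod_apply_symm hm]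
  calc ENNReal.ofReal D⁻¹ * (volume T * volume T')
      = ∫⁻ _ in T, ENNReal.ofReal D⁻¹ * volume T' := by
        rw [setLIntegral_const]
        ring
    _ ≤ ∫⁻ t in T,
        volume {σ : ℝ | (σ, t) ∈ HitL a b (n + j + n') (Ico α (α + h)) T (Ico α' (α' + h')) T'} := by
        refine setLIntegral_mono_ae' hT (Filter.Eventually.of_forall fun t ht => ?_)
        exact h2 t ht
    _ ≤ _ := setLIntegral_le_lintegral _ _

end Pool.Agent.Helper18.UY
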