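import Pool.Agent.Helper18.UY.Vel

/-! Block UY-MLONG: measurability of the set of long times.

`V a b n` is continuous and positive. In the second condition of `Long` substitute `s' = s + v B / V a b n (ln b t s)`, `|v| ≤ 1`: the set of
`(s, t)` with `Long a b B n t s` is the intersection of `{B V (n-1) ≤ V n}` and of the sets (one for each `v ∈ [-1, 1]`)
`{|wx (ln b t (s + v B / V)) - wx (ln b t s)| ≤ (1/B) V}` and the same for `wy`: all closed, so the set is closed (`isClosed_le`,
`isClosed_iInter`). `measurableSet_LG`: preimage under `rb b` (`measurable_rb'`: `rep` is measurable, `Int.fract` is measurable).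
`measurableSet_PV`, `measurableSet_FQ`: continuity; finite sums of indicators. -/

set_option autoImplicit false
open MeasureTheory Real Set

namespace Pool.Agent.Helper18.UY

open Pool.Agent.Helper18.UC

theorem measurable_rb (b : ℝ) : Measurable (rb b) := by
  have h := measurable_rep
  unfold rb
  exact h.fst.prodMk (measurable_fract.comp (h.snd.sub (h.fst.const_mul b)))

private theorem long_iff_h32 (a b : ℝ) {B : ℝ} (hB : 0 < B) (n : ℕ) (t s : ℝ) :
    Long a b B n t s ↔ B * V a b (n - 1) (ln b t s) ≤ V a b n (ln b t s) ∧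
      ∀ v ∈ Icc (-1 : ℝ) 1,
        |wx a b n (ln b t (s + v * (B / V a b n (ln b t s)))) - wx a b n (ln b t s)| ≤ 1 / B * V a b n (ln b t s) ∧
        |wy a b n (ln b t (s + v * (B / V a b n (ln b t s)))) - wy a b n (ln b t s)| ≤ 1 / B * V a b n (ln b t s) := by
  have hV := V_pos a b n (ln b t s)
  have hBV : 0 < B / V a b n (ln b t s) := by positivity
  unfold Long
  refine and_congr Iff.rfl ⟨fun h v hv => h _ ?_, fun h s' hs' => ?_⟩
  · rw [add_sub_cancel_left, abs_mul, abs_of_pos hBV]
    exact mul_le_of_le_one_left hBV.le (abs_le.2 hv)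
  · have h1 := h ((s' - s) / (B / V a b n (ln b t s))) (by
      rw [Set.mem_Icc, ← abs_le, abs_div, abs_of_pos hBV, div_le_one hBV]
      exact hs')
    rw [div_mul_cancel₀ _ hBV.ne', add_sub_cancel] at h1
    exact h1

theorem isClosed_long (a b : ℝ) {B : ℝ} (hB : 0 < B) (n : ℕ) :
    IsClosed {p : ℝ × ℝ | Long a b B n p.2 p.1} := by
  have hset : {p : ℝ × ℝ | Long a b B n p.2 p.1} =
      {p : ℝ × ℝ | B * V a b (n - 1) (ln b p.2 p.1) ≤ V a b n (ln b p.2 p.1)} ∩
      ⋂ v ∈ Icc (-1 : ℝ) 1, {p : ℝ × ℝ |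
        |wx a b n (ln b p.2 (p.1 + v * (B / V a b n (ln b p.2 p.1)))) - wx a b n (ln b p.2 p.1)| ≤
          1 / B * V a b n (ln b p.2 p.1) ∧
        |wy a b n (ln b p.2 (p.1 + v * (B / V a b n (ln b p.2 p.1)))) - wy a b n (ln b p.2 p.1)| ≤
          1 / B * V a b n (ln b p.2 p.1)} := by
    ext p
    rw [Set.mem_ofPred_eq, long_iff_h32 a b hB, Set.mem_inter_iff, Set.mem_ofPred_eq, Set.mem_iInter₂]
    exact Iff.rfl
  rw [hset]
  have hln : Continuous fun p : ℝ × ℝ => ln b p.2 p.1 := by
    unfold ln
    fun_prop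
  have hV : Continuous fun p : ℝ × ℝ => V a b n (ln b p.2 p.1) := (V_cont a b n).comp hln
  have hVne : ∀ p : ℝ × ℝ, V a b n (ln b p.2 p.1) ≠ 0 := fun p => (V_pos a b n _).ne'
  refine (isClosed_le (continuous_const.mul ((V_cont a b (n - 1)).comp hln)) hV).inter
    (isClosed_biInter fun v _ => ?_)
  have hs : Continuous fun p : ℝ × ℝ => p.1 + v * (B / V a b n (ln b p.2 p.1)) :=
    continuous_fst.add (continuous_const.mul (continuous_const.div hV hVne))
  have hln2 : Continuous fun p : ℝ × ℝ => ln b p.2 (p.1 + v * (B / V a b n (ln b p.2 p.1))) := by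
    unfold ln at hs ⊢
    exact hs.prodMk (continuous_snd.add (continuous_const.mul hs))
  have hr : Continuous fun p : ℝ × ℝ => 1 / B * V a b n (ln b p.2 p.1) := continuous_const.mul hV
  exact (isClosed_le (((wx_cont a b n).comp hln2).sub ((wx_cont a b n).comp hln)).abs hr).inter
    (isClosed_le (((wy_cont a b n).comp hln2).sub ((wy_cont a b n).comp hln)).abs hr)

theorem measurableSet_LG (a b : ℝ) {B : ℝ} (hB : 0 < B) (n : ℕ) : MeasurableSet (LG a b B n) :=
  (measurable_rb b) (isClosed_long a b hB n).measurableSet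

theorem measurableSet_PV (a b c : ℝ) (N : ℕ) : MeasurableSet (PV a b c N) :=
  measurableSet_le measurable_const ((V_cont a b N).measurable.comp measurable_rep)

theorem measurableSet_FQ (a b : ℝ) {B : ℝ} (hB : 0 < B) (θ : ℝ) (N : ℕ) :
    MeasurableSet (FQ a b B θ N) := by
  unfold FQ
  refine measurableSet_le measurable_const (Finset.measurable_fun_sum _ fun n _ => ?_)
  exact measurable_const.indicator (measurableSet_LG a b hB n)

end Pool.Agent.Helper18.UY
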