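import Pool.Agent.Helper18.UY.Cut

/-! Block UY-ONE: one iterate of a piece followed by cutting.

From `step`, `cut`, `long_piece`, `vel_near`. Let `V = V a b n (ln b t c)`, `V R ≤ 8B`; for the pieces `(c', R')` of `step`
(`|c' - c| ≤ R/2`, `R' ≤ R`): `V n c' ≤ 2V`.
(1) `one_long`: `V (n+1) c' R' ≤ LL V n c' R ≤ 16 B LL =: Q` (`≥ 8B`), cut: at most `17 + 8 LL ≤ 13 LL` pieces (`LL ≥ 4`).
(2) `one_short`: pieces with `V (n+1) c' R' < 4B`: cut with `Q = 8B` (at most `21` pieces). Pieces with `V (n+1) c' R' ≥ 4B`: if no point `s`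
with `|s - c'| ≤ R'/2`, `|s - c| ≤ R/2` is not long at time `n+1`, drop the piece. Otherwise let `s` be such a point; by `long_piece` the
second half of `Long` holds, so the first fails: `V (n+1) s < B V n s`. Hence `V (n+1) c' ≤ 2 V (n+1) s ≤ 2 B V n s ≤ 4 B V` and
`V (n+1) c' R' ≤ 4 B V R ≤ 32 B² =: Q`, at most `17 + 16 B ≤ 17 B` pieces. -/

set_option autoImplicit false
open MeasureTheory Real Set

namespace Pool.Agent.Helper18.UY

open Pool.Agent.Helper18.UC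

private theorem v_near {a b B t : ℝ} (hB : 100 ≤ B) {n : ℕ} {c R : ℝ} (hP : Pc a b B t n c R)
    {s : ℝ} (hs : |s - c| ≤ R / 2) :
    V a b n (ln b t s) ≤ 2 * V a b n (ln b t c) ∧ V a b n (ln b t c) ≤ 2 * V a b n (ln b t s) := by
  have hR := hP.1
  have h1 := abs_le.1 (vel_near hB hP (s := s) (by linarith)).2.2
  have hv := V_pos a b n (ln b t c)
  have h2 : 1 / (8 * B) * V a b n (ln b t c) ≤ 1 / 2 * V a b n (ln b t c) := by
    refine mul_le_mul_of_nonneg_right ?_ hv.le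
    exact one_div_le_one_div_of_le (by norm_num) (by linarith)
  constructor
  · linarith [h1.2]
  · linarith [h1.1]

/-- Gluing the pieces of the pieces. -/
private theorem glue {Pr : ℝ × ℝ → Prop} {K : ℝ} (P1 : Finset (ℝ × ℝ)) {X : ℝ → Prop}
    (h : ∀ p ∈ P1, ∃ P : Finset (ℝ × ℝ), (P.card : ℝ) ≤ K ∧ (∀ q ∈ P, Pr q) ∧
      ∀ s : ℝ, X s → |s - p.1| ≤ p.2 / 2 → ∃ q ∈ P, |s - q.1| ≤ q.2 / 2) :
    ∃ P : Finset (ℝ × ℝ), (P.card : ℝ) ≤ P1.card * K ∧ (∀ q ∈ P, Pr q) ∧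
      ∀ s : ℝ, X s → (∃ p ∈ P1, |s - p.1| ≤ p.2 / 2) → ∃ q ∈ P, |s - q.1| ≤ q.2 / 2 := by
  classical
  choose! S hS1 hS2 hS3 using h
  refine ⟨P1.biUnion S, ?_, ?_, ?_⟩
  · calc (((P1.biUnion S).card : ℕ) : ℝ) ≤ ((∑ p ∈ P1, (S p).card : ℕ) : ℝ) := by
          exact_mod_cast Finset.card_biUnion_le
      _ = ∑ p ∈ P1, ((S p).card : ℝ) := by push_cast; rfl
      _ ≤ ∑ p ∈ P1, K := Finset.sum_le_sum hS1
      _ = P1.card * K := by rw [Finset.sum_const, nsmul_eq_mul]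
  · intro q hq
    obtain ⟨p, hp, hq'⟩ := Finset.mem_biUnion.1 hq
    exact hS2 p hp q hq'
  · rintro s hs ⟨p, hp, hsp⟩
    obtain ⟨q, hq, hsq⟩ := hS3 p hp s hs hsp
    exact ⟨q, Finset.mem_biUnion.2 ⟨p, hp, hq⟩, hsq⟩

theorem one_long {B : ℝ} (hB : 100 ≤ B) : ∃ C : ℝ, 1 ≤ C ∧ ∀ (a b t : ℝ) (n : ℕ) (c R g : ℝ),
    Pc a b B t n c R → V a b n (ln b t c) * R ≤ 8 * B → 0 < g →
    ∃ P : Finset (ℝ × ℝ), (P.card : ℝ) ≤ C * (1 + Real.log (LL a)) ^ 4 * LL a ∧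
      (∀ p ∈ P, Pc a b B t (n + 1) p.1 p.2 ∧ V a b (n + 1) (ln b t p.1) * p.2 ≤ 8 * B) ∧
      ∀ s : ℝ, |s - c| ≤ R / 2 → g * V a b n (ln b t s) ≤ V a b (n + 1) (ln b t s) →
        V a b (n + 1) (ln b t s) ≤ Real.exp 1 * g * V a b n (ln b t s) →
        ∃ p ∈ P, |s - p.1| ≤ p.2 / 2 := by
  obtain ⟨C1, hC1, hstep⟩ := step hB
  refine ⟨13 * C1, by linarith, ?_⟩
  intro a b t n c R g hP hVR hg
  obtain ⟨P1, hcard, hP1, hcov⟩ := hstep a b t n c R g hP hVR hg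
  have hLL : 4 ≤ LL a := LL_ge a
  have hlog : 0 ≤ Real.log (LL a) := Real.log_nonneg (by linarith)
  obtain ⟨P, hPc, hPp, hPs⟩ := glue (Pr := fun q => Pc a b B t (n + 1) q.1 q.2 ∧
      V a b (n + 1) (ln b t q.1) * q.2 ≤ 8 * B) (K := 13 * LL a) (X := fun _ => True) P1 (by
    intro p hp
    obtain ⟨h1, h2, h3⟩ := hP1 p hp
    have h4 := (v_near hB hP h2).1
    have h5 := V_succ_le a b n (ln b t p.1)
    have h6 : V a b (n + 1) (ln b t p.1) * p.2 ≤ 16 * B * LL a := by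
      calc V a b (n + 1) (ln b t p.1) * p.2 ≤ (LL a * (2 * V a b n (ln b t c))) * R := by
            refine mul_le_mul (h5.trans (mul_le_mul_of_nonneg_left h4 (by linarith))) h3 h1.1.le ?_
            have := V_pos a b n (ln b t c)
            positivity
        _ = 2 * LL a * (V a b n (ln b t c) * R) := by ring
        _ ≤ 2 * LL a * (8 * B) := mul_le_mul_of_nonneg_left hVR (by linarith)
        _ = 16 * B * LL a := by ring
    have h7 : 8 * B ≤ 16 * B * LL a := by nlinarith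
    obtain ⟨S, hS1, hS2, hS3⟩ := cut hB h1 h7 h6
    refine ⟨S, hS1.trans ?_, hS2, fun s _ hs => hS3 s hs⟩
    have h8 : 16 * B * LL a / (2 * B) = 8 * LL a := by
      field_simp
      ring
    rw [h8]
    linarith)
  refine ⟨P, ?_, hPp, fun s h1 h2 h3 => hPs s trivial (hcov s h1 h2 h3)⟩
  calc (P.card : ℝ) ≤ P1.card * (13 * LL a) := hPc
    _ ≤ (C1 * (1 + Real.log (LL a)) ^ 4) * (13 * LL a) :=
        mul_le_mul_of_nonneg_right hcard (by linarith)
    _ = _ := by ring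

theorem one_short {B : ℝ} (hB : 100 ≤ B) : ∃ C : ℝ, 1 ≤ C ∧ ∀ (a b t : ℝ) (n : ℕ) (c R g : ℝ),
    Pc a b B t n c R → V a b n (ln b t c) * R ≤ 8 * B → 0 < g →
    ∃ P : Finset (ℝ × ℝ), (P.card : ℝ) ≤ C * (1 + Real.log (LL a)) ^ 4 ∧
      (∀ p ∈ P, Pc a b B t (n + 1) p.1 p.2 ∧ V a b (n + 1) (ln b t p.1) * p.2 ≤ 8 * B) ∧
      ∀ s : ℝ, |s - c| ≤ R / 2 → g * V a b n (ln b t s) ≤ V a b (n + 1) (ln b t s) →
        V a b (n + 1) (ln b t s) ≤ Real.exp 1 * g * V a b n (ln b t s) →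
        ¬ Long a b B (n + 1) t s → ∃ p ∈ P, |s - p.1| ≤ p.2 / 2 := by
  obtain ⟨C1, hC1, hstep⟩ := step hB
  refine ⟨17 * B * C1, by nlinarith, ?_⟩
  intro a b t n c R g hP hVR hg
  obtain ⟨P1, hcard, hP1, hcov⟩ := hstep a b t n c R g hP hVR hg
  obtain ⟨P, hPc, hPp, hPs⟩ := glue (Pr := fun q => Pc a b B t (n + 1) q.1 q.2 ∧
      V a b (n + 1) (ln b t q.1) * q.2 ≤ 8 * B) (K := 17 * B)
      (X := fun s => |s - c| ≤ R / 2 ∧ ¬ Long a b B (n + 1) t s) P1 (by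
    intro p hp
    obtain ⟨h1, h2, h3⟩ := hP1 p hp
    by_cases h6 : V a b (n + 1) (ln b t p.1) * p.2 ≤ 32 * B ^ 2
    · have h7 : 8 * B ≤ 32 * B ^ 2 := by nlinarith
      obtain ⟨S, hS1, hS2, hS3⟩ := cut hB h1 h7 h6
      refine ⟨S, hS1.trans ?_, hS2, fun s _ hs => hS3 s hs⟩
      have h8 : 32 * B ^ 2 / (2 * B) = 16 * B := by
        field_simp
        ring
      rw [h8]
      linarith
    · refine ⟨∅, ?_, by simp, ?_⟩
      · rw [Finset.card_empty, Nat.cast_zero]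
        linarith
      · rintro s ⟨hs1, hs2⟩ hsp
        exfalso
        push Not at h6
        apply hs2
        refine ⟨?_, fun s' hs' => long_piece hB h1 (by nlinarith) hsp hs'⟩
        rw [Nat.add_sub_cancel]
        by_contra hcon
        push Not at hcon
        have h7 := (v_near hB h1 hsp).2
        have h8 := (v_near hB hP hs1).1
        have h9 : V a b (n + 1) (ln b t p.1) ≤ 4 * B * V a b n (ln b t c) := by
          have h10 : B * V a b n (ln b t s) ≤ B * (2 * V a b n (ln b t c)) :=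
            mul_le_mul_of_nonneg_left h8 (by linarith)
          linarith
        have h10 : V a b (n + 1) (ln b t p.1) * p.2 ≤ 32 * B ^ 2 := by
          have hv := V_pos a b n (ln b t c)
          calc V a b (n + 1) (ln b t p.1) * p.2 ≤ (4 * B * V a b n (ln b t c)) * R :=
                mul_le_mul h9 h3 h1.1.le (by positivity)
            _ = 4 * B * (V a b n (ln b t c) * R) := by ring
            _ ≤ 4 * B * (8 * B) := mul_le_mul_of_nonneg_left hVR (by linarith)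
            _ = 32 * B ^ 2 := by ring
        linarith)
  refine ⟨P, ?_, hPp, fun s h1 h2 h3 h4 => hPs s ⟨h1, h4⟩ (hcov s h1 h2 h3)⟩
  calc (P.card : ℝ) ≤ P1.card * (17 * B) := hPc
    _ ≤ (C1 * (1 + Real.log (LL a)) ^ 4) * (17 * B) :=
        mul_le_mul_of_nonneg_right hcard (by linarith)
    _ = _ := by ring

end Pool.Agent.Helper18.UY
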