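import Pool.Agent.Helper18.UY.MLong

/-! Block UY-SEL: a large time that is long for a large set of points.

(As `Helper18/UC/Sel.select`, without the Pliss lemma.) Integrate over `P = W ∩ FQ θ N` the inequality
`θ N ≤ ∑_{n=1}^N 1_{LG n} z`: `∑_{n=1}^N vol (W ∩ LG n) ≥ θ N vol P`. The terms `n ≤ n0` give at most `n0`, so if `N > n0` some
`n ∈ (n0, N]` has `vol (W ∩ LG n) ≥ θ vol P - n0/N`. If `N ≤ n0` the left side is `≤ 0` (`θ ≤ 1`, `vol ≤ 1`) and `n = n0 + 1` works. -/

set_option autoImplicit false
open MeasureTheory Real Set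

namespace Pool.Agent.Helper18.UY

open Pool.Agent.Helper18.UC

private lemma h60_prob : IsProbabilityMeasure (volume : Measure T2) := by
  have : IsProbabilityMeasure (volume : Measure UnitAddCircle) :=
    ⟨by simp [AddCircle.measure_univ]⟩
  change IsProbabilityMeasure ((volume : Measure UnitAddCircle).prod volume)
  infer_instance

theorem selectY {a b B θ : ℝ} (hB : 0 < B) (hθ : 0 ≤ θ) (hθ1 : θ ≤ 1) {W : Set T2}
    (hW : MeasurableSet W) {N : ℕ} (hN : 1 ≤ N) (n0 : ℕ) :
    ∃ n, n0 < n ∧ θ * volume.real (W ∩ FQ a b B θ N) - (n0 + 1) / N ≤ volume.real (W ∩ LG a b B n) := by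
  classical
  have := h60_prob
  have hNR : (0 : ℝ) < N := by exact_mod_cast hN
  set P := W ∩ FQ a b B θ N with hP
  have hPm : MeasurableSet P := hW.inter (measurableSet_FQ a b hB θ N)
  have hHm : ∀ n, MeasurableSet (W ∩ LG a b B n) := fun n => hW.inter (measurableSet_LG a b hB n)
  have hP1 : volume.real P ≤ 1 := measureReal_le_one
  have hP0 : 0 ≤ volume.real P := measureReal_nonneg
  -- integrated count
  have hint : θ * N * volume.real P ≤ ∑ n ∈ Finset.Icc 1 N, volume.real (W ∩ LG a b B n) := by
    have e1 : θ * N * volume.real P = ∫ z, θ * N * P.indicator (fun _ => (1 : ℝ)) z := by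
      rw [integral_const_mul, integral_indicator hPm]
      simp
    have e2 : ∑ n ∈ Finset.Icc 1 N, volume.real (W ∩ LG a b B n) =
        ∫ z, ∑ n ∈ Finset.Icc 1 N, (W ∩ LG a b B n).indicator (fun _ => (1 : ℝ)) z := by
      rw [integral_finsetSum]
      · refine Finset.sum_congr rfl fun n _ => ?_
        rw [integral_indicator (hHm n)]
        simp
      · intro n _
        exact (integrable_const (1 : ℝ)).indicator (hHm n)
    rw [e1, e2]
    refine integral_mono (((integrable_const (1 : ℝ)).indicator hPm).const_mul _)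
      (integrable_finsetSum _ fun n _ => (integrable_const (1 : ℝ)).indicator (hHm n)) ?_
    intro z
    by_cases hz : z ∈ P
    · have h1 : θ * N ≤ ∑ n ∈ Finset.Icc 1 N, (LG a b B n).indicator (fun _ => (1 : ℝ)) z := hz.2
      have h2 : ∑ n ∈ Finset.Icc 1 N, (W ∩ LG a b B n).indicator (fun _ => (1 : ℝ)) z =
          ∑ n ∈ Finset.Icc 1 N, (LG a b B n).indicator (fun _ => (1 : ℝ)) z := by
        refine Finset.sum_congr rfl fun n _ => ?_
        by_cases hn : z ∈ LG a b B n
        · rw [indicator_of_mem hn, indicator_of_mem]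
          exact ⟨hz.1, hn⟩
        · rw [indicator_of_notMem hn, indicator_of_notMem]
          intro h
          exact hn h.2
      simp only [h2, indicator_of_mem hz, mul_one]
      exact h1
    · simp only [indicator_of_notMem hz, mul_zero]
      exact Finset.sum_nonneg fun n _ => indicator_nonneg (fun _ _ => zero_le_one) z
  by_contra hcon
  push Not at hcon
  set c := θ * volume.real P - (n0 + 1) / N with hc
  have hc0 : 0 < c := lt_of_le_of_lt measureReal_nonneg (hcon (n0 + 1) (Nat.lt_succ_self _))
  have hNn : n0 < N := by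
    by_contra hle
    push Not at hle
    have h1 : (N : ℝ) ≤ n0 := by exact_mod_cast hle
    have h2 : 1 ≤ ((n0 : ℝ) + 1) / N := by
      rw [le_div_iff₀ hNR]
      linarith
    have h3 : θ * volume.real P ≤ 1 := by nlinarith
    linarith
  have hlt : ∑ n ∈ Finset.Icc 1 N, volume.real (W ∩ LG a b B n) <
      ∑ n ∈ Finset.Icc 1 N, ((if n ≤ n0 then (1 : ℝ) else 0) + c) := by
    apply Finset.sum_lt_sum
    · intro n _
      split_ifs with h
      · have : volume.real (W ∩ LG a b B n) ≤ 1 := measureReal_le_one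
        linarith
      · have := hcon n (not_le.1 h)
        linarith
    · refine ⟨N, Finset.mem_Icc.2 ⟨hN, le_rfl⟩, ?_⟩
      rw [if_neg (by omega)]
      have := hcon N hNn
      linarith
  have hsum : ∑ n ∈ Finset.Icc 1 N, ((if n ≤ n0 then (1 : ℝ) else 0) + c) ≤ n0 + N * c := by
    rw [Finset.sum_add_distrib, Finset.sum_const, Nat.card_Icc, nsmul_eq_mul]
    have h1 : ∑ n ∈ Finset.Icc 1 N, (if n ≤ n0 then (1 : ℝ) else 0) ≤ n0 := by
      rw [← Finset.sum_filter, Finset.sum_const, nsmul_eq_mul, mul_one]
      have h2 : ((Finset.Icc 1 N).filter (fun n => n ≤ n0)).card ≤ n0 := by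
        have h3 : (Finset.Icc 1 N).filter (fun n => n ≤ n0) ⊆ Finset.Icc 1 n0 := by
          intro n hn
          rw [Finset.mem_filter, Finset.mem_Icc] at hn
          exact Finset.mem_Icc.2 ⟨hn.1.1, hn.2⟩
        have := Finset.card_le_card h3
        rw [Nat.card_Icc] at this
        omega
      exact_mod_cast h2
    have h4 : ((N + 1 - 1 : ℕ) : ℝ) = N := by simp
    rw [h4]
    linarith
  have hNb : N * c = θ * N * volume.real P - (n0 + 1) := by
    rw [hc]
    field_simp
  linarith

end Pool.Agent.Helper18.UY
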