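import Pool.Agent.Helper18.UY.Win
import Pool.Agent.Helper18.UY.Vel

/-! Block UY-STEP: one iterate of a piece.

`step`. Let `ε = 1/(8B)`, `V = V a b n (ln b t c) > 0`, `x = xc (n+1)`, `y = xc n`, `x₁ = xc (n+2)`; `‖deriv x c‖ = |wx|, ‖deriv y c‖ = |wy| ≤ V`
(`deriv_xc_real`). On `‖z - c‖ ≤ 2R`: `‖x' z‖, ‖y' z‖ ≤ (1 + ε) V ≤ 2 V`, so `‖x z - x c‖ ≤ 4 R V ≤ 32 B` (convex ball, mean value
inequality `Convex.norm_image_sub_le_of_norm_deriv_le`), `x c` real, `|Im (x z)| ≤ 32 B`,
`‖cos (2π x z)‖ ≤ exp (2π · 32 B) ≤ exp (202 B)` (`‖cos w‖ ≤ exp |Im w|`: `cos w = (e^{iw} + e^{-iw})/2`), and by `deriv_xc_rec`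
`‖x₁' z‖ ≤ Λ := 4 exp (202 B) LL V`, `‖x' z‖ ≤ Λ`. Points `s` with `|s - c| ≤ R/2` have `V n s ∈ [(1-ε) V, (1+ε) V]` (real points
of the disc, `deriv_xc_real`). If `g > LL` or `3 g LL < 1`, there are no class points (`V_succ_le`, `V_le_succ`: class points
satisfy `g ≤ LL` and `1/LL ≤ V (n+1)/V n ≤ e g`), take `P = ∅`. Otherwise put `G = 3 g V` (`≥ e g (1+ε) V`, `e < 2.72`), `G ≤ Λ`.
Apply `win` with `ε/8` to `D₁ w = x₁' (c + R w)`, `D₂ w = x' (c + R w)` and keep the windows `(σ, ρ)` which contain a class point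
within `ρ/2`; the pieces are `(c + R σ, R ρ)`. Class points `s`: `|w| ≤ 1/2`, `‖D₁‖, ‖D₂‖ ≤ V (n+1) s ≤ e g V n s ≤ G`
(`wy (n+1) = wx n`, `deriv_xc_real` for `n+1`). `Pc` at time `n+1`: for the kept window with class point `s₀`,
`V (n+1) c' ≥ V (n+1) s₀ - ε G/8 ≥ g (1-ε) V - ε G/8 ≥ G/4 - G/8 = G/8` (`g(1-ε)V ≥ G/4` as `1 - ε ≥ 3/4`), so
`‖D z - D c'‖ ≤ (ε/8) G ≤ ε V (n+1) c'`. `|c' - c| ≤ R/2`, `R ρ ≤ R/4`. Number: `C (1 + log (Λ/G))^4` and
`Λ/G = 4 exp (202B) LL/(3g) ≤ 4 exp (202 B) LL²`, so `≤ C' (1 + log LL)^4`.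

`vel_near`: inside a piece velocities are nearly constant (`deriv_xc_real`, `Pc` with `z = s` real). -/

set_option autoImplicit false
open MeasureTheory Real Set

namespace Pool.Agent.Helper18.UY

open Pool.Agent.Helper18.UC

private theorem norm_cos_le (w : ℂ) : ‖Complex.cos w‖ ≤ Real.exp |w.im| := by
  have h1 : Complex.cos w = (Complex.exp (w * Complex.I) + Complex.exp (-w * Complex.I)) / 2 := by
    rw [Complex.cos]
  rw [h1, norm_div]
  have h2 : ‖Complex.exp (w * Complex.I)‖ = Real.exp (-w.im) := by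
    rw [Complex.norm_exp]
    simp
  have h3 : ‖Complex.exp (-w * Complex.I)‖ = Real.exp (w.im) := by
    rw [Complex.norm_exp]
    simp
  have h4 : ‖Complex.exp (w * Complex.I) + Complex.exp (-w * Complex.I)‖ ≤
      Real.exp |w.im| + Real.exp |w.im| := by
    refine (norm_add_le _ _).trans ?_
    rw [h2, h3]
    exact add_le_add (Real.exp_le_exp.2 (neg_le_abs _)) (Real.exp_le_exp.2 (le_abs_self _))
  have h5 : ‖(2 : ℂ)‖ = 2 := by simp
  rw [h5, div_le_iff₀ (by norm_num)]
  linarith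

theorem vel_near {a b B t : ℝ} (hB : 100 ≤ B) {n : ℕ} {c R : ℝ} (hP : Pc a b B t n c R) {s : ℝ}
    (hs : |s - c| ≤ 2 * R) :
    |wx a b n (ln b t s) - wx a b n (ln b t c)| ≤ 1 / (8 * B) * V a b n (ln b t c) ∧
    |wy a b n (ln b t s) - wy a b n (ln b t c)| ≤ 1 / (8 * B) * V a b n (ln b t c) ∧
    |V a b n (ln b t s) - V a b n (ln b t c)| ≤ 1 / (8 * B) * V a b n (ln b t c) := by
  have h0 : ‖(s : ℂ) - c‖ ≤ 2 * R := by
    rw [← Complex.ofReal_sub, Complex.norm_real, Real.norm_eq_abs]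
    exact hs
  obtain ⟨h1, h2⟩ := hP.2 s h0
  rw [(deriv_xc_real a b t n s).1, (deriv_xc_real a b t n c).1, ← Complex.ofReal_sub,
    Complex.norm_real, Real.norm_eq_abs] at h1
  rw [(deriv_xc_real a b t n s).2, (deriv_xc_real a b t n c).2, ← Complex.ofReal_sub,
    Complex.norm_real, Real.norm_eq_abs] at h2
  refine ⟨h1, h2, ?_⟩
  refine (abs_max_sub_max_le_max _ _ _ _).trans (max_le ?_ ?_)
  · exact (abs_abs_sub_abs_le_abs_sub _ _).trans h1
  · exact (abs_abs_sub_abs_le_abs_sub _ _).trans h2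

private theorem diff_aux (a b t : ℝ) (k : ℕ) (c R : ℝ) :
    Differentiable ℂ (fun w : ℂ => deriv (xc a b t k) ((c : ℂ) + (R : ℂ) * w)) := by
  have h1 : Differentiable ℂ (deriv (xc a b t k)) := by
    rw [← differentiableOn_univ]
    exact (xc_diff a b t k).differentiableOn.deriv isOpen_univ
  exact h1.comp ((differentiable_const _).add ((differentiable_const _).mul differentiable_id))

/-- The bound on the large disc. -/
private theorem disc_bound {a b B t : ℝ} (hB : 100 ≤ B) {n : ℕ} {c R : ℝ} (hP : Pc a b B t n c R)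
    (hV : V a b n (ln b t c) * R ≤ 8 * B) {z : ℂ} (hz : ‖z - c‖ ≤ 2 * R) :
    ‖deriv (xc a b t (n + 2)) z‖ ≤ 4 * Real.exp (202 * B) * LL a * V a b n (ln b t c) ∧
    ‖deriv (xc a b t (n + 1)) z‖ ≤ 4 * Real.exp (202 * B) * LL a * V a b n (ln b t c) := by
  set v := V a b n (ln b t c) with hv
  have hv0 : 0 < v := V_pos a b n _
  have hR : 0 < R := hP.1
  have hε : 1 / (8 * B) ≤ 1 := by
    rw [div_le_one (by linarith)]
    linarith
  have hx : ∀ z : ℂ, ‖z - c‖ ≤ 2 * R → ‖deriv (xc a b t (n + 1)) z‖ ≤ 2 * v := by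
    intro z hz
    have h1 := (hP.2 z hz).1
    have h2 : ‖deriv (xc a b t (n + 1)) c‖ ≤ v := by
      rw [(deriv_xc_real a b t n c).1, Complex.norm_real, Real.norm_eq_abs]
      exact wx_le a b n _
    have h3 : 1 / (8 * B) * v ≤ 1 * v := mul_le_mul_of_nonneg_right hε hv0.le
    have h4 := norm_le_insert' (deriv (xc a b t (n + 1)) z) (deriv (xc a b t (n + 1)) c)
    linarith
  have hy : ‖deriv (xc a b t n) z‖ ≤ 2 * v := by
    have h1 := (hP.2 z hz).2
    have h2 : ‖deriv (xc a b t n) c‖ ≤ v := by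
      rw [(deriv_xc_real a b t n c).2, Complex.norm_real, Real.norm_eq_abs]
      exact wy_le a b n _
    have h3 : 1 / (8 * B) * v ≤ 1 * v := mul_le_mul_of_nonneg_right hε hv0.le
    have h4 := norm_le_insert' (deriv (xc a b t n) z) (deriv (xc a b t n) c)
    linarith
  have hmv : ‖xc a b t (n + 1) z - xc a b t (n + 1) c‖ ≤ 2 * v * ‖z - c‖ := by
    refine (convex_closedBall (c : ℂ) (2 * R)).norm_image_sub_le_of_norm_deriv_le
      (fun w _ => (xc_diff a b t (n + 1)).differentiableAt) (fun w hw => ?_) ?_ ?_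
    · rw [Metric.mem_closedBall, dist_eq_norm] at hw
      exact hx w hw
    · rw [Metric.mem_closedBall, dist_self]; linarith
    · rw [Metric.mem_closedBall, dist_eq_norm]; exact hz
  have hmv2 : ‖xc a b t (n + 1) z - xc a b t (n + 1) c‖ ≤ 32 * B := by
    have h1 : 2 * v * ‖z - c‖ ≤ 2 * v * (2 * R) := mul_le_mul_of_nonneg_left hz (by linarith)
    have h2 : 2 * v * (2 * R) = 4 * (v * R) := by ring
    linarith
  have him : |(xc a b t (n + 1) z).im| ≤ 32 * B := by
    have h1 : (xc a b t (n + 1) z).im = (xc a b t (n + 1) z - xc a b t (n + 1) c).im := by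
      rw [Complex.sub_im, (xc_real a b t n c).1, Complex.ofReal_im, sub_zero]
    rw [h1]
    exact (Complex.abs_im_le_norm _).trans hmv2
  have hcos : ‖Complex.cos (2 * π * xc a b t (n + 1) z)‖ ≤ Real.exp (202 * B) := by
    refine (norm_cos_le _).trans (Real.exp_le_exp.2 ?_)
    have h1 : (2 * (π : ℂ) * xc a b t (n + 1) z).im = 2 * π * (xc a b t (n + 1) z).im := by
      have h2 : (2 * (π : ℂ) * xc a b t (n + 1) z) = ((2 * π : ℝ) : ℂ) * xc a b t (n + 1) z := by
        push_cast; ring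
      rw [h2, Complex.im_ofReal_mul]
    rw [h1, abs_mul, abs_of_pos (by positivity)]
    have h3 : π < 3.15 := Real.pi_lt_d2
    calc 2 * π * |(xc a b t (n + 1) z).im| ≤ 2 * π * (32 * B) :=
          mul_le_mul_of_nonneg_left him (by positivity)
      _ ≤ 2 * 3.15 * (32 * B) := by
          refine mul_le_mul_of_nonneg_right (by linarith) (by linarith)
      _ ≤ 202 * B := by linarith
  set E := Real.exp (202 * B) with hE
  have hE1 : 1 ≤ E := Real.one_le_exp (by linarith)
  have hLL : LL a = 2 * π * |a| + 4 := rfl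
  have hpa : 0 ≤ 2 * π * |a| := by positivity
  constructor
  · rw [deriv_xc_rec]
    have h1 : ‖(2 + 2 * (π : ℂ) * a * Complex.cos (2 * π * xc a b t (n + 1) z)) *
        deriv (xc a b t (n + 1)) z‖ ≤ (2 + 2 * π * |a| * E) * (2 * v) := by
      rw [norm_mul]
      refine mul_le_mul ?_ (hx z hz) (norm_nonneg _) (by positivity)
      refine (norm_add_le _ _).trans ?_
      have h2 : ‖(2 : ℂ)‖ = 2 := by simp
      have h3 : ‖2 * (π : ℂ) * a * Complex.cos (2 * π * xc a b t (n + 1) z)‖ =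
          2 * π * |a| * ‖Complex.cos (2 * π * xc a b t (n + 1) z)‖ := by
        rw [norm_mul, norm_mul, norm_mul, h2, Complex.norm_real, Complex.norm_real,
          Real.norm_eq_abs, Real.norm_eq_abs, abs_of_pos Real.pi_pos]
      rw [h2, h3]
      exact add_le_add le_rfl (mul_le_mul_of_nonneg_left hcos hpa)
    refine (norm_sub_le _ _).trans ((add_le_add h1 hy).trans ?_)
    rw [hLL]
    have h4 : (2 + 2 * π * |a| * E) * (2 * v) + 2 * v ≤
        4 * E * (2 * π * |a| + 4) * v := by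
      have h5 : 4 * E * (2 * π * |a| + 4) * v - ((2 + 2 * π * |a| * E) * (2 * v) + 2 * v) =
          2 * (2 * π * |a|) * E * v + (16 * E - 6) * v := by ring
      have h6 : 0 ≤ 2 * (2 * π * |a|) * E * v := by positivity
      have h7 : 0 ≤ (16 * E - 6) * v := mul_nonneg (by linarith) hv0.le
      linarith
    exact h4
  · refine (hx z hz).trans (mul_le_mul_of_nonneg_right ?_ hv0.le)
    rw [hLL]
    nlinarith

private theorem exp_one_bd : Real.exp 1 * (1 + 1 / 800) ≤ 3 := by
  have := Real.exp_one_lt_d9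
  nlinarith

theorem step {B : ℝ} (hB : 100 ≤ B) : ∃ C : ℝ, 1 ≤ C ∧ ∀ (a b t : ℝ) (n : ℕ) (c R g : ℝ),
    Pc a b B t n c R → V a b n (ln b t c) * R ≤ 8 * B → 0 < g →
    ∃ P : Finset (ℝ × ℝ), (P.card : ℝ) ≤ C * (1 + Real.log (LL a)) ^ 4 ∧
      (∀ p ∈ P, Pc a b B t (n + 1) p.1 p.2 ∧ |p.1 - c| ≤ R / 2 ∧ p.2 ≤ R) ∧
      ∀ s : ℝ, |s - c| ≤ R / 2 → g * V a b n (ln b t s) ≤ V a b (n + 1) (ln b t s) →
        V a b (n + 1) (ln b t s) ≤ Real.exp 1 * g * V a b n (ln b t s) →
        ∃ p ∈ P, |s - p.1| ≤ p.2 / 2 := by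
  classical
  have hB0 : 0 < B := by linarith
  set ε : ℝ := 1 / (8 * B) with hεdef
  have hε : 0 < ε := by positivity
  have hε1 : ε ≤ 1 / 800 := by
    rw [hεdef]
    exact one_div_le_one_div_of_le (by norm_num) (by linarith)
  obtain ⟨C, hC1, hwin⟩ := win (ε := ε / 8) (by positivity) (by linarith)
  refine ⟨C * (3 + 202 * B) ^ 4, ?_, ?_⟩
  · have h1 : 1 ≤ (3 + 202 * B) ^ 4 := one_le_pow₀ (by linarith)
    nlinarith
  intro a b t n c R g hP hVR hg
  have hR : 0 < R := hP.1
  have hLL4 : 4 ≤ LL a := by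
    have h1 : LL a = 2 * π * |a| + 4 := rfl
    have h2 : 0 ≤ 2 * π * |a| := by positivity
    linarith
  have hlog : 0 ≤ Real.log (LL a) := Real.log_nonneg (by linarith)
  by_cases hcase : g ≤ LL a ∧ 1 ≤ 3 * g * LL a
  swap
  · -- no class points
    refine ⟨∅, ?_, by simp, ?_⟩
    · rw [Finset.card_empty, Nat.cast_zero]
      positivity
    · intro s _ h1 h2
      exfalso
      apply hcase
      have hVs := V_pos a b n (ln b t s)
      constructor
      · have h3 := h1.trans (V_succ_le a b n (ln b t s))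
        exact le_of_mul_le_mul_right h3 hVs
      · have h3 := V_le_succ a b n (ln b t s)
        have h4 : V a b n (ln b t s) ≤ LL a * (Real.exp 1 * g * V a b n (ln b t s)) :=
          h3.trans (mul_le_mul_of_nonneg_left h2 (by linarith))
        have h5 : 1 * V a b n (ln b t s) ≤ (LL a * (Real.exp 1 * g)) * V a b n (ln b t s) := by
          rw [one_mul]
          calc _ ≤ _ := h4
            _ = _ := by ring
        have h6 := le_of_mul_le_mul_right h5 hVs
        have h7 : Real.exp 1 ≤ 3 := by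
          have := Real.exp_one_lt_d9
          linarith
        have h8 : LL a * (Real.exp 1 * g) ≤ LL a * (3 * g) :=
          mul_le_mul_of_nonneg_left (mul_le_mul_of_nonneg_right h7 hg.le) (by linarith)
        calc (1 : ℝ) ≤ LL a * (3 * g) := h6.trans h8
          _ = _ := by ring
  obtain ⟨hgL, hgl⟩ := hcase
  set v := V a b n (ln b t c) with hv
  have hv0 : 0 < v := V_pos a b n _
  set G := 3 * g * v with hG
  have hG0 : 0 < G := by positivity
  set E := Real.exp (202 * B) with hE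
  have hE1 : 1 ≤ E := Real.one_le_exp (by linarith)
  set Λ := 4 * E * LL a * v with hΛ
  have hGΛ : G ≤ Λ := by
    rw [hG, hΛ]
    refine mul_le_mul_of_nonneg_right ?_ hv0.le
    nlinarith
  set D₁ : ℂ → ℂ := fun w => deriv (xc a b t (n + 2)) ((c : ℂ) + (R : ℂ) * w) with hD₁
  set D₂ : ℂ → ℂ := fun w => deriv (xc a b t (n + 1)) ((c : ℂ) + (R : ℂ) * w) with hD₂
  have hD₁r : ∀ w : ℝ, D₁ (w : ℂ) = (wx a b (n + 1) (ln b t (c + R * w)) : ℂ) := by
    intro w
    have h1 := (deriv_xc_real a b t (n + 1) (c + R * w)).1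
    rw [hD₁]
    simp only
    rw [← h1]
    push_cast
    rfl
  have hD₂r : ∀ w : ℝ, D₂ (w : ℂ) = (wy a b (n + 1) (ln b t (c + R * w)) : ℂ) := by
    intro w
    have h1 := (deriv_xc_real a b t (n + 1) (c + R * w)).2
    rw [hD₂]
    simp only
    rw [← h1]
    push_cast
    rfl
  obtain ⟨P0, hcard, hP0, hcov⟩ := hwin D₁ D₂ G Λ (diff_aux a b t _ c R) (diff_aux a b t _ c R)
    hG0 hGΛ (by
      intro w hw
      have hz : ‖((c : ℂ) + (R : ℂ) * w) - c‖ ≤ 2 * R := by
        rw [add_sub_cancel_left, norm_mul, Complex.norm_real, Real.norm_eq_abs, abs_of_pos hR]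
        calc R * ‖w‖ ≤ R * 2 := mul_le_mul_of_nonneg_left hw hR.le
          _ = 2 * R := by ring
      exact disc_bound hB hP hVR hz)
  set cls : ℝ → Prop := fun s => |s - c| ≤ R / 2 ∧
    g * V a b n (ln b t s) ≤ V a b (n + 1) (ln b t s) ∧
    V a b (n + 1) (ln b t s) ≤ Real.exp 1 * g * V a b n (ln b t s) with hcls
  refine ⟨(P0.filter (fun p => ∃ w : ℝ, |w - p.1| ≤ p.2 / 2 ∧ cls (c + R * w))).image
    (fun p => (c + R * p.1, R * p.2)), ?_, ?_, ?_⟩
  · have h1 : ((P0.filter (fun p => ∃ w : ℝ, |w - p.1| ≤ p.2 / 2 ∧ cls (c + R * w))).image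
        (fun p => (c + R * p.1, R * p.2))).card ≤ P0.card :=
      Finset.card_image_le.trans (Finset.card_filter_le _ _)
    have h2 : Λ / G ≤ 4 * E * (LL a * LL a) := by
      rw [div_le_iff₀ hG0, hΛ, hG]
      have h3 : 4 * E * (LL a * LL a) * (3 * g * v) = (4 * E * LL a * v) * (3 * g * LL a) := by ring
      rw [h3]
      have h4 : 0 ≤ 4 * E * LL a * v := by positivity
      nlinarith
    have h3 : 1 ≤ Λ / G := by rw [one_le_div hG0]; exact hGΛ
    have h4 : Real.log (Λ / G) ≤ 2 + 202 * B + 2 * Real.log (LL a) := by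
      refine (Real.log_le_log (by linarith) h2).trans ?_
      have hL0 : LL a ≠ 0 := by linarith
      rw [Real.log_mul (by positivity) (mul_ne_zero hL0 hL0), Real.log_mul (by norm_num)
        (by positivity), Real.log_mul hL0 hL0, hE, Real.log_exp]
      have h5 : Real.log 4 ≤ 2 := by
        have h6 : Real.log 4 = 2 * Real.log 2 := by
          rw [show (4 : ℝ) = 2 ^ 2 by norm_num, Real.log_pow]
          norm_num
        have h7 := Real.log_two_lt_d9
        linarith
      linarith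
    have h5 : 0 ≤ Real.log (Λ / G) := Real.log_nonneg h3
    calc ((((P0.filter (fun p => ∃ w : ℝ, |w - p.1| ≤ p.2 / 2 ∧ cls (c + R * w))).image
        (fun p => (c + R * p.1, R * p.2))).card : ℕ) : ℝ) ≤ P0.card := by exact_mod_cast h1
      _ ≤ C * (1 + Real.log (Λ / G)) ^ 4 := hcard
      _ ≤ C * ((3 + 202 * B) * (1 + Real.log (LL a))) ^ 4 := by
          refine mul_le_mul_of_nonneg_left (pow_le_pow_left₀ (by linarith) ?_ 4) (by linarith)
          nlinarith
      _ = _ := by rw [mul_pow]; ring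
  · intro p hp
    obtain ⟨q, hq, rfl⟩ := Finset.mem_image.1 hp
    obtain ⟨hqP, w, hw, hcl⟩ := Finset.mem_filter.1 hq
    obtain ⟨hq2, hq1, hq4, hqD⟩ := hP0 q hqP
    obtain ⟨hcl1, hcl2, hcl3⟩ := hcl
    have hVc : G / 8 ≤ V a b (n + 1) (ln b t (c + R * q.1)) := by
      have h1 : ‖(w : ℂ) - q.1‖ ≤ 2 * q.2 := by
        rw [← Complex.ofReal_sub, Complex.norm_real, Real.norm_eq_abs]
        linarith
      obtain ⟨h2, h3⟩ := hqD w h1
      rw [hD₁r, hD₁r, ← Complex.ofReal_sub, Complex.norm_real, Real.norm_eq_abs] at h2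
      rw [hD₂r, hD₂r, ← Complex.ofReal_sub, Complex.norm_real, Real.norm_eq_abs] at h3
      have h4 : |V a b (n + 1) (ln b t (c + R * w)) - V a b (n + 1) (ln b t (c + R * q.1))| ≤
          ε / 8 * G := by
        refine (abs_max_sub_max_le_max _ _ _ _).trans (max_le ?_ ?_)
        · exact (abs_abs_sub_abs_le_abs_sub _ _).trans h2
        · exact (abs_abs_sub_abs_le_abs_sub _ _).trans h3
      have h5 := (abs_le.1 h4).2
      have h6 := (abs_le.1 (vel_near hB hP (s := c + R * w) (by linarith)).2.2).1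
      have h7 : 3 / 4 * v ≤ V a b n (ln b t (c + R * w)) := by
        have h8 : 1 / (8 * B) * v ≤ 1 / 800 * v := mul_le_mul_of_nonneg_right hε1 hv0.le
        linarith
      have h8 : G / 4 ≤ V a b (n + 1) (ln b t (c + R * w)) := by
        refine le_trans ?_ hcl2
        have h9 : g * (3 / 4 * v) ≤ g * V a b n (ln b t (c + R * w)) :=
          mul_le_mul_of_nonneg_left h7 hg.le
        have h10 : G / 4 = g * (3 / 4 * v) := by rw [hG]; ring
        linarith
      have h9 : ε / 8 * G ≤ 1 / 8 * G := mul_le_mul_of_nonneg_right (by linarith) hG0.le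
      linarith
    refine ⟨⟨by positivity, ?_⟩, ?_, ?_⟩
    · intro z hz
      simp only at hz
      set w' : ℂ := (z - c) / R with hw'
      have hRc : (R : ℂ) ≠ 0 := by exact_mod_cast hR.ne'
      have hz' : (c : ℂ) + (R : ℂ) * w' = z := by
        rw [hw']
        field_simp
        ring
      have h1 : ‖w' - q.1‖ ≤ 2 * q.2 := by
        have h2 : (R : ℂ) * (w' - q.1) = z - ((c + R * q.1 : ℝ) : ℂ) := by
          push_cast
          rw [← hz']
          ring
        have h3 : R * ‖w' - q.1‖ ≤ R * (2 * q.2) := by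
          calc R * ‖w' - q.1‖ = ‖(R : ℂ) * (w' - q.1)‖ := by
                rw [norm_mul, Complex.norm_real, Real.norm_eq_abs, abs_of_pos hR]
            _ = ‖z - ((c + R * q.1 : ℝ) : ℂ)‖ := by rw [h2]
            _ ≤ 2 * (R * q.2) := hz
            _ = R * (2 * q.2) := by ring
        exact le_of_mul_le_mul_left h3 hR
      obtain ⟨h2, h3⟩ := hqD w' h1
      have h4 : D₁ w' = deriv (xc a b t (n + 1 + 1)) z := by
        rw [hD₁]; simp only; rw [hz']
      have h5 : D₂ w' = deriv (xc a b t (n + 1)) z := by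
        rw [hD₂]; simp only; rw [hz']
      have h6 : D₁ (q.1 : ℂ) = deriv (xc a b t (n + 1 + 1)) ((c + R * q.1 : ℝ) : ℂ) := by
        rw [hD₁]; simp only; push_cast; rfl
      have h7 : D₂ (q.1 : ℂ) = deriv (xc a b t (n + 1)) ((c + R * q.1 : ℝ) : ℂ) := by
        rw [hD₂]; simp only; push_cast; rfl
      rw [h4, h6] at h2
      rw [h5, h7] at h3
      have h8 : ε / 8 * G ≤ ε * V a b (n + 1) (ln b t (c + R * q.1)) := by
        calc ε / 8 * G = ε * (G / 8) := by ring
          _ ≤ _ := mul_le_mul_of_nonneg_left hVc hε.le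
      exact ⟨h2.trans h8, h3.trans h8⟩
    · simp only
      rw [add_sub_cancel_left, abs_mul, abs_of_pos hR]
      calc R * |q.1| ≤ R * (1 / 2) := mul_le_mul_of_nonneg_left hq1 hR.le
        _ = R / 2 := by ring
    · simp only
      nlinarith
  · intro s hs h1 h2
    set w : ℝ := (s - c) / R with hw
    have hsw : c + R * w = s := by
      rw [hw]
      field_simp
      ring
    have hw1 : |w| ≤ 1 / 2 := by
      rw [hw, abs_div, abs_of_pos hR, div_le_iff₀ hR]
      linarith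
    have h3 : V a b (n + 1) (ln b t s) ≤ G := by
      have h4 := (abs_le.1 (vel_near hB hP (s := s) (by linarith)).2.2).2
      have h5 : V a b n (ln b t s) ≤ (1 + 1 / 800) * v := by
        have h8 : 1 / (8 * B) * v ≤ 1 / 800 * v := mul_le_mul_of_nonneg_right hε1 hv0.le
        linarith
      have h6 : Real.exp 1 * g * V a b n (ln b t s) ≤ Real.exp 1 * g * ((1 + 1 / 800) * v) :=
        mul_le_mul_of_nonneg_left h5 (by positivity)
      have h7 : Real.exp 1 * g * ((1 + 1 / 800) * v) = Real.exp 1 * (1 + 1 / 800) * (g * v) := by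
        ring
      have h8 : Real.exp 1 * (1 + 1 / 800) * (g * v) ≤ 3 * (g * v) :=
        mul_le_mul_of_nonneg_right exp_one_bd (by positivity)
      have h9 : G = 3 * (g * v) := by rw [hG]; ring
      linarith
    have h4 : ‖D₁ (w : ℂ)‖ ≤ G := by
      rw [hD₁r, hsw, Complex.norm_real, Real.norm_eq_abs]
      exact (wx_le a b _ _).trans h3
    have h5 : ‖D₂ (w : ℂ)‖ ≤ G := by
      rw [hD₂r, hsw, Complex.norm_real, Real.norm_eq_abs]
      exact (wy_le a b _ _).trans h3
    obtain ⟨p, hp, hwp⟩ := hcov w hw1 h4 h5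
    refine ⟨(c + R * p.1, R * p.2), Finset.mem_image.2 ⟨p, Finset.mem_filter.2
      ⟨hp, w, hwp, ?_⟩, rfl⟩, ?_⟩
    · rw [hsw]
      exact ⟨hs, h1, h2⟩
    · simp only
      have h6 : s - (c + R * p.1) = R * (w - p.1) := by
        rw [← hsw]; ring
      rw [h6, abs_mul, abs_of_pos hR]
      calc R * |w - p.1| ≤ R * (p.2 / 2) := mul_le_mul_of_nonneg_left hwp hR.le
        _ = R * p.2 / 2 := by ring

end Pool.Agent.Helper18.UY
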