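import Pool.Agent.Helper18.UY.Sel
import Pool.Agent.Helper18.UY.Dens
import Pool.Agent.Helper18.UY.Fam
import Pool.Agent.Helper18.UY.Good

/-! Block UY-STRIPS: the family of strips.

`coreY`. `density1` gives `E0 ⊆ E` (`vol (E \ E0) ≤ ε/4`) and `k0`. Choose `n0 ≥ n1, 1` with `vol (E \ PV c n) ≤ ε/8` and `exp (c n) ≥ B 2^(k0+1)` for all `n > n0`,
then `N` with `vol (E \ FQ θ N) ≤ ε/8` and `(n0 + 1)/N ≤ ε/8`; `selectY` with `W = E0` gives `n > n0` with
`vol (E0 ∩ LG n) ≥ θ vol (E0 ∩ FQ) - ε/8 ≥ θ vol E - ε/2`. Let `W = E0 ∩ LG n ∩ PV c n`, `vol W ≥ θ vol E - ε`. For `z ∈ W` let `lev z` be the least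
`k` with `1/2^k ≤ B / V n (rep z)`; `V ≥ B 2^(k0+1)` gives `lev z ≥ k0 + 1`, and by minimality `1/2^(lev z) > B/(2V)`. Put
`W k = {(s, t) ∈ [0,1)² | toT (ln b t s) ∈ W, lev = k}` (measurable: `V`, `toT` are) and let `T k i` be from `exists_strips`;
`𝒬` is the set of the `Q k i = strip b (J k i) (T k i) = rb b ⁻¹' (J k i ×ˢ T k i)` with `T k i` not empty. Countable, pairwise disjoint. For `t ∈ T k i` there is `s ∈ J k i`
with `z = toT (ln b t s) ∈ W`, `lev z = k`, `rb b z = (s, t)` (`rb_toT`), so `GoodL a b B n t (i/2^k) (1/2^k)` by `good_of_long` (`V_rb`), and `density1`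
(`⌊2^k s⌋ = i`) gives `volume {s' ∈ J k i | toT (ln b t s') ∉ E} ≤ ofReal (η/2^k)`; by `vol_strip_diff`, `vol_strip`:
`vol (Q \ E) ≤ ofReal (η/2^k) vol T = ofReal η vol Q`. `T k i` not empty gives `i < 2^k`, so `J k i ⊆ [0,1)`. Finally `W = rb b ⁻¹' (⋃ W k)`
up to nothing, so `vol W = vol (⋃ W k) ≤ vol (⋃ J k i ×ˢ T k i) = vol (⋃₀ 𝒬)` (`vol_rb`). -/

set_option autoImplicit false
open MeasureTheory Real Set Filter

namespace Pool.Agent.Helper18.UY

open Pool.Agent.Helper18.UC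

private lemma coreY_lev (a b B : ℝ) (hB : 0 < B) (n : ℕ) (z : T2) :
    ∃ k : ℕ, (1:ℝ) / 2 ^ k ≤ B / V a b n (rep z) ∧ ∀ j < k, B / V a b n (rep z) < (1:ℝ) / 2 ^ j := by
  have h1 : 0 < B / V a b n (rep z) := div_pos hB (V_pos a b n (rep z))
  have h2 : ∃ k : ℕ, (1:ℝ) / 2 ^ k ≤ B / V a b n (rep z) := by
    obtain ⟨k, hk⟩ := exists_pow_lt_of_lt_one h1 (by norm_num : (1/2:ℝ) < 1)
    refine ⟨k, ?_⟩
    rw [one_div_pow] at hk
    exact hk.le
  classical
  refine ⟨Nat.find h2, Nat.find_spec h2, fun j hj => ?_⟩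
  exact not_le.1 (Nat.find_min h2 hj)

private lemma coreY_meas_ln (b : ℝ) : Measurable (fun p : ℝ × ℝ => toT (ln b p.2 p.1)) := by
  refine measurable_toT.comp ?_
  unfold ln
  exact measurable_fst.prodMk (measurable_snd.add (measurable_fst.const_mul b))

private lemma coreY_lev_meas (a b B : ℝ) (n k : ℕ) :
    MeasurableSet {z : T2 | (1:ℝ) / 2 ^ k ≤ B / V a b n (rep z) ∧
      ∀ j < k, B / V a b n (rep z) < (1:ℝ) / 2 ^ j} := by
  have hm : Measurable (fun z : T2 => B / V a b n (rep z)) :=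
    measurable_const.div ((V_cont a b n).measurable.comp measurable_rep)
  have h1 : MeasurableSet {z : T2 | (1:ℝ) / 2 ^ k ≤ B / V a b n (rep z)} :=
    measurableSet_le measurable_const hm
  have h2 : MeasurableSet (⋂ j : ℕ, ⋂ _ : j < k, {z : T2 | B / V a b n (rep z) < (1:ℝ) / 2 ^ j}) :=
    MeasurableSet.iInter fun j => MeasurableSet.iInter fun _ =>
      measurableSet_lt hm measurable_const
  have h3 : {z : T2 | (1:ℝ) / 2 ^ k ≤ B / V a b n (rep z) ∧
      ∀ j < k, B / V a b n (rep z) < (1:ℝ) / 2 ^ j} =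
      {z : T2 | (1:ℝ) / 2 ^ k ≤ B / V a b n (rep z)} ∩
        ⋂ j : ℕ, ⋂ _ : j < k, {z : T2 | B / V a b n (rep z) < (1:ℝ) / 2 ^ j} := by
    ext z
    rw [mem_inter_iff, mem_iInter]
    constructor
    · rintro ⟨h, h'⟩
      refine ⟨h, fun j => ?_⟩
      rw [mem_iInter]
      exact fun hj => h' j hj
    · rintro ⟨h, h'⟩
      refine ⟨h, fun j hj => ?_⟩
      have h4 := h' j
      rw [mem_iInter] at h4
      exact h4 hj
  rw [h3]
  exact h1.inter h2

private lemma coreY_floor {k i : ℕ} {s : ℝ} (hs : s ∈ Ico ((i:ℝ) / 2 ^ k) ((i:ℝ) / 2 ^ k + 1 / 2 ^ k)) :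
    ⌊2 ^ k * s⌋ = (i : ℤ) := by
  have h2 : (0:ℝ) < 2 ^ k := by positivity
  rw [Int.floor_eq_iff]
  obtain ⟨h3, h4⟩ := hs
  rw [div_le_iff₀ h2] at h3
  rw [← add_div, lt_div_iff₀ h2] at h4
  push_cast
  constructor
  · linarith
  · linarith

private lemma coreY_sub {k i : ℕ} (hi : i < 2 ^ k) :
    Ico ((i:ℝ) / 2 ^ k) ((i:ℝ) / 2 ^ k + 1 / 2 ^ k) ⊆ Ico 0 1 := by
  have h2 : (0:ℝ) < 2 ^ k := by positivity
  have h3 : ((i:ℝ) + 1) ≤ 2 ^ k := by exact_mod_cast hi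
  intro s hs
  refine ⟨le_trans (by positivity) hs.1, hs.2.trans_le ?_⟩
  rw [← add_div, div_le_one h2]
  exact h3

theorem coreY {a b B c θ : ℝ} (hB : 100 ≤ B) (hc : 0 < c) (hθ : 0 ≤ θ) (hθ1 : θ ≤ 1) {E : Set T2}
    (hE : MeasurableSet E) (hP : Tendsto (fun N => volume (E \ PV a b c N)) atTop (nhds 0))
    (hF : Tendsto (fun N => volume (E \ FQ a b B θ N)) atTop (nhds 0))
    {η ε : ℝ} (hη : 0 < η) (hε : 0 < ε) (n1 : ℕ) :
    ∃ (n : ℕ) (𝒬 : Set (Set T2)), n1 ≤ n ∧ FamL a b B n E η 𝒬 ∧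
      θ * volume.real E - ε ≤ volume.real (⋃₀ 𝒬) := by
  have hB0 : 0 < B := by linarith
  obtain ⟨E0, hE0E, hE0m, hE0v, k0, hk0⟩ := density1 b hE hη (show 0 < ε / 4 by linarith)
  have ev1 : ∀ᶠ N : ℕ in atTop, volume (E \ PV a b c N) < ENNReal.ofReal (ε / 8) :=
    hP.eventually_lt_const (by
      rw [ENNReal.ofReal_pos]
      linarith)
  have ev2 : ∀ᶠ N : ℕ in atTop, B * 2 ^ (k0 + 1) ≤ Real.exp (c * N) := by
    have h1 : Tendsto (fun N : ℕ => Real.exp (c * N)) atTop atTop :=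
      Real.tendsto_exp_atTop.comp (tendsto_natCast_atTop_atTop.const_mul_atTop hc)
    exact h1.eventually_ge_atTop _
  obtain ⟨n0, hn0⟩ := eventually_atTop.1 ((ev1.and ev2).and (eventually_ge_atTop n1))
  have ev3 : ∀ᶠ N : ℕ in atTop, volume (E \ FQ a b B θ N) < ENNReal.ofReal (ε / 8) :=
    hF.eventually_lt_const (by
      rw [ENNReal.ofReal_pos]
      linarith)
  have ev4 : ∀ᶠ N : ℕ in atTop, ((n0:ℝ) + 1) / N < ε / 8 := by
    have h1 : Tendsto (fun N : ℕ => ((n0:ℝ) + 1) / N) atTop (nhds 0) :=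
      tendsto_const_div_atTop_nhds_zero_nat _
    exact h1.eventually_lt_const (by linarith)
  obtain ⟨N, hN1, hN2, hN3⟩ := (ev3.and (ev4.and (eventually_ge_atTop 1))).exists
  obtain ⟨n, hn, hsel⟩ := selectY (a := a) (b := b) hB0 hθ hθ1 hE0m hN3 n0
  obtain ⟨⟨hP1, hexp⟩, hnn1⟩ := hn0 n hn.le
  have hn1' : 1 ≤ n := by omega
  -- the set of good points
  set Ws : Set T2 := E0 ∩ LG a b B n ∩ PV a b c n with hWs
  have hWsm : MeasurableSet Ws :=
    (hE0m.inter (measurableSet_LG a b hB0 n)).inter (measurableSet_PV a b c n)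
  set W : ℕ → Set (ℝ × ℝ) := fun k => (Ico (0:ℝ) 1 ×ˢ Ico (0:ℝ) 1) ∩
    (fun p : ℝ × ℝ => toT (ln b p.2 p.1)) ⁻¹' (Ws ∩ {z : T2 | (1:ℝ) / 2 ^ k ≤ B / V a b n (rep z) ∧
      ∀ j < k, B / V a b n (rep z) < (1:ℝ) / 2 ^ j}) with hWdef
  have hWm : ∀ k, MeasurableSet (W k) := fun k =>
    (measurableSet_Ico.prod measurableSet_Ico).inter
      (coreY_meas_ln b (hWsm.inter (coreY_lev_meas a b B n k)))
  obtain ⟨T, hTm, hT01, hTe, hTs, hTd, hTn⟩ := exists_strips W hWm (fun k => inter_subset_left)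
  -- properties of the points of `W k`
  have hpt : ∀ k i : ℕ, ∀ t ∈ T k i, ∃ s z, s ∈ Ico ((i : ℝ) / 2 ^ k) ((i : ℝ) / 2 ^ k + 1 / 2 ^ k) ∧
      z ∈ E0 ∧ rb b z = (s, t) ∧ k0 ≤ k ∧ GoodL a b B n t ((i:ℝ) / 2 ^ k) (1 / 2 ^ k) := by
    intro k i t ht
    obtain ⟨s, hs, hst⟩ := hTs k i t ht
    obtain ⟨⟨hs1, ht1⟩, ⟨⟨hz1, hz2⟩, hz3⟩, hz4, hz5⟩ := hst
    have hrb : rb b (toT (ln b t s)) = (s, t) := rb_toT hs1 ht1
    have hV := V_rb a b n (toT (ln b t s))
    rw [hrb] at hV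
    have hVp : 0 < V a b n (rep (toT (ln b t s))) := V_pos a b n _
    have hL : Long a b B n t s := by
      have h1 : Long a b B n (rb b (toT (ln b t s))).2 (rb b (toT (ln b t s))).1 := hz2
      rwa [hrb] at h1
    have hVe : B * 2 ^ (k0 + 1) ≤ V a b n (rep (toT (ln b t s))) := by
      have h1 : Real.exp (c * n) ≤ V a b n (rep (toT (ln b t s))) := hz3
      exact hexp.trans h1
    have h4 : (1:ℝ) / 2 ^ k ≤ B / V a b n (rep (toT (ln b t s))) := hz4
    have h5 : ∀ j < k, B / V a b n (rep (toT (ln b t s))) < (1:ℝ) / 2 ^ j := hz5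
    have hk : k0 < k := by
      by_contra hcon
      rw [not_lt] at hcon
      have h6 : (1:ℝ) / 2 ^ k0 ≤ 1 / 2 ^ k :=
        one_div_le_one_div_of_le (by positivity) (pow_le_pow_right₀ (by norm_num) hcon)
      have h7 : (1:ℝ) / 2 ^ k0 ≤ B / V a b n (rep (toT (ln b t s))) := h6.trans h4
      rw [div_le_div_iff₀ (by positivity) hVp, one_mul] at h7
      rw [pow_succ] at hVe
      have h8 : 0 < B * 2 ^ k0 := by positivity
      nlinarith
    refine ⟨s, toT (ln b t s), hs, hz1, hrb, hk.le, ?_⟩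
    refine good_of_long hB hn1' hL (by positivity) ⟨hs.1, hs.2.le⟩ ?_ ?_
    · rw [hV]
      obtain ⟨m, hm⟩ : ∃ m, k = m + 1 := ⟨k - 1, by omega⟩
      have h6 := h5 m (by omega)
      rw [hm, pow_succ]
      have h8 : B / (2 * V a b n (rep (toT (ln b t s)))) = B / V a b n (rep (toT (ln b t s))) / 2 := by
        rw [mul_comm, div_div]
      have h9 : (1:ℝ) / (2 ^ m * 2) = 1 / 2 ^ m / 2 := by rw [div_div]
      rw [h8, h9]
      linarith
    · rw [hV]
      exact h4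
  have hi : ∀ k i : ℕ, (T k i).Nonempty → i < 2 ^ k := by
    intro k i h
    by_contra hcon
    rw [not_lt] at hcon
    rw [hTe k i hcon] at h
    exact Set.not_nonempty_empty h
  set 𝒬 : Set (Set T2) := {Q | ∃ k i : ℕ, (T k i).Nonempty ∧
    Q = strip b (Ico ((i : ℝ) / 2 ^ k) ((i : ℝ) / 2 ^ k + 1 / 2 ^ k)) (T k i)} with h𝒬
  refine ⟨n, 𝒬, hnn1, ⟨?_, ?_, ?_, ?_⟩, ?_⟩
  · refine (Set.countable_range (fun p : ℕ × ℕ =>
      strip b (Ico ((p.2 : ℝ) / 2 ^ p.1) ((p.2 : ℝ) / 2 ^ p.1 + 1 / 2 ^ p.1)) (T p.1 p.2))).mono ?_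
    rintro Q ⟨k, i, _, hQ⟩
    exact ⟨(k, i), hQ.symm⟩
  · rintro Q ⟨k, i, _, hQ⟩ Q' ⟨k', i', _, hQ'⟩ hne
    have h1 : (k, i) ≠ (k', i') := by
      intro h
      rw [Prod.mk.injEq] at h
      apply hne
      rw [hQ, hQ', h.1, h.2]
    have h2 := (hTd k i k' i' h1).preimage (rb b)
    show Disjoint Q Q'
    rw [hQ, hQ']
    exact h2
  · rintro Q ⟨k, i, hne, hQ⟩
    refine ⟨(i:ℝ) / 2 ^ k, 1 / 2 ^ k, T k i, hQ, hTm k i, hT01 k i, coreY_sub (hi k i hne),
      by positivity, fun t ht => ?_⟩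
    obtain ⟨s, z, -, -, -, -, hG⟩ := hpt k i t ht
    exact hG
  · rintro Q ⟨k, i, hne, hQ⟩
    have hsub := coreY_sub (hi k i hne)
    rw [hQ, vol_strip_diff b measurableSet_Ico (hTm k i) hsub (hT01 k i) hE,
      vol_strip b measurableSet_Ico (hTm k i) hsub (hT01 k i), Real.volume_Ico, add_sub_cancel_left]
    have h1 : ∫⁻ t in T k i, volume {s | s ∈ Ico ((i : ℝ) / 2 ^ k) ((i : ℝ) / 2 ^ k + 1 / 2 ^ k) ∧
        toT (ln b t s) ∉ E} ≤ ∫⁻ _ in T k i, ENNReal.ofReal (η / 2 ^ k) := by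
      refine setLIntegral_mono measurable_const fun t ht => ?_
      obtain ⟨s, z, hs, hz, hrb, hk, -⟩ := hpt k i t ht
      have h2 := hk0 k hk z hz
      rw [hrb] at h2
      simp only at h2
      rw [coreY_floor hs, Int.cast_natCast] at h2
      exact h2
    refine h1.trans (le_of_eq ?_)
    rw [setLIntegral_const, ← mul_assoc, ← ENNReal.ofReal_mul hη.le]
    congr 2
    ring
  · -- total measure
    have hcov : Ws ⊆ rb b ⁻¹' (⋃ k, W k) := by
      intro z hz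
      obtain ⟨k, hk1, hk2⟩ := coreY_lev a b B hB0 n z
      refine mem_iUnion.2 ⟨k, rb_mem b z, ?_⟩
      rw [mem_preimage]
      rw [toT_ln_rb]
      exact ⟨hz, hk1, hk2⟩
    have hUm : MeasurableSet (⋃ k, W k) := MeasurableSet.iUnion hWm
    have hUs : (⋃ k, W k) ⊆ Ico (0:ℝ) 1 ×ˢ Ico (0:ℝ) 1 := iUnion_subset fun k => inter_subset_left
    set U : Set (ℝ × ℝ) := ⋃ k : ℕ, ⋃ i : ℕ,
      Ico ((i : ℝ) / 2 ^ k) ((i : ℝ) / 2 ^ k + 1 / 2 ^ k) ×ˢ T k i with hU
    have hU2m : MeasurableSet U :=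
      MeasurableSet.iUnion fun k => MeasurableSet.iUnion fun i => measurableSet_Ico.prod (hTm k i)
    have hU2s : U ⊆ Ico (0:ℝ) 1 ×ˢ Ico (0:ℝ) 1 := by
      refine iUnion_subset fun k => iUnion_subset fun i => ?_
      rintro ⟨s, t⟩ ⟨h1, h2⟩
      exact ⟨coreY_sub (hi k i ⟨t, h2⟩) h1, hT01 k i h2⟩
    have hUQ : rb b ⁻¹' U ⊆ ⋃₀ 𝒬 := by
      intro z hz
      obtain ⟨k, hk⟩ := mem_iUnion.1 (show rb b z ∈ U from hz)
      obtain ⟨i, h1, h2⟩ := mem_iUnion.1 hk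
      exact ⟨_, ⟨k, i, ⟨_, h2⟩, rfl⟩, h1, h2⟩
    have m0 : volume Ws ≤ volume (⋃₀ 𝒬) := by
      calc volume Ws ≤ volume (rb b ⁻¹' (⋃ k, W k)) := measure_mono hcov
        _ = volume (⋃ k, W k) := vol_rb b hUm hUs
        _ ≤ volume U + volume ((⋃ k, W k) \ U) := by
            refine (measure_mono ?_).trans (measure_union_le _ _)
            intro p hp
            by_cases h : p ∈ U
            · exact Or.inl h
            · exact Or.inr ⟨hp, h⟩
        _ = volume U := by rw [hTn, add_zero]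
        _ = volume (rb b ⁻¹' U) := (vol_rb b hU2m hU2s).symm
        _ ≤ volume (⋃₀ 𝒬) := measure_mono hUQ
    have m1 : volume.real Ws ≤ volume.real (⋃₀ 𝒬) :=
      ENNReal.toReal_mono (measure_ne_top _ _) m0
    have m2 : volume.real E ≤ volume.real E0 + ε / 4 := by
      have h1 : volume.real E = volume.real (E ∩ E0) + volume.real (E \ E0) :=
        (measureReal_inter_add_sdiff hE0m).symm
      have h2 : volume.real (E \ E0) ≤ ε / 4 := by
        have := ENNReal.toReal_mono ENNReal.ofReal_ne_top hE0v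
        rwa [ENNReal.toReal_ofReal (by linarith)] at this
      have h3 : volume.real (E ∩ E0) ≤ volume.real E0 := measureReal_mono Set.inter_subset_right
      linarith
    have m3 : volume.real E0 ≤ volume.real (E0 ∩ FQ a b B θ N) + ε / 8 := by
      have h1 : volume.real E0 = volume.real (E0 ∩ FQ a b B θ N) + volume.real (E0 \ FQ a b B θ N) :=
        (measureReal_inter_add_sdiff (measurableSet_FQ a b hB0 θ N)).symm
      have h2 : volume.real (E0 \ FQ a b B θ N) ≤ volume.real (E \ FQ a b B θ N) :=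
        measureReal_mono (Set.sdiff_subset_sdiff_left hE0E)
      have h3 : volume.real (E \ FQ a b B θ N) ≤ ε / 8 := by
        have := ENNReal.toReal_mono ENNReal.ofReal_ne_top hN1.le
        rwa [ENNReal.toReal_ofReal (by linarith)] at this
      linarith
    have m4 : volume.real (E0 ∩ LG a b B n) ≤ volume.real Ws + ε / 8 := by
      have h1 : volume.real (E0 ∩ LG a b B n) =
          volume.real ((E0 ∩ LG a b B n) ∩ PV a b c n) + volume.real ((E0 ∩ LG a b B n) \ PV a b c n) :=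
        (measureReal_inter_add_sdiff (measurableSet_PV a b c n)).symm
      have h2 : volume.real ((E0 ∩ LG a b B n) \ PV a b c n) ≤ volume.real (E \ PV a b c n) :=
        measureReal_mono (Set.sdiff_subset_sdiff_left (inter_subset_left.trans hE0E))
      have h3 : volume.real (E \ PV a b c n) ≤ ε / 8 := by
        have := ENNReal.toReal_mono ENNReal.ofReal_ne_top hP1.le
        rwa [ENNReal.toReal_ofReal (by linarith)] at this
      linarith
    have m5 : θ * (volume.real E - 3 * ε / 8) ≤ θ * volume.real (E0 ∩ FQ a b B θ N) :=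
      mul_le_mul_of_nonneg_left (by linarith) hθ
    have m6 : θ * (3 * ε / 8) ≤ 1 * (3 * ε / 8) := mul_le_mul_of_nonneg_right hθ1 (by linarith)
    rw [mul_sub] at m5
    linarith

end Pool.Agent.Helper18.UY
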