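import Mathlib

/-! Block UY-TAY: Taylor polynomials of an entire function. (Pure Mathlib.)

`P = ∑_{k ≤ d} (D^(k)(0)/k!) X^k`. Cauchy: `‖D^(k)(0)/k!‖ ≤ Λ / 2^k` (`Complex.norm_iteratedDeriv_le_of_forall_mem_sphere_norm_le`
or `norm_cauchyPowerSeries_le`), and `D z = ∑ D^(k)(0)/k! z^k` (`Complex.hasSum_taylorSeries_of_entire` or
`Complex.hasSum_taylorSeries_on_ball`). For `‖z‖ ≤ 1` the error is at most `∑_{k > d} Λ / 2^k = Λ / 2^d`. (`d = 0` is fine.) -/

set_option autoImplicit false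
open Polynomial

namespace Pool.Agent.Helper18.UY

theorem taylor_poly {D : ℂ → ℂ} (hD : Differentiable ℂ D) {Λ : ℝ} (hΛ : ∀ z : ℂ, ‖z‖ ≤ 2 → ‖D z‖ ≤ Λ)
    (d : ℕ) : ∃ P : ℂ[X], P.natDegree ≤ d ∧ ∀ z : ℂ, ‖z‖ ≤ 1 → ‖D z - P.eval z‖ ≤ Λ / 2 ^ d := by
  set c : ℕ → ℂ := fun k => (k.factorial : ℂ)⁻¹ * iteratedDeriv k D 0 with hc
  have hcb : ∀ k, ‖c k‖ ≤ Λ / 2 ^ k := by
    intro k
    have h1 := Complex.norm_iteratedDeriv_le_of_forall_mem_sphere_norm_le (n := k) (f := D) (c := 0) (R := 2) (C := Λ)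
      (by norm_num) hD.diffContOnCl (fun z hz => hΛ z (by simpa using (mem_sphere_zero_iff_norm.1 hz).le))
    have hk : (0 : ℝ) < (k.factorial : ℝ) := by exact_mod_cast k.factorial_pos
    simp only [hc, norm_mul, norm_inv, Complex.norm_natCast]
    rw [inv_mul_le_iff₀ hk]
    refine h1.trans (le_of_eq ?_)
    ring
  have hsum : ∀ z : ℂ, HasSum (fun n : ℕ => c n * z ^ n) (D z) := by
    intro z
    have h1 := Complex.hasSum_taylorSeries_of_entire hD 0 z
    refine h1.congr_fun ?_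
    intro n
    simp only [hc, smul_eq_mul, sub_zero]
    ring
  refine ⟨∑ k ∈ Finset.range (d + 1), Polynomial.monomial k (c k), ?_, fun z hz => ?_⟩
  · refine Polynomial.natDegree_sum_le_of_forall_le _ _ fun k hk => ?_
    rw [Finset.mem_range] at hk
    exact (Polynomial.natDegree_monomial_le _).trans (by omega)
  · rw [Polynomial.eval_finsetSum]
    simp only [Polynomial.eval_monomial]
    have h1 := (hasSum_nat_add_iff' (d + 1)).2 (hsum z)
    have h2 : HasSum (fun n : ℕ => Λ / 2 ^ d * ((1 / 2) ^ n / 2)) (Λ / 2 ^ d) := by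
      have := (hasSum_geometric_two' (1 : ℝ)).mul_left (Λ / 2 ^ d)
      simp only [mul_one] at this
      refine this.congr_fun ?_
      intro n
      rw [one_div, inv_pow]
      ring
    have h3 : ∀ n : ℕ, ‖c (n + (d + 1)) * z ^ (n + (d + 1))‖ ≤ Λ / 2 ^ d * ((1 / 2) ^ n / 2) := by
      intro n
      rw [norm_mul, norm_pow]
      have h4 : ‖z‖ ^ (n + (d + 1)) ≤ 1 := pow_le_one₀ (norm_nonneg _) hz
      calc ‖c (n + (d + 1))‖ * ‖z‖ ^ (n + (d + 1)) ≤ ‖c (n + (d + 1))‖ * 1 :=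
            mul_le_mul_of_nonneg_left h4 (norm_nonneg _)
        _ = ‖c (n + (d + 1))‖ := mul_one _
        _ ≤ Λ / 2 ^ (n + (d + 1)) := hcb _
        _ = _ := by
            rw [pow_add, pow_add, one_div, inv_pow]
            field_simp
    rw [← h1.tsum_eq]
    exact (tsum_of_norm_bounded h2 h3)

end Pool.Agent.Helper18.UY
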