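import Pool.Agent.Helper18.UY.BW
import Pool.Agent.Helper18.UY.Tay
import Pool.Agent.Helper18.UY.Cov
import Pool.Agent.Helper18.UY.Dyad

/-! Block UY-WIN: the window lemma for pairs of entire functions.

Given `ε`. Let `d ≥ 1` be a natural number with `2^d ≥ 20 Λ/(ε G)`, `d ≤ C (1 + log (Λ/G))` (e.g. `d = ⌈log (20 Λ/(ε G)) / log 2⌉₊ + 1`),
and `K` with `2^K ≥ Λ/G`, `K ≤ C (1 + log (Λ/G))`. `taylor_poly` gives `P₁, P₂` of degree `≤ d`, within `ε G/20` of `D₁, D₂` on the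
closed unit disc. Hypothesis `hK` of `dyadic`: if `‖Pⱼ s‖ ≤ 2 G` then `‖Dⱼ s‖ ≤ 2.05 G`, and `‖Dⱼ'‖ ≤ Λ` on the closed unit disc (Cauchy,
radius `1`: `Complex.norm_deriv_le_of_forall_mem_sphere_norm_le`), so `‖Dⱼ x‖ ≤ 2.05 G + Λ/2^K ≤ 3.05 G`, `‖Pⱼ x‖ ≤ 4 G`.
For a member `(α, h)` of `𝒥` let `r₀ = h/(16 d²)`; by `bw_disc` `‖Pⱼ z‖ ≤ 8 G` for `‖z - c‖ ≤ r₀`, `c ∈ [α, α + h]`, so by the Schwarz
lemma (`Complex.dist_le_div_mul_dist_of_mapsTo_ball` or: `(Pⱼ z - Pⱼ c)` is bounded by `16 G` on the disc of radius `r₀`)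
`‖Pⱼ z - Pⱼ c‖ ≤ (16 G / r₀) ‖z - c‖ ≤ ε G/2` if `‖z - c‖ ≤ 2 ρ`, `ρ = ε r₀/100`; then `‖Dⱼ z - Dⱼ c‖ ≤ ε G/2 + 2 ε G/20 ≤ ε G`
(`‖z‖ ≤ ‖c‖ + 2 ρ ≤ 1`). The centres: `cov` with `Z = Icc α (α + h)` and `η = ρ/2`: at most `2 h/ρ + 1 = 3200 d²/ε + 1` windows.
Every `s` with `|s| ≤ 1/2`, `‖Dⱼ s‖ ≤ G` has `‖Pⱼ s‖ ≤ 2 G`, so it lies in a member of `𝒥`, and within `ρ/2` of a centre. Total number
`≤ (1 + 16 d K)(3200 d²/ε + 1) ≤ C (1 + log (Λ/G))^4`. -/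

set_option autoImplicit false
open Set

namespace Pool.Agent.Helper18.UY

private lemma lip97 {D : ℂ → ℂ} (hD : Differentiable ℂ D) {Λ : ℝ} (hΛ : ∀ z : ℂ, ‖z‖ ≤ 2 → ‖D z‖ ≤ Λ)
    {x s : ℂ} (hx : ‖x‖ ≤ 1) (hs : ‖s‖ ≤ 1) : ‖D x - D s‖ ≤ Λ * ‖x - s‖ := by
  refine Convex.norm_image_sub_le_of_norm_deriv_le (s := Metric.closedBall (0 : ℂ) 1)
    (fun z _ => hD z) (fun z hz => ?_) (convex_closedBall 0 1) (by simpa using hs) (by simpa using hx)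
  have h1 := Complex.norm_deriv_le_of_forall_mem_sphere_norm_le (c := z) (R := 1) (C := Λ) (f := D)
    one_pos hD.diffContOnCl (fun w hw => by
      refine hΛ w ?_
      have h2 : ‖w - z‖ = 1 := by simpa [dist_eq_norm] using hw
      have h3 : ‖z‖ ≤ 1 := by simpa using hz
      calc ‖w‖ = ‖(w - z) + z‖ := by rw [sub_add_cancel]
        _ ≤ ‖w - z‖ + ‖z‖ := norm_add_le _ _
        _ ≤ 2 := by linarith)
  rwa [div_one] at h1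

private lemma osc97 {P : Polynomial ℂ} {d : ℕ} (hd : P.natDegree ≤ d) (hd1 : 1 ≤ d) {G α h : ℝ}
    (hG : 0 < G) (hh : 0 < h) (hM : ∀ x : ℝ, α ≤ x → x ≤ α + h → ‖P.eval (x : ℂ)‖ ≤ 4 * G) {x : ℝ}
    (hx : α ≤ x) (hx' : x ≤ α + h) {ε : ℝ} (hε : 0 < ε) (hε1 : ε ≤ 1) {z : ℂ}
    (hz : ‖z - x‖ ≤ 2 * (ε * (h / (16 * d ^ 2)) / 100)) :
    ‖P.eval z - P.eval (x : ℂ)‖ ≤ ε * G / 2 := by
  have hd0 : (0 : ℝ) < d := by exact_mod_cast hd1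
  set r : ℝ := h / (16 * d ^ 2) with hr
  have hr0 : 0 < r := by positivity
  have hzr : ‖z - x‖ < r := by
    refine lt_of_le_of_lt hz ?_
    nlinarith
  have h1 : dist (P.eval z) (P.eval (x : ℂ)) ≤ 16 * G / r * dist z x := by
    refine Complex.dist_le_div_mul_dist_of_mapsTo_ball (f := fun w => P.eval w) (c := (x : ℂ))
      (R₁ := r) (R₂ := 16 * G) (P.differentiable.differentiableOn) ?_ ?_
    · intro w hw
      rw [Metric.mem_ball, dist_eq_norm] at hw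
      rw [Metric.mem_closedBall, dist_eq_norm]
      have h2 := bw_disc hd hd1 hh hM hx hx' hw.le
      have h3 := hM x hx hx'
      calc ‖P.eval w - P.eval (x : ℂ)‖ ≤ ‖P.eval w‖ + ‖P.eval (x : ℂ)‖ := norm_sub_le _ _
        _ ≤ 16 * G := by linarith
    · rw [Metric.mem_ball, dist_eq_norm]
      exact hzr
  rw [dist_eq_norm, dist_eq_norm] at h1
  refine h1.trans ?_
  calc 16 * G / r * ‖z - x‖ ≤ 16 * G / r * (2 * (ε * r / 100)) :=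
        mul_le_mul_of_nonneg_left hz (by positivity)
    _ = 32 / 100 * (ε * G) := by field_simp; ring
    _ ≤ ε * G / 2 := by
      have : 0 < ε * G := by positivity
      linarith

theorem win {ε : ℝ} (hε : 0 < ε) (hε1 : ε ≤ 1) : ∃ C : ℝ, 1 ≤ C ∧ ∀ (D₁ D₂ : ℂ → ℂ) (G Λ : ℝ),
    Differentiable ℂ D₁ → Differentiable ℂ D₂ → 0 < G → G ≤ Λ →
    (∀ z : ℂ, ‖z‖ ≤ 2 → ‖D₁ z‖ ≤ Λ ∧ ‖D₂ z‖ ≤ Λ) →
    ∃ P : Finset (ℝ × ℝ), (P.card : ℝ) ≤ C * (1 + Real.log (Λ / G)) ^ 4 ∧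
      (∀ p ∈ P, 0 < p.2 ∧ |p.1| ≤ 1 / 2 ∧ p.2 ≤ 1 / 4 ∧ ∀ z : ℂ, ‖z - p.1‖ ≤ 2 * p.2 →
        ‖D₁ z - D₁ p.1‖ ≤ ε * G ∧ ‖D₂ z - D₂ p.1‖ ≤ ε * G) ∧
      ∀ s : ℝ, |s| ≤ 1 / 2 → ‖D₁ s‖ ≤ G → ‖D₂ s‖ ≤ G → ∃ p ∈ P, |s - p.1| ≤ p.2 / 2 := by
  classical
  have hlog2 : 0 < Real.log 2 := Real.log_pos one_lt_two
  have h20 : 0 ≤ Real.log (20 / ε) := Real.log_nonneg (by rw [le_div_iff₀ hε]; linarith)
  set Cd : ℝ := Real.log (20 / ε) / Real.log 2 + 1 / Real.log 2 + 2 with hCd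
  have hCd0 : 0 < Cd := by positivity
  refine ⟨54417 / ε * Cd ^ 4 + 1, by
    have : 0 ≤ 54417 / ε * Cd ^ 4 := by positivity
    linarith, ?_⟩
  intro D₁ D₂ G Λ hD₁ hD₂ hG hGΛ hΛ
  have hΛ0 : 0 < Λ := by linarith
  have hq1 : 1 ≤ Λ / G := by rw [le_div_iff₀ hG]; linarith
  set ℓ : ℝ := Real.log (Λ / G) with hℓ
  have hℓ0 : 0 ≤ ℓ := Real.log_nonneg hq1
  set d : ℕ := ⌈Real.log (20 * Λ / (ε * G)) / Real.log 2⌉₊ + 1 with hd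
  have hd1 : 1 ≤ d := by omega
  have hlogeq : Real.log (20 * Λ / (ε * G)) = Real.log (20 / ε) + ℓ := by
    rw [hℓ, ← Real.log_mul (by positivity) (by positivity)]
    congr 1
    field_simp
  have h2d : 20 * Λ / (ε * G) ≤ 2 ^ d := by
    have h1 : Real.log (20 * Λ / (ε * G)) / Real.log 2 ≤ d := by
      rw [hd]
      push_cast
      have := Nat.le_ceil (Real.log (20 * Λ / (ε * G)) / Real.log 2)
      linarith
    rw [div_le_iff₀ hlog2] at h1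
    have h2 : Real.log (20 * Λ / (ε * G)) ≤ Real.log (2 ^ d) := by
      rw [Real.log_pow]
      exact h1
    exact (Real.log_le_log_iff (by positivity) (by positivity)).mp h2
  have hdC : (d : ℝ) ≤ Cd * (1 + ℓ) := by
    have h1 : (d : ℝ) ≤ Real.log (20 * Λ / (ε * G)) / Real.log 2 + 2 := by
      rw [hd]
      push_cast
      have h2 : 0 ≤ Real.log (20 * Λ / (ε * G)) / Real.log 2 := by
        rw [hlogeq]
        positivity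
      have := Nat.ceil_lt_add_one h2
      linarith
    rw [hlogeq, add_div] at h1
    have h3 : 0 ≤ Real.log (20 / ε) / Real.log 2 * ℓ := by positivity
    have h4 : ℓ / Real.log 2 = 1 / Real.log 2 * ℓ := by ring
    have h5 : 0 < 1 / Real.log 2 := by positivity
    rw [hCd]
    nlinarith
  have hsmall : Λ / 2 ^ d ≤ ε * G / 20 := by
    rw [div_le_iff₀ (by positivity)]
    rw [div_le_iff₀ (by positivity)] at h2d
    nlinarith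
  have hεG : 0 < ε * G := by positivity
  have hεG' : ε * G ≤ G := by nlinarith
  obtain ⟨P₁, hP₁d, hP₁⟩ := taylor_poly hD₁ (fun z hz => (hΛ z hz).1) d
  obtain ⟨P₂, hP₂d, hP₂⟩ := taylor_poly hD₂ (fun z hz => (hΛ z hz).2) d
  have hK0 : ∀ (D : ℂ → ℂ) (P : Polynomial ℂ), Differentiable ℂ D → (∀ z : ℂ, ‖z‖ ≤ 2 → ‖D z‖ ≤ Λ) →
      (∀ z : ℂ, ‖z‖ ≤ 1 → ‖D z - P.eval z‖ ≤ Λ / 2 ^ d) →
      ∀ s x : ℝ, |s| ≤ 1 / 2 → |x| ≤ 1 / 2 → |s - x| ≤ 1 / 2 ^ d →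
      ‖P.eval (s : ℂ)‖ ≤ 2 * G → ‖P.eval (x : ℂ)‖ ≤ 4 * G := by
    intro D P hD hDΛ hP s x hs hx hsx hPs
    have hs1 : ‖(s : ℂ)‖ ≤ 1 := by rw [Complex.norm_real, Real.norm_eq_abs]; linarith
    have hx1 : ‖(x : ℂ)‖ ≤ 1 := by rw [Complex.norm_real, Real.norm_eq_abs]; linarith
    have h1 := hP s hs1
    have h2 := hP x hx1
    have h3 := lip97 hD hDΛ hx1 hs1
    have h4 : ‖(x : ℂ) - s‖ ≤ 1 / 2 ^ d := by
      rw [← Complex.ofReal_sub, Complex.norm_real, Real.norm_eq_abs, abs_sub_comm]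
      exact hsx
    have h5 : Λ * ‖(x : ℂ) - s‖ ≤ ε * G / 20 := by
      calc Λ * ‖(x : ℂ) - s‖ ≤ Λ * (1 / 2 ^ d) := mul_le_mul_of_nonneg_left h4 hΛ0.le
        _ = Λ / 2 ^ d := by ring
        _ ≤ ε * G / 20 := hsmall
    have h6 : P.eval (x : ℂ) = P.eval (s : ℂ) + (D s - P.eval (s : ℂ)) + (D x - D s) -
        (D x - P.eval (x : ℂ)) := by ring
    rw [h6]
    calc ‖P.eval (s : ℂ) + (D s - P.eval (s : ℂ)) + (D x - D s) - (D x - P.eval (x : ℂ))‖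
        ≤ ‖P.eval (s : ℂ) + (D s - P.eval (s : ℂ)) + (D x - D s)‖ + ‖D x - P.eval (x : ℂ)‖ :=
          norm_sub_le _ _
      _ ≤ ‖P.eval (s : ℂ) + (D s - P.eval (s : ℂ))‖ + ‖D x - D s‖ + ‖D x - P.eval (x : ℂ)‖ := by
          gcongr
          exact norm_add_le _ _
      _ ≤ ‖P.eval (s : ℂ)‖ + ‖D s - P.eval (s : ℂ)‖ + ‖D x - D s‖ + ‖D x - P.eval (x : ℂ)‖ := by
          gcongr
          exact norm_add_le _ _
      _ ≤ 4 * G := by linarith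
  obtain ⟨𝒥, hJc, hJ, hJs⟩ := dyadic hP₁d hP₂d hG (K := d) (fun s x hs hx hsx h1 h2 =>
    ⟨hK0 D₁ P₁ hD₁ (fun z hz => (hΛ z hz).1) hP₁ s x hs hx hsx h1,
      hK0 D₂ P₂ hD₂ (fun z hz => (hΛ z hz).2) hP₂ s x hs hx hsx h2⟩)
  have hd0 : (0 : ℝ) < d := by exact_mod_cast hd1
  have hd1' : (1 : ℝ) ≤ d := by exact_mod_cast hd1
  set ρ : ℝ × ℝ → ℝ := fun p => ε * (p.2 / (16 * (d : ℝ) ^ 2)) / 100 with hρ
  have hρ0 : ∀ p ∈ 𝒥, 0 < ρ p := by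
    intro p hp
    have := (hJ p hp).1
    show 0 < ε * (p.2 / (16 * (d : ℝ) ^ 2)) / 100
    positivity
  have hcov : ∀ p ∈ 𝒥, ∃ Q : Finset ℝ, (Q.card : ℝ) ≤ p.2 / (ρ p / 2) + 1 ∧
      (∀ c ∈ Q, c ∈ Icc p.1 (p.1 + p.2)) ∧ ∀ z ∈ Icc p.1 (p.1 + p.2), ∃ c ∈ Q, |z - c| ≤ ρ p / 2 := by
    intro p hp
    exact cov (Z := Icc p.1 (p.1 + p.2)) (u := p.1) (d := p.2) (η := ρ p / 2) subset_rfl
      (hJ p hp).1.le (half_pos (hρ0 p hp))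
  choose! Q hQ1 hQ2 hQ3 using hcov
  have hosc : ∀ (D : ℂ → ℂ) (P : Polynomial ℂ), P.natDegree ≤ d →
      (∀ z : ℂ, ‖z‖ ≤ 1 → ‖D z - P.eval z‖ ≤ Λ / 2 ^ d) → ∀ p ∈ 𝒥,
      (∀ x : ℝ, p.1 ≤ x → x ≤ p.1 + p.2 → ‖P.eval (x : ℂ)‖ ≤ 4 * G) → ∀ c ∈ Q p, ∀ z : ℂ,
      ‖z - c‖ ≤ 2 * ρ p → ‖D z - D c‖ ≤ ε * G := by
    intro D P hPd hP p hp hM c hc z hz
    obtain ⟨j1, j2, j3, j4⟩ := hJ p hp
    have hcI := hQ2 p hp c hc
    have h1 := osc97 hPd hd1 hG j1 hM hcI.1 hcI.2 hε hε1 (z := z) hz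
    have hc1 : |c| ≤ 1 / 2 := abs_le.mpr ⟨by linarith [hcI.1], by linarith [hcI.2]⟩
    have hcn : ‖(c : ℂ)‖ ≤ 1 / 2 := by rw [Complex.norm_real, Real.norm_eq_abs]; exact hc1
    have hρ4 : 2 * ρ p ≤ 1 / 2 := by
      have h5 : p.2 / (16 * (d : ℝ) ^ 2) ≤ 1 := by
        rw [div_le_one (by positivity)]
        nlinarith
      have h6 : 0 ≤ p.2 / (16 * (d : ℝ) ^ 2) := by positivity
      show 2 * (ε * (p.2 / (16 * (d : ℝ) ^ 2)) / 100) ≤ 1 / 2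
      nlinarith
    have hzn : ‖z‖ ≤ 1 := by
      calc ‖z‖ = ‖(z - c) + c‖ := by rw [sub_add_cancel]
        _ ≤ ‖z - c‖ + ‖(c : ℂ)‖ := norm_add_le _ _
        _ ≤ 1 := by linarith
    have h2 := hP z hzn
    have h3 := hP c (by linarith)
    have h4 : D z - D c = (D z - P.eval z) + (P.eval z - P.eval (c : ℂ)) - (D c - P.eval (c : ℂ)) := by
      ring
    rw [h4]
    calc ‖(D z - P.eval z) + (P.eval z - P.eval (c : ℂ)) - (D c - P.eval (c : ℂ))‖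
        ≤ ‖(D z - P.eval z) + (P.eval z - P.eval (c : ℂ))‖ + ‖D c - P.eval (c : ℂ)‖ := norm_sub_le _ _
      _ ≤ ‖D z - P.eval z‖ + ‖P.eval z - P.eval (c : ℂ)‖ + ‖D c - P.eval (c : ℂ)‖ := by
          gcongr
          exact norm_add_le _ _
      _ ≤ ε * G := by linarith
  refine ⟨𝒥.biUnion fun p => (Q p).image fun c => (c, ρ p), ?_, ?_, ?_⟩
  · have hcard : ∀ p ∈ 𝒥, (((Q p).image fun c => (c, ρ p)).card : ℝ) ≤ 3200 * (d : ℝ) ^ 2 / ε + 1 := by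
      intro p hp
      have j1 := (hJ p hp).1
      have h1 : (((Q p).image fun c => (c, ρ p)).card : ℝ) ≤ (Q p).card := by
        exact_mod_cast Finset.card_image_le
      refine h1.trans ((hQ1 p hp).trans (le_of_eq ?_))
      show p.2 / (ε * (p.2 / (16 * (d : ℝ) ^ 2)) / 100 / 2) + 1 = _
      field_simp
      ring
    have h2 : ((𝒥.biUnion fun p => (Q p).image fun c => (c, ρ p)).card : ℝ) ≤
        ∑ p ∈ 𝒥, (((Q p).image fun c => (c, ρ p)).card : ℝ) := by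
      exact_mod_cast Finset.card_biUnion_le
    have h3 : (𝒥.card : ℝ) ≤ 17 * (d : ℝ) ^ 2 := by
      have h4 : (𝒥.card : ℝ) ≤ 1 + 16 * d * d := by exact_mod_cast hJc
      nlinarith
    have hb0 : 0 ≤ 3200 * (d : ℝ) ^ 2 / ε + 1 := by positivity
    have hb1 : 3200 * (d : ℝ) ^ 2 / ε + 1 ≤ 3201 * (d : ℝ) ^ 2 / ε := by
      have h5 : 1 ≤ (d : ℝ) ^ 2 / ε := by
        rw [le_div_iff₀ hε]
        nlinarith
      have h6 : 3201 * (d : ℝ) ^ 2 / ε = 3200 * (d : ℝ) ^ 2 / ε + (d : ℝ) ^ 2 / ε := by ring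
      linarith
    have h7 : (d : ℝ) ^ 4 ≤ Cd ^ 4 * (1 + ℓ) ^ 4 := by
      rw [← mul_pow]
      exact pow_le_pow_left₀ hd0.le hdC 4
    have h8 : 0 ≤ (1 + ℓ) ^ 4 := by positivity
    calc ((𝒥.biUnion fun p => (Q p).image fun c => (c, ρ p)).card : ℝ)
        ≤ ∑ p ∈ 𝒥, (((Q p).image fun c => (c, ρ p)).card : ℝ) := h2
      _ ≤ ∑ p ∈ 𝒥, (3200 * (d : ℝ) ^ 2 / ε + 1) := Finset.sum_le_sum hcard
      _ = 𝒥.card * (3200 * (d : ℝ) ^ 2 / ε + 1) := by rw [Finset.sum_const, nsmul_eq_mul]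
      _ ≤ 17 * (d : ℝ) ^ 2 * (3201 * (d : ℝ) ^ 2 / ε) :=
          mul_le_mul h3 hb1 hb0 (by positivity)
      _ = 54417 / ε * (d : ℝ) ^ 4 := by ring
      _ ≤ 54417 / ε * (Cd ^ 4 * (1 + ℓ) ^ 4) := mul_le_mul_of_nonneg_left h7 (by positivity)
      _ ≤ (54417 / ε * Cd ^ 4 + 1) * (1 + ℓ) ^ 4 := by nlinarith
  · intro q hq
    rw [Finset.mem_biUnion] at hq
    obtain ⟨p, hp, hq⟩ := hq
    rw [Finset.mem_image] at hq
    obtain ⟨c, hc, rfl⟩ := hq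
    obtain ⟨j1, j2, j3, j4⟩ := hJ p hp
    have hcI := hQ2 p hp c hc
    refine ⟨hρ0 p hp, abs_le.mpr ⟨by linarith [hcI.1], by linarith [hcI.2]⟩, ?_, ?_⟩
    · have h5 : p.2 / (16 * (d : ℝ) ^ 2) ≤ 1 := by
        rw [div_le_one (by positivity)]
        nlinarith
      have h6 : 0 ≤ p.2 / (16 * (d : ℝ) ^ 2) := by positivity
      show ε * (p.2 / (16 * (d : ℝ) ^ 2)) / 100 ≤ 1 / 4
      nlinarith
    · intro z hz
      exact ⟨hosc D₁ P₁ hP₁d hP₁ p hp (fun x h1 h2 => (j4 x h1 h2).1) c hc z hz,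
        hosc D₂ P₂ hP₂d hP₂ p hp (fun x h1 h2 => (j4 x h1 h2).2) c hc z hz⟩
  · intro s hs h1 h2
    have hs1 : ‖(s : ℂ)‖ ≤ 1 := by rw [Complex.norm_real, Real.norm_eq_abs]; linarith
    have hb : ∀ (D : ℂ → ℂ) (P : Polynomial ℂ), (∀ z : ℂ, ‖z‖ ≤ 1 → ‖D z - P.eval z‖ ≤ Λ / 2 ^ d) →
        ‖D s‖ ≤ G → ‖P.eval (s : ℂ)‖ ≤ 2 * G := by
      intro D P hP hDs
      have h3 := hP s hs1
      have h4 : P.eval (s : ℂ) = D s - (D s - P.eval (s : ℂ)) := by ring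
      rw [h4]
      calc ‖D s - (D s - P.eval (s : ℂ))‖ ≤ ‖D s‖ + ‖D s - P.eval (s : ℂ)‖ := norm_sub_le _ _
        _ ≤ 2 * G := by linarith
    obtain ⟨p, hp, hsp⟩ := hJs s hs (hb D₁ P₁ hP₁ h1) (hb D₂ P₂ hP₂ h2)
    obtain ⟨c, hc, hsc⟩ := hQ3 p hp s ⟨hsp.1, hsp.2⟩
    exact ⟨(c, ρ p), Finset.mem_biUnion.mpr ⟨p, hp, Finset.mem_image_of_mem _ hc⟩, hsc⟩

end Pool.Agent.Helper18.UY
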